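import Mathlib.Algebra.BigOperators.Field
import Mathlib.Analysis.Normed.Field.Basic
import Mathlib.Topology.Sheaves.Presheaf
import Mathlib.Tactic.Bound
import Mathlib.Algebra.QuadraticDiscriminant
import Mathlib.Algebra.Order.Star.Real
import Mathlib.Combinatorics.SimpleGraph.Basic
import Mathlib.RingTheory.PiTensorProduct
import Mathlib.Tactic.Algebra.Basic
import Mathlib.Combinatorics.SimpleGraph.Metric
import Mathlib.Combinatorics.SimpleGraph.Connectivity.Finite
import Mathlib.Combinatorics.SimpleGraph.Acyclic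

-- ======== part 0: formerly Pool.Agent.MP_f8cd8e_pr.Forest
section MrgPart0

/-! Rooted spanning forests of a finite weighted network, and the identification of ratios of
forest partition functions with effective conductances. The diagonal weight `c x x` is a killing
rate. -/

open scoped Classical
open Finset

namespace Pool.Agent.MP_f8cd8e_pr

variable {V : Type} [Fintype V]

/-- `y` lies on the forward orbit of `x` under `g`. -/
def Rch (g : V → V) (x y : V) : Prop := Relation.ReflTransGen (fun a b => g a = b) x y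

/-- `g` fixes `T` and every orbit ends in a fixed point. -/
def IsFor (T : Finset V) (g : V → V) : Prop :=
  (∀ x ∈ T, g x = x) ∧ ∀ x, ∃ t, g t = t ∧ Rch g x t

noncomputable def fors (T : Finset V) : Finset (V → V) := univ.filter (IsFor T)

noncomputable def wt (c : V → V → ℝ) (T : Finset V) (g : V → V) : ℝ := ∏ x ∈ Tᶜ, c x (g x)

noncomputable def FF (c : V → V → ℝ) (T : Finset V) : ℝ := ∑ g ∈ fors T, wt c T g

/-- Dirichlet form with killing. -/
noncomputable def En (c : V → V → ℝ) (f h : V → ℝ) : ℝ :=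
  (1 / 2) * ∑ x, ∑ y, c x y * ((f x - f y) * (h x - h y)) + ∑ x, c x x * (f x * h x)

omit [Fintype V] in
lemma Rch.refl (g : V → V) (x : V) : Rch g x x := Relation.ReflTransGen.refl

omit [Fintype V] in
lemma Rch.head {g : V → V} {x y : V} (h : Rch g (g x) y) : Rch g x y :=
  Relation.ReflTransGen.head rfl h

omit [Fintype V] in
lemma Rch.trans {g : V → V} {x y z : V} (h : Rch g x y) (h' : Rch g y z) : Rch g x z :=
  Relation.ReflTransGen.trans h h'

omit [Fintype V] in
lemma Rch.cases {g : V → V} {x y : V} (h : Rch g x y) : x = y ∨ Rch g (g x) y := by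
  rcases Relation.ReflTransGen.cases_head h with h | ⟨c, hc, h⟩
  · exact Or.inl h
  · right; rw [hc]; exact h

omit [Fintype V] in
lemma Rch.ind {g : V → V} {y : V} {P : V → Prop} (h0 : P y)
    (hs : ∀ x, Rch g (g x) y → P (g x) → P x) {x : V} (h : Rch g x y) : P x := by
  induction h using Relation.ReflTransGen.head_induction_on with
  | refl => exact h0
  | head h1 h2 ih => subst h1; exact hs _ h2 ih

omit [Fintype V] in
lemma Rch.of_fixed {g : V → V} {t w : V} (ht : g t = t) (h : Rch g t w) : w = t := by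
  induction h with
  | refl => rfl
  | tail _ h2 ih => rw [← h2, ih, ht]

omit [Fintype V] in
lemma Rch.unique {g : V → V} {z a b : V} (ha : g a = a) (hb : g b = b) (h1 : Rch g z a)
    (h2 : Rch g z b) : a = b := by
  revert h2
  refine Rch.ind (P := fun z => Rch g z b → a = b) ?_ ?_ h1
  · intro h; exact (Rch.of_fixed ha h).symm
  · intro x hx ih h
    rcases h.cases with h | h
    · subst h
      rw [hb] at hx
      exact Rch.of_fixed hb hx
    · exact ih h

omit [Fintype V] in
lemma Rch.iterate (g : V → V) (x : V) (k : ℕ) : Rch g x (g^[k] x) := by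
  induction k with
  | zero => exact Rch.refl _ _
  | succ k ih =>
    rw [Function.iterate_succ_apply']
    exact Relation.ReflTransGen.tail ih rfl

omit [Fintype V] in
lemma Rch.exists_iterate {g : V → V} {x y : V} (h : Rch g x y) : ∃ k, g^[k] x = y := by
  refine Rch.ind (P := fun x => ∃ k, g^[k] x = y) ⟨0, rfl⟩ ?_ h
  rintro x - ⟨k, hk⟩
  exact ⟨k + 1, by rw [Function.iterate_succ_apply]; exact hk⟩

omit [Fintype V] in
/-- Reaching `y` does not depend on the value at `y`. -/
lemma Rch.update_self {g : V → V} {x y : V} (z : V) (h : Rch g x y) :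
    Rch (Function.update g y z) x y := by
  refine Rch.ind (P := fun x => Rch (Function.update g y z) x y) (Rch.refl _ _) ?_ h
  intro x _ ih
  by_cases hx : x = y
  · subst hx; exact Rch.refl _ _
  · apply Rch.head; rw [Function.update_of_ne hx]; exact ih

omit [Fintype V] in
lemma Rch.of_update_self {g : V → V} {x y z : V} (h : Rch (Function.update g y z) x y) :
    Rch g x y := by
  have := h.update_self (g y)
  rwa [Function.update_idem, Function.update_eq_self] at this

omit [Fintype V] in
lemma Rch.update_of_not {g : V → V} {x y w : V} (z : V) (hn : ¬ Rch g x y) (h : Rch g x w) :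
    Rch (Function.update g y z) x w := by
  revert hn
  refine Rch.ind (P := fun x => ¬ Rch g x y → Rch (Function.update g y z) x w)
    (fun _ => Rch.refl _ _) ?_ h
  intro x _ ih hn
  have hx : x ≠ y := by rintro rfl; exact hn (Rch.refl _ _)
  apply Rch.head; rw [Function.update_of_ne hx]
  exact ih (fun h => hn h.head)

omit [Fintype V] in
lemma Rch.of_update_of_not {g : V → V} {x y w z : V} (hn : ¬ Rch g x y)
    (h : Rch (Function.update g y z) x w) : Rch g x w := by
  have hn' : ¬ Rch (Function.update g y z) x y := fun h => hn h.of_update_self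
  have := h.update_of_not (g y) hn'
  rwa [Function.update_idem, Function.update_eq_self] at this

omit [Fintype V] in
lemma Rch.cycle {g : V → V} {y w : V} (hc : Rch g (g y) y) (h : Rch g y w) : Rch g w y := by
  induction h with
  | refl => exact Rch.refl _ _
  | tail _ h2 ih =>
    subst h2
    rcases ih.cases with h | h
    · rw [h]; exact hc
    · exact h

omit [Fintype V] in
lemma isFor_update_self {T : Finset V} {g : V → V} (y : V) (h : IsFor T g) :
    IsFor (insert y T) (Function.update g y y) := by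
  refine ⟨?_, ?_⟩
  · intro x hx
    by_cases hxy : x = y
    · subst hxy; simp
    · rw [Function.update_of_ne hxy]
      exact h.1 x (by simpa [hxy] using hx)
  · intro x
    by_cases hx : Rch g x y
    · exact ⟨y, by simp, hx.update_self y⟩
    · obtain ⟨t, ht, hr⟩ := h.2 x
      have hty : t ≠ y := by rintro rfl; exact hx hr
      exact ⟨t, by rw [Function.update_of_ne hty]; exact ht, hr.update_of_not y hx⟩

omit [Fintype V] in
lemma not_rch_update_self {T : Finset V} {g : V → V} (y : V) (h : IsFor T g) :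
    g y = y ∨ ¬ Rch (Function.update g y y) (g y) y := by
  by_cases hy : g y = y
  · exact Or.inl hy
  · right
    intro hr
    have hc := hr.of_update_self
    obtain ⟨t, ht, hyt⟩ := h.2 y
    have := Rch.of_fixed ht (hc.cycle hyt)
    exact hy (by rw [this]; exact ht)

omit [Fintype V] in
lemma isFor_update {T : Finset V} {g : V → V} {y z : V} (hy : y ∉ T) (h : IsFor (insert y T) g)
    (hz : z = y ∨ ¬ Rch g z y) : IsFor T (Function.update g y z) := by
  have hgy : g y = y := h.1 y (mem_insert_self _ _)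
  rcases hz with rfl | hz
  · have : Function.update g z z = g := by
      conv_lhs => rw [← hgy]
      rw [hgy]
      ext w; by_cases hw : w = z
      · subst hw; simp [hgy]
      · simp [hw]
    rw [this]
    exact ⟨fun x hx => h.1 x (mem_insert_of_mem hx), h.2⟩
  · have key : ∀ w, ¬ Rch g w y → ∃ t, Function.update g y z t = t ∧
        Rch (Function.update g y z) w t := by
      intro w hw
      obtain ⟨t, ht, hr⟩ := h.2 w
      have hty : t ≠ y := by rintro rfl; exact hw hr
      exact ⟨t, by rw [Function.update_of_ne hty]; exact ht, hr.update_of_not z hw⟩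
    refine ⟨?_, ?_⟩
    · intro x hx
      have hxy : x ≠ y := by rintro rfl; exact hy hx
      rw [Function.update_of_ne hxy]
      exact h.1 x (mem_insert_of_mem hx)
    · intro x
      by_cases hx : Rch g x y
      · obtain ⟨t, ht, hr⟩ := key z hz
        refine ⟨t, ht, (hx.update_self z).trans (Rch.head ?_)⟩
        simpa using hr
      · exact key x hx

lemma wt_update (c : V → V → ℝ) {T : Finset V} {y : V} (hy : y ∉ T) (g : V → V) (z : V) :
    wt c T (Function.update g y z) = c y z * wt c (insert y T) g := by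
  unfold wt
  have h1 : Tᶜ = insert y (insert y T)ᶜ := by
    ext w; by_cases hw : w = y
    · subst hw; simp [hy]
    · simp [hw]
  rw [h1, prod_insert (by simp)]
  congr 1
  · simp
  · apply prod_congr rfl
    intro w hw
    have : w ≠ y := by rintro rfl; simp at hw
    rw [Function.update_of_ne this]

/-- Splitting a forest at a vertex. -/
lemma split_sum (c : V → V → ℝ) {T : Finset V} {y : V} (hy : y ∉ T) (ψ : (V → V) → ℝ) :
    ∑ g ∈ fors T, wt c T g * ψ g =
      ∑ g ∈ fors (insert y T), ∑ z, if z = y ∨ ¬ Rch g z y then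
        c y z * wt c (insert y T) g * ψ (Function.update g y z) else 0 := by
  rw [← sum_product']
  rw [← sum_filter]
  symm
  refine sum_bij' (fun p _ => Function.update p.1 y p.2)
    (fun g _ => (Function.update g y y, g y)) ?_ ?_ ?_ ?_ ?_
  · rintro ⟨g, z⟩ hp
    simp only [fors, mem_filter, mem_product, mem_univ, true_and, and_true] at hp ⊢
    exact isFor_update hy hp.1 hp.2
  · intro g hg
    simp only [fors, mem_filter, mem_product, mem_univ, true_and, and_true] at hg ⊢
    exact ⟨isFor_update_self y hg, not_rch_update_self y hg⟩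
  · rintro ⟨g, z⟩ hp
    simp only [fors, mem_filter, mem_product, mem_univ, true_and, and_true] at hp
    have hgy : g y = y := hp.1.1 y (mem_insert_self _ _)
    simp only [Function.update_idem, Function.update_self, Prod.mk.injEq, and_true]
    ext w; by_cases hw : w = y
    · subst hw; simp [hgy]
    · simp [hw]
  · intro g _
    simp
  · rintro ⟨g, z⟩ _
    simp only
    rw [wt_update c hy]

lemma wt_nonneg {c : V → V → ℝ} (hc : ∀ x y, 0 ≤ c x y) (T : Finset V) (g : V → V) :
    0 ≤ wt c T g := prod_nonneg fun _ _ => hc _ _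

lemma FF_nonneg {c : V → V → ℝ} (hc : ∀ x y, 0 ≤ c x y) (T : Finset V) : 0 ≤ FF c T :=
  sum_nonneg fun _ _ => wt_nonneg hc _ _

/-- Unnormalised hitting function. -/
noncomputable def NN (c : V → V → ℝ) (T : Finset V) (x z : V) : ℝ :=
  ∑ g ∈ fors T, wt c T g * (if Rch g z x then 1 else 0)

lemma NN_self (c : V → V → ℝ) (T : Finset V) (x : V) : NN c T x x = FF c T := by
  simp [NN, FF, Rch.refl]

lemma NN_root (c : V → V → ℝ) {T : Finset V} {x t : V} (ht : t ∈ T) (htx : t ≠ x) :
    NN c T x t = 0 := by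
  apply sum_eq_zero
  intro g hg
  simp only [fors, mem_filter, mem_univ, true_and] at hg
  have : ¬ Rch g t x := fun h => htx (Rch.of_fixed (hg.1 t ht) h).symm
  simp [this]

lemma NN_nonneg {c : V → V → ℝ} (hc : ∀ x y, 0 ≤ c x y) (T : Finset V) (x z : V) :
    0 ≤ NN c T x z :=
  sum_nonneg fun _ _ => mul_nonneg (wt_nonneg hc _ _) (by split_ifs <;> norm_num)

lemma NN_le {c : V → V → ℝ} (hc : ∀ x y, 0 ≤ c x y) (T : Finset V) (x z : V) :
    NN c T x z ≤ FF c T :=
  sum_le_sum fun g _ => by
    have := wt_nonneg hc T g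
    split_ifs <;> nlinarith

lemma FF_eq (c : V → V → ℝ) {T : Finset V} {x : V} (hx : x ∉ T) :
    FF c T = ∑ z, c x z * (NN c (insert x T) x x - NN c (insert x T) x z) +
      c x x * NN c (insert x T) x x := by
  have h := split_sum c hx (fun _ => 1)
  simp only [mul_one] at h
  unfold FF
  rw [h, sum_comm]
  have e : ∀ z, (∑ g ∈ fors (insert x T), if z = x ∨ ¬ Rch g z x then
      c x z * wt c (insert x T) g else 0) =
      c x z * (NN c (insert x T) x x - NN c (insert x T) x z) +
        (if z = x then c x x * NN c (insert x T) x x else 0) := by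
    intro z
    by_cases hz : z = x
    · subst hz
      simp [NN, Rch.refl, mul_sum]
    · simp only [hz, false_or, if_false, add_zero, NN, Rch.refl, if_true, ← sum_sub_distrib,
        mul_sum]
      apply sum_congr rfl
      intro g _
      split_ifs <;> simp
  simp only [e, sum_add_distrib, sum_ite_eq', mem_univ, if_true]

omit [Fintype V] in
lemma rch_update_iff {g : V → V} {x y z' : V} (hx : g x = x) (hy : g y = y) (hxy : x ≠ y)
    (hz : ¬ Rch g z' y) (z : V) :
    Rch (Function.update g y z') z x ↔ Rch g z x ∨ (Rch g z y ∧ Rch g z' x) := by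
  constructor
  · intro h
    by_cases hzy : Rch g z y
    · right
      refine ⟨hzy, ?_⟩
      have hx' : Function.update g y z' x = x := by rw [Function.update_of_ne hxy, hx]
      have h1 : Rch (Function.update g y z') z z' :=
        (hzy.update_self z').trans (Rch.head (by simpa using Rch.refl _ _))
      have key : ∀ w, Rch (Function.update g y z') w x → Rch (Function.update g y z') w z' →
          Rch (Function.update g y z') z' x := by
        intro w hw
        refine Rch.ind (P := fun w => Rch (Function.update g y z') w z' →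
          Rch (Function.update g y z') z' x) ?_ ?_ hw
        · intro h
          rw [Rch.of_fixed hx' h]; exact Rch.refl _ _
        · intro w hw ih h
          rcases h.cases with h | h
          · have := hw.head
            rw [h] at this; exact this
          · exact ih h
      exact (key z h h1).of_update_of_not hz
    · exact Or.inl (h.of_update_of_not hzy)
  · rintro (h | ⟨h1, h2⟩)
    · have : ¬ Rch g z y := fun h' => hxy (Rch.unique hx hy h h')
      exact h.update_of_not z' this
    · refine (h1.update_self z').trans (Rch.head ?_)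
      simpa using h2.update_of_not z' hz

lemma NN_harm (c : V → V → ℝ) {T : Finset V} {x y : V} (hx : x ∈ T) (hy : y ∉ T) :
    ∑ z, c y z * (NN c T x y - NN c T x z) + c y y * NN c T x y = 0 := by
  have hxy : x ≠ y := by rintro rfl; exact hy hx
  set a : (V → V) → ℝ := fun g => ∑ z, c y z * (if Rch g z x then 1 else 0) with ha
  set b : (V → V) → ℝ := fun g => ∑ z, c y z * (if Rch g z y then 0 else 1) with hb
  have hN : ∀ z, NN c T x z = ∑ g ∈ fors (insert y T), wt c (insert y T) g *
      ((if Rch g z x then 1 else 0) * (b g + c y y) + (if Rch g z y then 1 else 0) * a g) := by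
    intro z
    unfold NN
    rw [split_sum c hy]
    apply sum_congr rfl
    intro g hg
    simp only [fors, mem_filter, mem_univ, true_and] at hg
    have hgx : g x = x := hg.1 x (mem_insert_of_mem hx)
    have hgy : g y = y := hg.1 y (mem_insert_self _ _)
    have hup : Function.update g y y = g := by
      ext w; by_cases hw : w = y
      · subst hw; simp [hgy]
      · simp [hw]
    have hcy : c y y = ∑ z', if z' = y then c y y else 0 := by simp
    rw [hcy]
    simp only [ha, hb, mul_add, mul_sum, ← sum_add_distrib]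
    apply sum_congr rfl
    intro z' _
    have hex : ∀ w, Rch g w x → ¬ Rch g w y := fun w h h' => hxy (Rch.unique hgx hgy h h')
    by_cases hz' : z' = y
    · subst hz'
      have : ¬ Rch g z' x := fun h => hex _ h (Rch.refl _ _)
      simp only [true_or, if_true, hup, Rch.refl, this, if_false]
      split_ifs <;> ring
    · by_cases hr : Rch g z' y
      · have : ¬ Rch g z' x := fun h => hex _ h hr
        simp [hz', hr, this]
      · simp only [hz', hr, false_or, not_false_eq_true, if_true, if_false,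
          rch_update_iff hgx hgy hxy hr]
        by_cases h1 : Rch g z x
        · simp [h1, hex _ h1]; ring
        · by_cases h2 : Rch g z y
          · by_cases h3 : Rch g z' x
            · simp [h1, h2, h3]; ring
            · simp [h1, h2, h3]
          · simp [h1, h2]
  have hNy : NN c T x y = ∑ g ∈ fors (insert y T), wt c (insert y T) g * a g := by
    rw [hN]
    apply sum_congr rfl
    intro g hg
    simp only [fors, mem_filter, mem_univ, true_and] at hg
    have hgy : g y = y := hg.1 y (mem_insert_self _ _)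
    have : ¬ Rch g y x := fun h => hxy (Rch.of_fixed hgy h)
    simp [this, Rch.refl]
  have hsum : ∑ z, c y z * NN c T x z = (∑ z, c y z + c y y) * NN c T x y := by
    simp only [hN, mul_sum]
    rw [sum_comm, ← mul_sum, ← hN y, hNy, mul_sum]
    apply sum_congr rfl
    intro g _
    have e1 : ∑ z, c y z = b g + ∑ z, c y z * (if Rch g z y then 1 else 0) := by
      simp only [hb, ← sum_add_distrib]
      apply sum_congr rfl
      intro z _
      split_ifs <;> ring
    have e2 : ∀ z, c y z * (wt c (insert y T) g *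
        ((if Rch g z x then 1 else 0) * (b g + c y y) + (if Rch g z y then 1 else 0) * a g)) =
        wt c (insert y T) g * (b g + c y y) * (c y z * (if Rch g z x then 1 else 0)) +
        wt c (insert y T) g * a g * (c y z * (if Rch g z y then 1 else 0)) := by
      intro z; ring
    simp only [e2, sum_add_distrib, ← mul_sum]
    rw [e1]
    change _ * a g + _ = _
    ring
  simp only [mul_sub, sum_sub_distrib, ← sum_mul]
  rw [hsum]; ring

lemma En_eq {c : V → V → ℝ} (hs : ∀ x y, c x y = c y x) (f h : V → ℝ) :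
    En c f h = ∑ x, f x * (∑ y, c x y * (h x - h y) + c x x * h x) := by
  unfold En
  have e1 : ∑ x, ∑ y, c x y * ((f x - f y) * (h x - h y)) =
      ∑ x, ∑ y, f x * (c x y * (h x - h y)) + ∑ x, ∑ y, f y * (c y x * (h y - h x)) := by
    rw [← sum_add_distrib]
    apply sum_congr rfl; intro x _
    rw [← sum_add_distrib]
    apply sum_congr rfl; intro y _
    rw [hs y x]; ring
  rw [e1, sum_comm (f := fun x y => f y * (c y x * (h y - h x)))]
  simp only [mul_add, sum_add_distrib, mul_sum]
  have : ∑ x, c x x * (f x * h x) = ∑ x, f x * (c x x * h x) :=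
    sum_congr rfl fun x _ => by ring
  rw [this]
  simp only [← mul_sum]
  ring

/-- The harmonic function attached to `x` and the root set `T`. -/
theorem exists_harm {c : V → V → ℝ} (hs : ∀ x y, c x y = c y x) (hc : ∀ x y, 0 ≤ c x y)
    {T : Finset V} {x : V} (hx : x ∉ T) (hF : 0 < FF c (insert x T)) :
    ∃ h : V → ℝ, h x = 1 ∧ (∀ t ∈ T, h t = 0) ∧ (∀ z, 0 ≤ h z ∧ h z ≤ 1) ∧
      (∀ z, NN c (insert x T) x z = FF c (insert x T) * h z) ∧
      ∀ f : V → ℝ, (∀ t ∈ T, f t = 0) → En c f h = f x * (FF c T / FF c (insert x T)) := by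
  refine ⟨fun z => NN c (insert x T) x z / FF c (insert x T), ?_, ?_, ?_, ?_, ?_⟩
  · simp only [NN_self]; exact div_self hF.ne'
  · intro t ht
    have : t ≠ x := by rintro rfl; exact hx ht
    simp [NN_root c (mem_insert_of_mem ht) this]
  · intro z
    exact ⟨div_nonneg (NN_nonneg hc _ _ _) hF.le, (div_le_one hF).2 (NN_le hc _ _ _)⟩
  · intro z; field_simp
  · intro f hf
    rw [En_eq hs, sum_eq_single x]
    · rw [FF_eq c hx]
      congr 1
      rw [add_div, sum_div]
      congr 1
      · apply sum_congr rfl; intro y _; ring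
      · ring
    · intro y _ hyx
      by_cases hy : y ∈ T
      · simp [hf y hy]
      · have := NN_harm c (T := insert x T) (x := x) (y := y) (mem_insert_self _ _)
          (by simp [hyx, hy])
        have e : ∑ z, c y z * (NN c (insert x T) x y / FF c (insert x T) -
            NN c (insert x T) x z / FF c (insert x T)) +
            c y y * (NN c (insert x T) x y / FF c (insert x T)) =
            (∑ z, c y z * (NN c (insert x T) x y - NN c (insert x T) x z) +
              c y y * NN c (insert x T) x y) / FF c (insert x T) := by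
          rw [add_div, sum_div]
          congr 1
          · apply sum_congr rfl; intro y _; ring
          · ring
        rw [e, this]; simp
    · simp

lemma FF_univ (c : V → V → ℝ) : FF c univ = 1 := by
  unfold FF
  have : fors (univ : Finset V) = {id} := by
    ext g
    simp only [fors, mem_filter, mem_univ, true_and, mem_singleton]
    constructor
    · intro h; ext x; exact h.1 x (mem_univ _)
    · rintro rfl; exact ⟨fun _ _ => rfl, fun x => ⟨x, rfl, Rch.refl _ _⟩⟩
  rw [this]; simp [wt]

/-- Forests that send `y` to `z`, where `z` is `y` itself or a root. -/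
lemma sum_step (c : V → V → ℝ) {T : Finset V} {y z : V} (hy : y ∉ T) (hz : z = y ∨ z ∈ T)
    (ψ : (V → V) → ℝ) :
    ∑ g ∈ fors T, wt c T g * ((if g y = z then 1 else 0) * ψ g) =
      c y z * ∑ g ∈ fors (insert y T), wt c (insert y T) g * ψ (Function.update g y z) := by
  rw [split_sum c hy, mul_sum]
  apply sum_congr rfl
  intro g hg
  simp only [fors, mem_filter, mem_univ, true_and] at hg
  rw [sum_eq_single z]
  · have : z = y ∨ ¬ Rch g z y := by
      rcases hz with hz | hz
      · exact Or.inl hz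
      · right
        intro h
        have := Rch.of_fixed (hg.1 z (mem_insert_of_mem hz)) h
        exact hy (this ▸ hz)
    simp [this]; ring
  · intro w _ hw
    simp [hw]
  · simp

lemma FF_ge {c : V → V → ℝ} (hc : ∀ x y, 0 ≤ c x y) {T : Finset V} {y z : V} (hy : y ∉ T)
    (hz : z = y ∨ z ∈ T) : c y z * FF c (insert y T) ≤ FF c T := by
  have := sum_step c hy hz (fun _ => 1)
  simp only [mul_one] at this
  unfold FF
  rw [← this]
  apply sum_le_sum
  intro g _
  have := wt_nonneg hc T g
  split_ifs <;> nlinarith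

theorem FF_pos {c : V → V → ℝ} (hc : ∀ x y, 0 ≤ c x y) (T : Finset V)
    (h : ∀ z, ∃ t, (t ∈ T ∨ 0 < c t t) ∧ Relation.ReflTransGen (fun a b => 0 < c a b) z t) :
    0 < FF c T := by
  induction hn : Tᶜ.card generalizing T with
  | zero =>
    have : T = univ := by
      rw [card_eq_zero] at hn
      exact (compl_eq_empty_iff _).1 hn
    rw [this, FF_univ]; norm_num
  | succ n ih =>
    have hne : Tᶜ.Nonempty := card_pos.1 (by omega)
    obtain ⟨z, hz⟩ := hne
    rw [mem_compl] at hz
    obtain ⟨t, ht, hr⟩ := h z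
    have key : ∃ y w, y ∉ T ∧ (w = y ∨ w ∈ T) ∧ 0 < c y w := by
      revert hz
      induction hr using Relation.ReflTransGen.head_induction_on with
      | refl =>
        intro hz
        rcases ht with ht | ht
        · exact absurd ht hz
        · exact ⟨t, t, hz, Or.inl rfl, ht⟩
      | head h1 _ ih =>
        rename_i a b _
        intro ha
        by_cases hb : b ∈ T
        · exact ⟨a, b, ha, Or.inr hb, h1⟩
        · exact ih hb
    obtain ⟨y, w, hy, hw, hpos⟩ := key
    have h1 : 0 < FF c (insert y T) := by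
      apply ih
      · intro z
        obtain ⟨t, ht, hr⟩ := h z
        exact ⟨t, ht.imp mem_insert_of_mem id, hr⟩
      · rw [compl_insert, card_erase_of_mem (mem_compl.2 hy), hn]; rfl
    exact lt_of_lt_of_le (mul_pos hpos h1) (FF_ge hc hy hw)

/-- Forests that follow a given path into the root set. -/
theorem sum_follow (c : V → V → ℝ) (p : ℕ → V) (k : ℕ) (T : Finset V)
    (hinj : Set.InjOn p (Set.Iic k)) (hT : ∀ i < k, p i ∉ T) (hk : p k ∈ T) :
    ∑ g ∈ fors T, wt c T g * (if ∀ i < k, g (p i) = p (i + 1) then 1 else 0) =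
      (∏ i ∈ range k, c (p i) (p (i + 1))) * FF c (T ∪ (range k).image p) := by
  induction k generalizing T with
  | zero => simp [FF]
  | succ k ih =>
    have hy : p k ∉ T := hT k (by omega)
    have h1 := sum_step c hy (Or.inr hk)
      (fun g => if ∀ i < k, g (p i) = p (i + 1) then 1 else 0)
    have h2 := ih (insert (p k) T) (hinj.mono (fun i hi => by
        simp only [Set.mem_Iic] at hi ⊢; omega))
      (fun i hi => by
        simp only [mem_insert, not_or]
        refine ⟨fun h => ?_, hT i (by omega)⟩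
        have := hinj (by simp only [Set.mem_Iic]; omega) (by simp only [Set.mem_Iic]; omega) h
        omega) (mem_insert_self _ _)
    have h3 : ∀ g : V → V, (∀ i < k, Function.update g (p k) (p (k + 1)) (p i) = p (i + 1)) ↔
        ∀ i < k, g (p i) = p (i + 1) := by
      intro g
      apply forall_congr'; intro i
      apply forall_congr'; intro hi
      have : p i ≠ p k := fun h => by
        have := hinj (by simp only [Set.mem_Iic]; omega) (by simp only [Set.mem_Iic]; omega) h
        omega
      rw [Function.update_of_ne this]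
    simp only [h3] at h1
    rw [h2] at h1
    have h4 : insert (p k) T ∪ (range k).image p = T ∪ (range (k + 1)).image p := by
      rw [range_add_one, image_insert]; ext w; simp
    rw [prod_range_succ, ← h4, mul_comm (∏ i ∈ range k, c (p i) (p (i + 1))), mul_assoc, ← h1]
    apply sum_congr rfl
    intro g _
    congr 1
    by_cases h5 : g (p k) = p (k + 1)
    · by_cases h6 : ∀ i < k, g (p i) = p (i + 1)
      · rw [if_pos, if_pos h5, if_pos h6]; · simp
        intro i hi
        rcases Nat.lt_succ_iff_lt_or_eq.1 hi with hi | rfl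
        · exact h6 i hi
        · exact h5
      · rw [if_neg, if_neg h6]; · simp
        intro h; exact h6 fun i hi => h i (by omega)
    · rw [if_neg, if_neg h5]; · simp
      intro h; exact h5 (h k (by omega))

end Pool.Agent.MP_f8cd8e_pr

end MrgPart0

-- ======== part 1: formerly Pool.Agent.MP_f8cd8e_pr.Electric
section MrgPart1

/-! Comparison of forest partition functions through the Dirichlet principle. -/

open scoped Classical
open Finset

namespace Pool.Agent.MP_f8cd8e_pr

variable {V : Type} [Fintype V]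

omit [Fintype V] in
lemma rtg_mono {r s : V → V → Prop} (h : ∀ a b, r a b → s a b) {a b : V}
    (hr : Relation.ReflTransGen r a b) : Relation.ReflTransGen s a b := by
  induction hr with
  | refl => exact Relation.ReflTransGen.refl
  | tail _ h2 ih => exact ih.tail (h _ _ h2)

lemma En_comm (c : V → V → ℝ) (f h : V → ℝ) : En c f h = En c h f := by
  unfold En
  simp only [mul_comm (f _ - f _), mul_comm (f _)]

lemma En_lin (c : V → V → ℝ) (f g h : V → ℝ) (a b : ℝ) :
    En c (fun z => a * f z + b * g z) h = a * En c f h + b * En c g h := by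
  unfold En
  have e1 : ∑ x, ∑ y, c x y * ((a * f x + b * g x - (a * f y + b * g y)) * (h x - h y)) =
      a * ∑ x, ∑ y, c x y * ((f x - f y) * (h x - h y)) +
      b * ∑ x, ∑ y, c x y * ((g x - g y) * (h x - h y)) := by
    simp only [mul_sum, ← sum_add_distrib]
    apply sum_congr rfl; intro x _
    apply sum_congr rfl; intro y _
    ring
  have e2 : ∑ x, c x x * ((a * f x + b * g x) * h x) =
      a * ∑ x, c x x * (f x * h x) + b * ∑ x, c x x * (g x * h x) := by
    simp only [mul_sum, ← sum_add_distrib]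
    apply sum_congr rfl; intro x _
    ring
  rw [e1, e2]; ring

lemma En_quad (c : V → V → ℝ) (f g : V → ℝ) (a b : ℝ) :
    En c (fun z => a * f z + b * g z) (fun z => a * f z + b * g z) =
      a ^ 2 * En c f f + 2 * a * b * En c f g + b ^ 2 * En c g g := by
  rw [En_lin, En_comm c f, En_comm c g, En_lin, En_lin, En_comm c g f]
  ring

lemma En_nonneg {c : V → V → ℝ} (hc : ∀ x y, 0 ≤ c x y) (f : V → ℝ) : 0 ≤ En c f f := by
  unfold En
  have h1 : 0 ≤ ∑ x, ∑ y, c x y * ((f x - f y) * (f x - f y)) :=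
    sum_nonneg fun x _ => sum_nonneg fun y _ => mul_nonneg (hc _ _) (mul_self_nonneg _)
  have h2 : 0 ≤ ∑ x, c x x * (f x * f x) :=
    sum_nonneg fun x _ => mul_nonneg (hc _ _) (mul_self_nonneg _)
  positivity

lemma En_cs {c : V → V → ℝ} (hc : ∀ x y, 0 ≤ c x y) (f g : V → ℝ) :
    En c f g ^ 2 ≤ En c f f * En c g g := by
  have h : ∀ t : ℝ, 0 ≤ En c f f * (t * t) + 2 * En c f g * t + En c g g := by
    intro t
    have := En_nonneg hc (fun z => t * f z + 1 * g z)
    rw [En_quad] at this
    linarith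
  have := discrim_le_zero h
  unfold discrim at this
  nlinarith

lemma En_le_of {c₁ c₂ : V → V → ℝ} {f₁ f₂ : V → ℝ}
    (h1 : ∀ a b, c₁ a b * ((f₁ a - f₁ b) * (f₁ a - f₁ b)) ≤
      c₂ a b * ((f₂ a - f₂ b) * (f₂ a - f₂ b)))
    (h2 : ∀ a, c₁ a a * (f₁ a * f₁ a) ≤ c₂ a a * (f₂ a * f₂ a)) :
    En c₁ f₁ f₁ ≤ En c₂ f₂ f₂ := by
  unfold En
  have e1 := sum_le_sum (s := univ) fun a _ => sum_le_sum (s := univ) fun b _ => h1 a b
  have e2 := sum_le_sum (s := univ) fun a _ => h2 a
  linarith

/-- Effective conductance between `x` and the root set `T`. -/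
noncomputable def Cd (c : V → V → ℝ) (T : Finset V) (x : V) : ℝ := FF c T / FF c (insert x T)

lemma Cd_le_En {c : V → V → ℝ} (hs : ∀ x y, c x y = c y x) (hc : ∀ x y, 0 ≤ c x y)
    {T : Finset V} {x : V} (hx : x ∉ T) (hF : 0 < FF c (insert x T)) {f : V → ℝ}
    (hfx : f x = 1) (hf : ∀ t ∈ T, f t = 0) : Cd c T x ≤ En c f f := by
  obtain ⟨h, h1, h0, -, -, hr⟩ := exists_harm hs hc hx hF
  have e1 := hr f hf
  have e2 := hr h h0
  have := En_nonneg hc (fun z => 1 * f z + (-1) * h z)
  rw [En_quad, e1, e2, hfx, h1] at this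
  unfold Cd
  linarith

lemma Cd_le_of {c₁ c₂ : V → V → ℝ} (hs₁ : ∀ x y, c₁ x y = c₁ y x) (hc₁ : ∀ x y, 0 ≤ c₁ x y)
    (hs₂ : ∀ x y, c₂ x y = c₂ y x) (hc₂ : ∀ x y, 0 ≤ c₂ x y)
    {T : Finset V} {x : V} (hx : x ∉ T) (hF₁ : 0 < FF c₁ (insert x T))
    (hF₂ : 0 < FF c₂ (insert x T))
    (H : ∀ h : V → ℝ, h x = 1 → (∀ t ∈ T, h t = 0) →
      ∃ f : V → ℝ, f x = 1 ∧ (∀ t ∈ T, f t = 0) ∧ En c₁ f f ≤ En c₂ h h) :
    Cd c₁ T x ≤ Cd c₂ T x := by
  obtain ⟨h, h1, h0, -, -, hr⟩ := exists_harm hs₂ hc₂ hx hF₂
  obtain ⟨f, f1, f0, hle⟩ := H h h1 h0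
  have e2 := hr h h0
  rw [h1, one_mul] at e2
  exact (Cd_le_En hs₁ hc₁ hx hF₁ f1 f0).trans (hle.trans (le_of_eq e2))

/-- Telescoping comparison of two networks. -/
lemma telescope {c₁ c₂ : V → V → ℝ} (B A : Finset V)
    (hF₁ : ∀ T, B ⊆ T → 0 < FF c₁ T) (hF₂ : ∀ T, B ⊆ T → 0 < FF c₂ T)
    (H : ∀ T x, B ⊆ T → x ∈ A → x ∉ T → Cd c₂ T x ≤ Cd c₁ T x) :
    FF c₁ (B ∪ A) / FF c₁ B ≤ FF c₂ (B ∪ A) / FF c₂ B := by
  induction A using Finset.induction_on with
  | empty =>
    simp only [union_empty]
    rw [div_self (hF₁ B subset_rfl).ne', div_self (hF₂ B subset_rfl).ne']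
  | insert x A hx ih =>
    have ih := ih fun T y hT hy => H T y hT (mem_insert_of_mem hy)
    by_cases hxB : x ∈ B ∪ A
    · have : B ∪ insert x A = B ∪ A := by
        rw [union_insert, insert_eq_of_mem hxB]
      rw [this]; exact ih
    · have h := H (B ∪ A) x subset_union_left (mem_insert_self _ _) hxB
      unfold Cd at h
      rw [union_insert]
      have p1 := hF₁ B subset_rfl
      have p2 := hF₂ B subset_rfl
      have p3 := hF₁ (B ∪ A) subset_union_left
      have p4 := hF₂ (B ∪ A) subset_union_left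
      have p5 := hF₁ (insert x (B ∪ A)) (subset_union_left.trans (subset_insert _ _))
      have p6 := hF₂ (insert x (B ∪ A)) (subset_union_left.trans (subset_insert _ _))
      rw [div_le_div_iff₀ (by assumption) (by assumption)] at h ih ⊢
      have := mul_le_mul h ih (by positivity) (by positivity)
      have e : FF c₁ (insert x (B ∪ A)) * FF c₂ B * (FF c₁ (B ∪ A) * FF c₂ (B ∪ A)) ≤
          FF c₂ (insert x (B ∪ A)) * FF c₁ B * (FF c₁ (B ∪ A) * FF c₂ (B ∪ A)) := by
        nlinarith
      exact le_of_mul_le_mul_right e (by positivity)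

/-- The network `c` with extra killing at rate `lam` on `D`. -/
noncomputable def kill (c : V → V → ℝ) (D : Finset V) (lam : ℝ) (a b : V) : ℝ :=
  c a b + if a = b ∧ a ∈ D then lam else 0

omit [Fintype V] in
lemma kill_symm {c : V → V → ℝ} (hs : ∀ x y, c x y = c y x) (D : Finset V) (lam : ℝ) (a b : V) :
    kill c D lam a b = kill c D lam b a := by
  unfold kill
  rw [hs a b]
  by_cases h : a = b
  · subst h; rfl
  · simp [h, Ne.symm h]

omit [Fintype V] in
lemma le_kill (c : V → V → ℝ) (D : Finset V) {lam : ℝ} (hl : 0 ≤ lam) (a b : V) :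
    c a b ≤ kill c D lam a b := by
  unfold kill; split_ifs <;> linarith

omit [Fintype V] in
lemma kill_nonneg {c : V → V → ℝ} (hc : ∀ x y, 0 ≤ c x y) (D : Finset V) {lam : ℝ}
    (hl : 0 ≤ lam) (a b : V) : 0 ≤ kill c D lam a b := (hc a b).trans (le_kill c D hl a b)

lemma En_kill (c : V → V → ℝ) (D : Finset V) (lam : ℝ) (f : V → ℝ) :
    En (kill c D lam) f f = En c f f + lam * ∑ y ∈ D, f y ^ 2 := by
  unfold En kill
  have e1 : ∑ x, ∑ y, (c x y + if x = y ∧ x ∈ D then lam else 0) * ((f x - f y) * (f x - f y)) =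
      ∑ x, ∑ y, c x y * ((f x - f y) * (f x - f y)) := by
    apply sum_congr rfl; intro x _
    apply sum_congr rfl; intro y _
    by_cases h : x = y
    · subst h; simp
    · simp [h]
  have e2 : ∑ x, (c x x + if x = x ∧ x ∈ D then lam else 0) * (f x * f x) =
      ∑ x, c x x * (f x * f x) + lam * ∑ y ∈ D, f y ^ 2 := by
    simp only [add_mul, sum_add_distrib, true_and, ite_mul, zero_mul, sum_ite_mem, univ_inter,
      mul_sum, sq]
  rw [e1, e2]; ring

/-- `φ` represents the functional `f ↦ ∑_{D} f` on functions vanishing on `T`. -/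
def IsRep (c : V → V → ℝ) (D T : Finset V) (φ : V → ℝ) : Prop :=
  (∀ t ∈ T, φ t = 0) ∧ ∀ f : V → ℝ, (∀ t ∈ T, f t = 0) → En c f φ = ∑ y ∈ D, f y

lemma exists_rep {c : V → V → ℝ} (hs : ∀ x y, c x y = c y x) (hc : ∀ x y, 0 ≤ c x y)
    (T : Finset V) (hF : ∀ T', T ⊆ T' → 0 < FF c T') (D : Finset V) : ∃ φ, IsRep c D T φ := by
  induction D using Finset.induction_on with
  | empty => exact ⟨fun _ => 0, fun _ _ => rfl, fun f _ => by simp [En]⟩
  | insert y D hy ih =>
    obtain ⟨φ, h0, hr⟩ := ih
    by_cases hyT : y ∈ T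
    · refine ⟨φ, h0, fun f hf => ?_⟩
      rw [sum_insert hy, hr f hf, hf y hyT, zero_add]
    · obtain ⟨h, -, hh0, -, -, hhr⟩ := exists_harm hs hc hyT (hF _ (subset_insert _ _))
      have p1 := hF T subset_rfl
      have p2 := hF (insert y T) (subset_insert _ _)
      refine ⟨fun z => 1 * φ z + (FF c (insert y T) / FF c T) * h z, fun t ht => ?_, fun f hf => ?_⟩
      · simp [h0 t ht, hh0 t ht]
      · rw [En_comm, En_lin, En_comm c φ, En_comm c h, hr f hf, hhr f hf, sum_insert hy]
        field_simp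
        ring

section key

variable {c c' : V → V → ℝ} {U D : Finset V} {mu lam : ℝ}

lemma cap_step (hs' : ∀ x y, c' x y = c' y x) (hc' : ∀ x y, 0 ≤ c' x y)
    (hmu : 0 < mu) (hlam : 0 < lam)
    (hP : ∀ f : V → ℝ, ∑ y ∈ D, f y = 0 → mu * ∑ y ∈ D, f y ^ 2 ≤ En c' f f)
    {T : Finset V} {x : V} (hx : x ∉ T) (hF : 0 < FF c' (insert x T))
    (hFl : 0 < FF (kill c' D lam) (insert x T)) {φ : V → ℝ} (hφ : IsRep c' D T φ)
    (hpos : ∀ ψ, IsRep c' D (insert x T) ψ → 0 < ∑ y ∈ D, ψ y) :
    ∃ ψ, IsRep c' D (insert x T) ψ ∧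
      Cd (kill c' D lam) T x * ∑ y ∈ D, ψ y ≤ (1 + lam / mu) * Cd c' T x * ∑ y ∈ D, φ y := by
  obtain ⟨g, g1, g0, -, -, gr⟩ := exists_harm hs' hc' hx hF
  change ∀ f : V → ℝ, _ → En c' f g = f x * Cd c' T x at gr
  set C := Cd c' T x with hC
  set M := ∑ y ∈ D, φ y with hM
  have hmg : ∑ y ∈ D, g y = φ x * C := by
    rw [← hφ.2 g g0, En_comm, gr φ hφ.1]
  have hψ : IsRep c' D (insert x T) (fun z => 1 * φ z + (-φ x) * g z) := by
    refine ⟨fun t ht => ?_, fun f hf => ?_⟩
    · rcases mem_insert.1 ht with rfl | ht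
      · simp [g1]
      · simp [hφ.1 t ht, g0 t ht]
    · have hf' : ∀ t ∈ T, f t = 0 := fun t ht => hf t (mem_insert_of_mem ht)
      rw [En_comm, En_lin, En_comm c' φ, En_comm c' g, hφ.2 f hf', gr f hf',
        hf x (mem_insert_self _ _)]
      ring
  have hM' : ∑ y ∈ D, (1 * φ y + (-φ x) * g y) = M - φ x ^ 2 * C := by
    rw [sum_add_distrib, ← mul_sum, ← mul_sum, hmg]; ring
  have hp := hpos _ hψ
  rw [hM'] at hp
  refine ⟨_, hψ, ?_⟩
  rw [hM']
  have hC0 : 0 ≤ C := div_nonneg (FF_nonneg hc' _) hF.le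
  have hM0 : 0 < M := by nlinarith [mul_nonneg (sq_nonneg (φ x)) hC0]
  set M' := M - φ x ^ 2 * C with hM'def
  have hEφ : En c' φ φ = M := hφ.2 φ hφ.1
  have hEg : En c' g g = C := by rw [gr g g0, g1, one_mul]
  have hEgφ : En c' g φ = φ x * C := by rw [hφ.2 g g0, hmg]
  set f : V → ℝ := fun z => (M / M') * g z + (-(φ x * C) / M') * φ z with hf
  have hfx : f x = 1 := by
    simp only [hf, g1]; field_simp; rw [hM'def]; ring
  have hf0 : ∀ t ∈ T, f t = 0 := fun t ht => by simp [hf, g0 t ht, hφ.1 t ht]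
  have hfm : ∑ y ∈ D, f y = 0 := by
    simp only [hf]
    rw [sum_add_distrib, ← mul_sum, ← mul_sum, hmg, ← hM]; field_simp; ring
  have hEf : En c' f f = C * M / M' := by
    rw [hf, En_quad, hEφ, hEg, hEgφ]
    field_simp
    rw [hM'def]; ring
  have h1 := Cd_le_En (kill_symm hs' D lam) (kill_nonneg hc' D hlam.le) hx hFl hfx hf0
  rw [En_kill] at h1
  have h2 := hP f hfm
  have h3 : lam * ∑ y ∈ D, f y ^ 2 ≤ lam / mu * En c' f f := by
    rw [div_mul_eq_mul_div, le_div_iff₀ hmu]; nlinarith
  have h4 : Cd (kill c' D lam) T x ≤ (1 + lam / mu) * (C * M / M') := by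
    rw [← hEf]; linarith
  calc Cd (kill c' D lam) T x * M' ≤ (1 + lam / mu) * (C * M / M') * M' :=
        mul_le_mul_of_nonneg_right h4 hp.le
    _ = (1 + lam / mu) * C * M := by field_simp

theorem key_ineq (hs : ∀ x y, c x y = c y x) (hc : ∀ x y, 0 ≤ c x y)
    (hs' : ∀ x y, c' x y = c' y x) (hc' : ∀ x y, 0 ≤ c' x y)
    (hcc' : ∀ a ∈ U, ∀ b ∈ U, c' a b ≤ c a b) (hU0 : ∀ a ∈ U, c' a a = 0)
    (hUcl : ∀ a ∈ U, ∀ b ∉ U, c' a b = 0) (hO : ∀ a ∉ U, 0 < c' a a)
    (hconn' : ∀ a ∈ U, ∀ b ∈ U, Relation.ReflTransGen (fun a b => 0 < c' a b) a b)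
    (hconn : ∀ a b, Relation.ReflTransGen (fun a b => 0 < c a b) a b)
    (hD : D ⊆ U) (hmu : 0 < mu) (hlam : 0 < lam)
    (hP : ∀ f : V → ℝ, ∑ y ∈ D, f y = 0 → mu * ∑ y ∈ D, f y ^ 2 ≤ En c' f f)
    {S A J : Finset V} {v : V} {bb : ℝ} (hvS : v ∈ S) (hvD : v ∈ D) (hSU : S ⊆ U) (hSA : S ⊆ A)
    (hJA : J ⊆ A) (hDJ : D ∩ A ⊆ J) (hgate : ∀ a ∈ A, a ∉ J → ∀ b ∉ A, c' a b = 0)
    (hbb : ∑ a ∈ A, ∑ b ∈ Aᶜ, c' a b ≤ bb) (hhalf : 2 * (D ∩ A).card ≤ D.card) :
    FF c S / FF c {v} ≤
      (1 + lam / mu) ^ J.card * (4 * bb) * (FF (kill c' D lam) S / FF (kill c' D lam) ∅) := by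
  set cl := kill c' D lam with hcl
  have hsl : ∀ x y, cl x y = cl y x := kill_symm hs' D lam
  have hcl0 : ∀ x y, 0 ≤ cl x y := kill_nonneg hc' D hlam.le
  have hvU : v ∈ U := hD hvD
  have hvA : v ∈ A := hSA hvS
  have hvJ : v ∈ J := hDJ (mem_inter.2 ⟨hvD, hvA⟩)
  have hFc : ∀ T, v ∈ T → 0 < FF c T := fun T hT =>
    FF_pos hc T fun z => ⟨v, Or.inl hT, hconn z v⟩
  have hFc' : ∀ T, v ∈ T → 0 < FF c' T := fun T hT =>
    FF_pos hc' T fun z => by
      by_cases hz : z ∈ U
      · exact ⟨v, Or.inl hT, hconn' z hz v hvU⟩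
      · exact ⟨z, Or.inr (hO z hz), Relation.ReflTransGen.refl⟩
  have hFl : ∀ T, 0 < FF cl T := fun T =>
    FF_pos hcl0 T fun z => by
      by_cases hz : z ∈ U
      · refine ⟨v, Or.inr ?_, rtg_mono (fun a b h =>
          lt_of_lt_of_le h (le_kill c' D hlam.le a b)) (hconn' z hz v hvU)⟩
        simp [hcl, kill, hvD, hU0 v hvU, hlam]
      · exact ⟨z, Or.inr (lt_of_lt_of_le (hO z hz) (le_kill c' D hlam.le z z)),
          Relation.ReflTransGen.refl⟩
  -- step (i)
  have s1 : FF c S / FF c {v} ≤ FF c' S / FF c' {v} := by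
    have := telescope (c₁ := c) (c₂ := c') {v} S
      (fun T hT => hFc T (hT (mem_singleton_self _)))
      (fun T hT => hFc' T (hT (mem_singleton_self _))) ?_
    · rwa [union_eq_right.2 (singleton_subset_iff.2 hvS)] at this
    intro T x hT hx hxT
    have hvT : v ∈ insert x T := mem_insert_of_mem (hT (mem_singleton_self _))
    apply Cd_le_of hs' hc' hs hc hxT (hFc' _ hvT) (hFc _ hvT)
    intro h h1 h0
    refine ⟨fun z => if z ∈ U then h z else 0, by simp [hSU hx, h1],
      fun t ht => by simp [h0 t ht], En_le_of ?_ ?_⟩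
    · intro a b
      have := mul_nonneg (hc a b) (mul_self_nonneg (h a - h b))
      by_cases ha : a ∈ U <;> by_cases hb : b ∈ U
      · simp only [ha, hb, if_true]
        exact mul_le_mul_of_nonneg_right (hcc' a ha b hb) (mul_self_nonneg _)
      · rw [hUcl a ha b hb]; simpa using this
      · rw [hs', hUcl b hb a ha]; simpa using this
      · simpa [ha, hb] using this
    · intro a
      have := mul_nonneg (hc a a) (mul_self_nonneg (h a))
      by_cases ha : a ∈ U
      · rw [hU0 a ha]; simpa using this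
      · simpa [ha] using this
  -- step (ii)
  have s2 : FF cl A / FF cl S ≤ FF c' A / FF c' S := by
    have := telescope (c₁ := cl) (c₂ := c') S A (fun T _ => hFl T)
      (fun T hT => hFc' T (hT hvS)) ?_
    · rwa [union_eq_right.2 hSA] at this
    intro T x hT _ hxT
    apply Cd_le_of hs' hc' hsl hcl0 hxT (hFc' _ (mem_insert_of_mem (hT hvS))) (hFl _)
    intro h h1 h0
    refine ⟨h, h1, h0, ?_⟩
    rw [hcl, En_kill]
    have : 0 ≤ lam * ∑ y ∈ D, h y ^ 2 := mul_nonneg hlam.le (sum_nonneg fun _ _ => sq_nonneg _)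
    linarith
  -- step (iii)
  have s3 : FF c' A / FF c' J ≤ FF cl A / FF cl J := by
    have := telescope (c₁ := c') (c₂ := cl) J A (fun T hT => hFc' T (hT hvJ))
      (fun T _ => hFl T) ?_
    · rwa [union_eq_right.2 hJA] at this
    intro T x hT hx hxT
    apply Cd_le_of hsl hcl0 hs' hc' hxT (hFl _) (hFc' _ (mem_insert_of_mem (hT hvJ)))
    intro h h1 h0
    refine ⟨fun z => if z ∈ A then h z else 0, by simp [hx, h1],
      fun t ht => by simp [h0 t ht], ?_⟩
    rw [hcl, En_kill]
    have e : ∑ y ∈ D, (if y ∈ A then h y else 0) ^ 2 = 0 := by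
      apply sum_eq_zero
      intro y hy
      by_cases hyA : y ∈ A
      · simp [h0 y (hT (hDJ (mem_inter.2 ⟨hy, hyA⟩)))]
      · simp [hyA]
    rw [e, mul_zero, add_zero]
    apply En_le_of
    · intro a b
      have := mul_nonneg (hc' a b) (mul_self_nonneg (h a - h b))
      by_cases ha : a ∈ A <;> by_cases hb : b ∈ A
      · simp [ha, hb]
      · by_cases haJ : a ∈ J
        · simpa [ha, hb, h0 a (hT haJ)] using this
        · rw [hgate a ha haJ b hb]; simp
      · by_cases hbJ : b ∈ J
        · simpa [ha, hb, h0 b (hT hbJ)] using this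
        · rw [hs', hgate b hb hbJ a ha]; simp
      · simpa [ha, hb] using this
    · intro a
      have := mul_nonneg (hc' a a) (mul_self_nonneg (h a))
      by_cases ha : a ∈ A
      · simp [ha]
      · simpa [ha] using this
  -- lower bound for the representers
  have hN : (0 : ℝ) < D.card := by exact_mod_cast card_pos.2 ⟨v, hvD⟩
  have hlow : ∀ T, T ⊆ A → ∀ ψ, IsRep c' D T ψ →
      (D.card : ℝ) ^ 2 ≤ 4 * bb * ∑ y ∈ D, ψ y ∧ 0 < ∑ y ∈ D, ψ y := by
    intro T hT ψ hψ
    set f : V → ℝ := fun z => if z ∈ U ∧ z ∉ A then 1 else 0 with hf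
    have hf0 : ∀ t ∈ T, f t = 0 := fun t ht => by simp [hf, hT ht]
    have h1 := hψ.2 f hf0
    have h2 := hψ.2 ψ hψ.1
    have h3 := En_cs hc' f ψ
    have h4 : En c' f f ≤ bb := by
      unfold En
      have e2 : ∑ x, c' x x * (f x * f x) = 0 := by
        apply sum_eq_zero; intro x _
        by_cases hx : x ∈ U
        · simp [hU0 x hx]
        · simp [hf, hx]
      have e1 : ∑ x, ∑ y, c' x y * ((f x - f y) * (f x - f y)) ≤
          ∑ x, ∑ y, ((if x ∈ A ∧ y ∈ Aᶜ then c' x y else 0) +
            (if y ∈ A ∧ x ∈ Aᶜ then c' y x else 0)) := by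
        apply sum_le_sum; intro x _
        apply sum_le_sum; intro y _
        have p1 := hc' x y
        have p2 := hs' x y
        by_cases hxU : x ∈ U <;> by_cases hyU : y ∈ U <;> by_cases hxA : x ∈ A <;>
          by_cases hyA : y ∈ A <;> simp [hf, hxU, hyU, hxA, hyA, ← p2, p1]
        · rw [hUcl x hxU y hyU]
        · rw [p2, hUcl y hyU x hxU]
      have e3 : ∑ x, ∑ y, (if x ∈ A ∧ y ∈ Aᶜ then c' x y else 0) =
          ∑ a ∈ A, ∑ b ∈ Aᶜ, c' a b := by
        simp only [ite_and, sum_ite_irrel, sum_ite_mem, univ_inter, sum_const_zero]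
      simp only [sum_add_distrib] at e1
      rw [sum_comm (f := fun x y => if y ∈ A ∧ x ∈ Aᶜ then c' y x else 0), e3] at e1
      rw [e2]; linarith
    have h5 : (D.card : ℝ) ≤ 2 * ∑ y ∈ D, f y := by
      have e : ∑ y ∈ D, f y = (D.card : ℝ) - (D ∩ A).card := by
        have : ∀ y ∈ D, f y = 1 - if y ∈ A then 1 else 0 := by
          intro y hy
          by_cases hyA : y ∈ A <;> simp [hf, hD hy, hyA]
        rw [sum_congr rfl this, sum_sub_distrib, sum_ite_mem]; simp
      have : (2 * (D ∩ A).card : ℝ) ≤ D.card := by exact_mod_cast hhalf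
      rw [e]; linarith
    rw [h1, h2] at h3
    have h6 : 0 ≤ ∑ y ∈ D, ψ y := h2 ▸ En_nonneg hc' ψ
    have h7 : (D.card : ℝ) ^ 2 ≤ 4 * bb * ∑ y ∈ D, ψ y := by
      have : (D.card : ℝ) ^ 2 ≤ (2 * ∑ y ∈ D, f y) ^ 2 := by gcongr
      nlinarith [mul_le_mul_of_nonneg_right h4 h6]
    refine ⟨h7, lt_of_le_of_ne h6 fun h => ?_⟩
    rw [← h] at h7
    nlinarith
  have hρ : 0 < 1 + lam / mu := by positivity
  obtain ⟨φ₀, hφ₀⟩ := exists_rep hs' hc' {v} (fun T hT => hFc' T (hT (mem_singleton_self _))) D
  -- step (iv)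
  have s4 : ∀ B : Finset V, B ⊆ A → v ∉ B → ∃ φ, IsRep c' D (insert v B) φ ∧
      FF c' (insert v B) / FF c' {v} * ∑ y ∈ D, φ y ≤
        (1 + lam / mu) ^ B.card * (∑ y ∈ D, φ₀ y) * (FF cl (insert v B) / FF cl {v}) := by
    intro B
    induction B using Finset.induction_on with
    | empty =>
      intro _ _
      refine ⟨φ₀, by simpa using hφ₀, ?_⟩
      have p1 := hFc' {v} (mem_singleton_self _)
      have p2 := hFl {v}
      simp [div_self p1.ne', div_self p2.ne']
    | insert x B hx ih =>
      intro hB hv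
      have hvB : v ∉ B := fun h => hv (mem_insert_of_mem h)
      have hxv : x ≠ v := fun h => hv (h ▸ mem_insert_self _ _)
      obtain ⟨φ, hφ, hle⟩ := ih ((subset_insert _ _).trans hB) hvB
      have hxT : x ∉ insert v B := by simp [hx, hxv]
      have hsub : insert x (insert v B) ⊆ A := by
        intro w hw
        simp only [mem_insert] at hw
        rcases hw with rfl | rfl | hw
        · exact hB (mem_insert_self _ _)
        · exact hvA
        · exact hB (mem_insert_of_mem hw)
      obtain ⟨ψ, hψ, hst⟩ := cap_step hs' hc' hmu hlam hP hxT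
        (hFc' _ (mem_insert_of_mem (mem_insert_self _ _))) (hFl _) hφ
        (fun ψ hψ => (hlow _ hsub ψ hψ).2)
      rw [insert_comm]
      refine ⟨ψ, hψ, ?_⟩
      rw [card_insert_of_notMem hx]
      unfold Cd at hst
      rw [← hcl] at hst
      have p1 := hFc' {v} (mem_singleton_self _)
      have p2 := hFl {v}
      have p3 := hFc' (insert v B) (mem_insert_self _ _)
      have p4 := hFl (insert v B)
      have p5 := hFc' (insert x (insert v B)) (mem_insert_of_mem (mem_insert_self _ _))
      have p6 := hFl (insert x (insert v B))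
      have e1 : FF c' (insert x (insert v B)) / FF c' {v} * ∑ y ∈ D, ψ y =
          (FF cl (insert v B) / FF cl (insert x (insert v B)) * ∑ y ∈ D, ψ y) *
            (FF c' (insert x (insert v B)) / FF c' {v} *
              (FF cl (insert x (insert v B)) / FF cl (insert v B))) := by
        field_simp
      rw [e1]
      calc _ ≤ ((1 + lam / mu) * (FF c' (insert v B) / FF c' (insert x (insert v B))) *
              ∑ y ∈ D, φ y) * (FF c' (insert x (insert v B)) / FF c' {v} *
              (FF cl (insert x (insert v B)) / FF cl (insert v B))) :=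
            mul_le_mul_of_nonneg_right hst (by positivity)
        _ = (FF c' (insert v B) / FF c' {v} * ∑ y ∈ D, φ y) * ((1 + lam / mu) *
              (FF cl (insert x (insert v B)) / FF cl (insert v B))) := by field_simp
        _ ≤ ((1 + lam / mu) ^ B.card * (∑ y ∈ D, φ₀ y) * (FF cl (insert v B) / FF cl {v})) *
              ((1 + lam / mu) * (FF cl (insert x (insert v B)) / FF cl (insert v B))) :=
            mul_le_mul_of_nonneg_right hle (by positivity)
        _ = _ := by rw [pow_succ]; generalize (1 + lam / mu) = ρ; field_simp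
  have hM0 := (hlow {v} (singleton_subset_iff.2 hvA) φ₀ hφ₀).2
  -- base step
  have s5 : FF cl ∅ / FF cl {v} * ∑ y ∈ D, φ₀ y ≤ (1 + lam / mu) * (D.card : ℝ) ^ 2 := by
    set M := ∑ y ∈ D, φ₀ y with hM
    set f : V → ℝ := fun z => if z ∈ U then 1 - D.card / M * φ₀ z else 0 with hf
    have hfv : f v = 1 := by simp [hf, hvU, hφ₀.1 v (mem_singleton_self _)]
    have hfm : ∑ y ∈ D, f y = 0 := by
      have : ∀ y ∈ D, f y = 1 - D.card / M * φ₀ y := fun y hy => by simp [hf, hD hy]
      rw [sum_congr rfl this, sum_sub_distrib, ← mul_sum, ← hM]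
      simp; field_simp; ring
    have h1 := Cd_le_En hsl hcl0 (notMem_empty v) (hFl _) hfv (by simp)
    rw [hcl, En_kill] at h1
    have h2 := hP f hfm
    have h3 : lam * ∑ y ∈ D, f y ^ 2 ≤ lam / mu * En c' f f := by
      rw [div_mul_eq_mul_div, le_div_iff₀ hmu]; nlinarith
    have h4 : En c' f f ≤ (D.card / M) ^ 2 * M := by
      have e := En_quad c' φ₀ φ₀ (D.card / M) 0
      rw [hφ₀.2 φ₀ hφ₀.1, ← hM] at e
      have : En c' f f ≤ En c' (fun z => D.card / M * φ₀ z + 0 * φ₀ z)
          (fun z => D.card / M * φ₀ z + 0 * φ₀ z) := by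
        apply En_le_of
        · intro a b
          by_cases ha : a ∈ U <;> by_cases hb : b ∈ U
          · simp only [hf, ha, hb, if_true]
            apply le_of_eq; ring
          · rw [hUcl a ha b hb]; simp
          · rw [hs', hUcl b hb a ha]; simp
          · simp only [hf, ha, hb, if_false, sub_zero, mul_zero]
            exact mul_nonneg (hc' a b) (mul_self_nonneg _)
        · intro a
          by_cases ha : a ∈ U
          · rw [hU0 a ha]; simp
          · simp only [hf, ha, if_false, mul_zero]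
            exact mul_nonneg (hc' a a) (mul_self_nonneg _)
      linarith
    have h5 : Cd cl ∅ v ≤ (1 + lam / mu) * ((D.card / M) ^ 2 * M) := by
      have := mul_le_mul_of_nonneg_left h4 hρ.le
      rw [hcl]; linarith
    unfold Cd at h5
    simp only [insert_empty_eq] at h5
    calc _ ≤ (1 + lam / mu) * ((D.card / M) ^ 2 * M) * M := mul_le_mul_of_nonneg_right h5 hM0.le
      _ = _ := by field_simp
  obtain ⟨φ, hφ, s6⟩ := s4 (J.erase v) ((erase_subset _ _).trans hJA) (notMem_erase _ _)
  rw [insert_erase hvJ] at hφ s6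
  obtain ⟨h7, h8⟩ := hlow J hJA φ hφ
  have hcard : J.card = (J.erase v).card + 1 := (card_erase_add_one hvJ).symm
  have p1 := hFc' {v} (mem_singleton_self _)
  have p2 := hFl {v}
  have p3 := hFc' J hvJ
  have p4 := hFl J
  have p5 := hFc' A hvA
  have p6 := hFl A
  have p7 := hFc' S hvS
  have p8 := hFl S
  have p9 := hFl ∅
  have hbb0 : 0 ≤ bb := le_trans (sum_nonneg fun _ _ => sum_nonneg fun _ _ => hc' _ _) hbb
  have s7 : FF c' J / FF c' {v} ≤ (1 + lam / mu) ^ J.card * (4 * bb) * (FF cl J / FF cl ∅) := by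
    apply le_of_mul_le_mul_right _ h8
    refine s6.trans ?_
    rw [hcard, pow_succ]
    calc _ = (1 + lam / mu) ^ (J.erase v).card * (FF cl ∅ / FF cl {v} * ∑ y ∈ D, φ₀ y) *
            (FF cl J / FF cl ∅) := by field_simp
      _ ≤ (1 + lam / mu) ^ (J.erase v).card * ((1 + lam / mu) * (D.card : ℝ) ^ 2) *
            (FF cl J / FF cl ∅) := by gcongr
      _ ≤ (1 + lam / mu) ^ (J.erase v).card * ((1 + lam / mu) * (4 * bb * ∑ y ∈ D, φ y)) *
            (FF cl J / FF cl ∅) := by gcongr
      _ = _ := by ring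
  have s2' : FF c' S / FF c' A ≤ FF cl S / FF cl A := by
    rw [div_le_div_iff₀ (by assumption) (by assumption)] at s2 ⊢; linarith
  calc FF c S / FF c {v} ≤ FF c' S / FF c' {v} := s1
    _ = (FF c' S / FF c' A) * (FF c' A / FF c' J) * (FF c' J / FF c' {v}) := by field_simp
    _ ≤ (FF cl S / FF cl A) * (FF cl A / FF cl J) *
          ((1 + lam / mu) ^ J.card * (4 * bb) * (FF cl J / FF cl ∅)) := by gcongr
    _ = _ := by field_simp

end key

end Pool.Agent.MP_f8cd8e_pr

end MrgPart1

-- ======== part 2: formerly Pool.Agent.MP_f8cd8e_pr.Graphs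
section MrgPart2

/-! Paths as functions on `ℕ`, restricted graphs, clusters. -/

open scoped Classical
open Finset

namespace Pool.Agent.MP_f8cd8e_pr

variable {V : Type}

/-- `p 0, …, p k` is a path of `G`. -/
def PathFn (G : SimpleGraph V) (p : ℕ → V) (k : ℕ) : Prop :=
  Set.InjOn p (Set.Iic k) ∧ ∀ i < k, G.Adj (p i) (p (i + 1))

/-- The graph of pairs whose label lies in `O`. -/
def Gr {Λ : Type} (x : Sym2 V → Λ) (O : Set Λ) : SimpleGraph V where
  Adj a b := a ≠ b ∧ x s(a, b) ∈ O
  symm := ⟨fun a b h => ⟨h.1.symm, by rw [Sym2.eq_swap]; exact h.2⟩⟩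
  loopless := ⟨fun a h => h.1 rfl⟩

/-- The edges of `G` with both ends in `U`. -/
def On (G : SimpleGraph V) (U : Finset V) : SimpleGraph V where
  Adj a b := G.Adj a b ∧ a ∈ U ∧ b ∈ U
  symm := ⟨fun _ _ h => ⟨h.1.symm, h.2.2, h.2.1⟩⟩
  loopless := ⟨fun _ h => h.1.ne rfl⟩

/-- `G` has a path of length `l` starting at `v`. -/
def Arm (G : SimpleGraph V) (v : V) (l : ℕ) : Prop := ∃ p : ℕ → V, p 0 = v ∧ PathFn G p l

noncomputable def Cl [Fintype V] (G : SimpleGraph V) (v : V) : Finset V :=
  univ.filter (G.Reachable v)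

noncomputable def ClS [Fintype V] (G : SimpleGraph V) (J : Finset V) : Finset V :=
  univ.filter (fun y => ∃ j ∈ J, G.Reachable j y)

@[simp] lemma Gr_adj {Λ : Type} (x : Sym2 V → Λ) (O : Set Λ) (a b : V) :
    (Gr x O).Adj a b ↔ a ≠ b ∧ x s(a, b) ∈ O := Iff.rfl

@[simp] lemma On_adj (G : SimpleGraph V) (U : Finset V) (a b : V) :
    (On G U).Adj a b ↔ G.Adj a b ∧ a ∈ U ∧ b ∈ U := Iff.rfl

lemma On_le (G : SimpleGraph V) (U : Finset V) : On G U ≤ G := fun _ _ h => h.1

lemma On_mono {G G' : SimpleGraph V} {U U' : Finset V} (h : G ≤ G') (hU : U ⊆ U') :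
    On G U ≤ On G' U' := fun _ _ h' => ⟨h h'.1, hU h'.2.1, hU h'.2.2⟩

lemma Gr_mono {Λ : Type} (x : Sym2 V → Λ) {O O' : Set Λ} (h : O ⊆ O') : Gr x O ≤ Gr x O' :=
  fun _ _ h' => ⟨h'.1, h h'.2⟩

@[simp] lemma mem_Cl [Fintype V] {G : SimpleGraph V} {v y : V} :
    y ∈ Cl G v ↔ G.Reachable v y := by simp [Cl]

@[simp] lemma mem_ClS [Fintype V] {G : SimpleGraph V} {J : Finset V} {y : V} :
    y ∈ ClS G J ↔ ∃ j ∈ J, G.Reachable j y := by simp [ClS]

lemma self_mem_Cl [Fintype V] (G : SimpleGraph V) (v : V) : v ∈ Cl G v := by simp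

lemma Cl_mono [Fintype V] {G G' : SimpleGraph V} (h : G ≤ G') (v : V) : Cl G v ⊆ Cl G' v :=
  fun _ hy => mem_Cl.2 ((mem_Cl.1 hy).mono h)

lemma Cl_eq_of_mem [Fintype V] {G : SimpleGraph V} {v y : V} (h : y ∈ Cl G v) :
    Cl G y = Cl G v := by
  ext z
  simp only [mem_Cl] at h ⊢
  exact ⟨fun h' => h.trans h', fun h' => h.symm.trans h'⟩

lemma ClS_singleton [Fintype V] (G : SimpleGraph V) (v : V) : ClS G {v} = Cl G v := by
  ext; simp

lemma PathFn.ne {G : SimpleGraph V} {p : ℕ → V} {k i j : ℕ} (h : PathFn G p k) (hi : i ≤ k)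
    (hj : j ≤ k) (hij : i ≠ j) : p i ≠ p j := fun e => hij (h.1 hi hj e)

lemma PathFn.mono {G G' : SimpleGraph V} {p : ℕ → V} {k : ℕ} (h : PathFn G p k) (hG : G ≤ G') :
    PathFn G' p k := ⟨h.1, fun i hi => hG (h.2 i hi)⟩

lemma PathFn.of_adj {G G' : SimpleGraph V} {p : ℕ → V} {k : ℕ} (h : PathFn G p k)
    (hG : ∀ i < k, G'.Adj (p i) (p (i + 1))) : PathFn G' p k := ⟨h.1, hG⟩

lemma PathFn.sub {G : SimpleGraph V} {p : ℕ → V} {k : ℕ} (h : PathFn G p k) (a l : ℕ)
    (hal : a + l ≤ k) : PathFn G (fun i => p (a + i)) l := by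
  refine ⟨fun i hi j hj e => ?_, fun i hi => h.2 (a + i) (by omega)⟩
  simp only [Set.mem_Iic] at hi hj
  have := h.1 (show a + i ≤ k by omega) (show a + j ≤ k by omega) e
  omega

lemma PathFn.trunc {G : SimpleGraph V} {p : ℕ → V} {k : ℕ} (h : PathFn G p k) {l : ℕ}
    (hl : l ≤ k) : PathFn G p l := by
  simpa using h.sub 0 l (by omega)

lemma PathFn.rev {G : SimpleGraph V} {p : ℕ → V} {k : ℕ} (h : PathFn G p k) (a l : ℕ)
    (ha : a ≤ k) (hl : l ≤ a) : PathFn G (fun i => p (a - i)) l := by
  refine ⟨fun i hi j hj e => ?_, fun i hi => ?_⟩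
  · simp only [Set.mem_Iic] at hi hj
    have := h.1 (show a - i ≤ k by omega) (show a - j ≤ k by omega) e
    omega
  · have := (h.2 (a - (i + 1)) (by omega)).symm
    rwa [show a - (i + 1) + 1 = a - i by omega] at this

lemma PathFn.reachable {G : SimpleGraph V} {p : ℕ → V} {k : ℕ} (h : PathFn G p k) {i : ℕ}
    (hi : i ≤ k) : G.Reachable (p 0) (p i) := by
  induction i with
  | zero => rfl
  | succ i ih => exact (ih (by omega)).trans (h.2 i (by omega)).reachable

lemma PathFn.lt_card [Fintype V] {G : SimpleGraph V} {p : ℕ → V} {k : ℕ} (h : PathFn G p k) :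
    k < Fintype.card V := by
  have h1 : ((range (k + 1)).image p).card = k + 1 := by
    rw [card_image_of_injOn, card_range]
    intro i hi j hj e
    simp only [coe_range, Set.mem_Iio] at hi hj
    exact h.1 (show i ≤ k by omega) (show j ≤ k by omega) e
  have := card_le_univ ((range (k + 1)).image p)
  omega

lemma exists_pathFn {G : SimpleGraph V} {u v : V} (h : G.Reachable u v) :
    ∃ p : ℕ → V, p 0 = u ∧ p (G.dist u v) = v ∧ PathFn G p (G.dist u v) := by
  obtain ⟨w, hw, hl⟩ := h.exists_path_of_dist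
  refine ⟨w.getVert, w.getVert_zero, ?_, ?_, ?_⟩
  · rw [← hl]; exact w.getVert_length
  · rw [← hl]; exact hw.getVert_injOn
  · intro i hi; exact w.adj_getVert_succ (by omega)

lemma PathFn.edge_inj {G : SimpleGraph V} {p : ℕ → V} {k i j : ℕ} (h : PathFn G p k)
    (hi : i < k) (hj : j < k) (e : s(p i, p (i + 1)) = s(p j, p (j + 1))) : i = j := by
  rw [Sym2.eq_iff] at e
  rcases e with ⟨e, -⟩ | ⟨e1, e2⟩
  · exact h.1 (show i ≤ k by omega) (show j ≤ k by omega) e
  · have h1 := h.1 (show i ≤ k by omega) (show j + 1 ≤ k by omega) e1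
    have h2 := h.1 (show i + 1 ≤ k by omega) (show j ≤ k by omega) e2
    omega

lemma Arm.mono {G G' : SimpleGraph V} {v : V} {l : ℕ} (h : Arm G v l) (hG : G ≤ G') :
    Arm G' v l := by
  obtain ⟨p, h0, hp⟩ := h
  exact ⟨p, h0, hp.mono hG⟩

/-- A set closed under adjacency contains everything reachable from it. -/
lemma reach_closed {G : SimpleGraph V} {W : Set V} (hW : ∀ a ∈ W, ∀ b, G.Adj a b → b ∈ W)
    {u v : V} (hu : u ∈ W) (h : G.Reachable u v) : v ∈ W := by
  rw [SimpleGraph.reachable_iff_reflTransGen] at h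
  induction h with
  | refl => exact hu
  | tail _ h2 ih => exact hW _ ih _ h2

/-- Reachability inside a set closed under adjacency. -/
lemma reach_On {G : SimpleGraph V} {W : Finset V} (hW : ∀ a ∈ W, ∀ b, G.Adj a b → b ∈ W)
    {u v : V} (hu : u ∈ W) (h : G.Reachable u v) : (On G W).Reachable u v := by
  have : v ∈ {y | y ∈ W ∧ (On G W).Reachable u y} := by
    refine reach_closed ?_ ⟨hu, SimpleGraph.Reachable.refl _⟩ h
    rintro a ⟨ha, hr⟩ b hab
    exact ⟨hW a ha b hab, hr.trans (SimpleGraph.Adj.reachable ⟨hab, ha, hW a ha b hab⟩)⟩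
  exact this.2

end Pool.Agent.MP_f8cd8e_pr

end MrgPart2

-- ======== part 3: formerly Pool.Agent.MP_f8cd8e_pr.Tree
section MrgPart3

/-! Spanning trees versus rooted forests; the ball bound and the high-edge bound. -/

open scoped Classical
open Finset

namespace Pool.Agent.MP_f8cd8e_pr

variable {V : Type} [Fintype V]

noncomputable def trees (V : Type) [Fintype V] : Finset (SimpleGraph V) :=
  univ.filter (fun T => T.IsTree)

noncomputable def tw (φ : Sym2 V → ℝ) (T : SimpleGraph V) : ℝ := ∏ e ∈ T.edgeFinset, φ e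

noncomputable def ZZ (φ : Sym2 V → ℝ) : ℝ := ∑ T ∈ trees V, tw φ T

/-- The network with edge weights `φ` and no killing. -/
noncomputable def net (φ : Sym2 V → ℝ) (a b : V) : ℝ := if a = b then 0 else φ s(a, b)

/-- The graph of a parent function. -/
def TG (g : V → V) : SimpleGraph V where
  Adj a b := a ≠ b ∧ (g a = b ∨ g b = a)
  symm := ⟨fun _ _ h => ⟨h.1.symm, h.2.symm⟩⟩
  loopless := ⟨fun _ h => h.1 rfl⟩

omit [Fintype V] in
lemma net_symm (φ : Sym2 V → ℝ) (a b : V) : net φ a b = net φ b a := by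
  unfold net
  by_cases h : a = b
  · subst h; rfl
  · simp [h, Ne.symm h, Sym2.eq_swap]

omit [Fintype V] in
lemma net_nonneg {φ : Sym2 V → ℝ} (h : ∀ e, 0 ≤ φ e) (a b : V) : 0 ≤ net φ a b := by
  unfold net; split_ifs; exacts [le_rfl, h _]

omit [Fintype V] in
lemma follow_of_path {g : V → V} {p : ℕ → V} {k : ℕ} (hp : PathFn (TG g) p k)
    (hk : g (p k) = p k) : ∀ i < k, g (p i) = p (i + 1) := by
  have : ∀ j, j ≤ k → ∀ i, k - j ≤ i → i < k → g (p i) = p (i + 1) := by
    intro j
    induction j with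
    | zero => intro _ i h1 h2; omega
    | succ j ih =>
      intro hj i h1 h2
      by_cases h3 : k - j ≤ i
      · exact ih (by omega) i h3 h2
      · rcases (hp.2 i h2).2 with h | h
        · exact h
        · exfalso
          by_cases h4 : i + 1 = k
          · rw [h4, hk] at h
            exact hp.ne le_rfl h2.le (by omega) h
          · rw [ih (by omega) (i + 1) (by omega) (by omega)] at h
            exact hp.ne (i := i + 1 + 1) (j := i) (by omega) (by omega) (by omega) h
  exact fun i hi => this k le_rfl i (by omega) hi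

omit [Fintype V] in
lemma iterate_of_follow {g : V → V} {p : ℕ → V} {k : ℕ} (h : ∀ i < k, g (p i) = p (i + 1))
    (hk : g (p k) = p k) (i : ℕ) : g^[i] (p 0) = p (min i k) := by
  induction i with
  | zero => simp
  | succ i ih =>
    rw [Function.iterate_succ_apply', ih]
    by_cases hi : i < k
    · rw [min_eq_left hi.le, min_eq_left (by omega), h i hi]
    · rw [min_eq_right (by omega), min_eq_right (by omega), hk]

/-- Proper forests rooted at `v`. -/
def IsPF (v : V) (g : V → V) : Prop := IsFor {v} g ∧ ∀ x, g x = x → x = v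

omit [Fintype V] in
lemma IsPF.rch {v : V} {g : V → V} (h : IsPF v g) (x : V) : Rch g x v := by
  obtain ⟨t, ht, hr⟩ := h.1.2 x
  rwa [h.2 t ht] at hr

omit [Fintype V] in
lemma IsPF.fix {v : V} {g : V → V} (h : IsPF v g) : g v = v := h.1.1 v (mem_singleton_self _)

omit [Fintype V] in
lemma IsPF.no_two {v : V} {g : V → V} (h : IsPF v g) {x : V} (hx : g (g x) = x) : x = v := by
  have key : ∀ w, Rch g x w → w = x ∨ w = g x := by
    intro w hw
    induction hw with
    | refl => exact Or.inl rfl
    | tail _ h2 ih =>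
      rcases ih with ih | ih
      · right; rw [← h2, ih]
      · left; rw [← h2, ih, hx]
  rcases key v (h.rch x) with e | e
  · exact e.symm
  · rw [← hx, ← e, h.fix]

omit [Fintype V] in
lemma IsPF.connected {v : V} {g : V → V} (h : IsPF v g) : (TG g).Connected := by
  have : ∀ x, (TG g).Reachable x v := by
    intro x
    refine Rch.ind (P := fun x => (TG g).Reachable x v) (SimpleGraph.Reachable.refl _) ?_ (h.rch x)
    intro x _ ih
    by_cases hx : x = g x
    · rwa [hx]
    · exact (SimpleGraph.Adj.reachable (G := TG g) ⟨hx, Or.inl rfl⟩).trans ih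
  have hne : Nonempty V := ⟨v⟩
  exact ⟨fun a b => (this a).trans (this b).symm⟩

lemma IsPF.edgeFinset {v : V} {g : V → V} (h : IsPF v g) :
    (TG g).edgeFinset = ({v}ᶜ : Finset V).image (fun x => s(x, g x)) := by
  ext e
  induction e using Sym2.ind with
  | h a b =>
    simp only [SimpleGraph.mem_edgeFinset, SimpleGraph.mem_edgeSet, mem_image, mem_compl,
      mem_singleton]
    constructor
    · rintro ⟨hab, e | e⟩
      · refine ⟨a, ?_, by rw [e]⟩
        rintro rfl; exact hab (by rw [← e, h.fix])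
      · refine ⟨b, ?_, by rw [e, Sym2.eq_swap]⟩
        rintro rfl; exact hab (by rw [← e, h.fix])
    · rintro ⟨x, hx, e⟩
      have hne : x ≠ g x := fun e => hx (h.2 x e.symm)
      rw [Sym2.eq_iff] at e
      rcases e with ⟨rfl, rfl⟩ | ⟨rfl, rfl⟩
      · exact ⟨hne, Or.inl rfl⟩
      · exact ⟨hne.symm, Or.inr rfl⟩

lemma IsPF.injOn {v : V} {g : V → V} (h : IsPF v g) :
    Set.InjOn (fun x => s(x, g x)) (({v}ᶜ : Finset V) : Set V) := by
  intro x hx y hy e
  simp only [Sym2.eq_iff] at e
  rcases e with ⟨e, -⟩ | ⟨e1, e2⟩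
  · exact e
  · exfalso
    have : g (g x) = x := by rw [e2, ← e1]
    simpa using absurd (h.no_two this) (by simpa using hx)

lemma IsPF.isTree {v : V} {g : V → V} (h : IsPF v g) : (TG g).IsTree := by
  rw [SimpleGraph.isTree_iff_connected_and_card]
  refine ⟨h.connected, ?_⟩
  rw [Nat.card_eq_fintype_card, ← SimpleGraph.edgeFinset_card, h.edgeFinset,
    card_image_of_injOn h.injOn, card_compl, card_singleton, Nat.card_eq_fintype_card]
  have : 0 < Fintype.card V := Fintype.card_pos_iff.2 ⟨v⟩
  omega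

lemma IsPF.tw {v : V} {g : V → V} (h : IsPF v g) (φ : Sym2 V → ℝ) :
    tw φ (TG g) = wt (net φ) {v} g := by
  unfold MP_f8cd8e_pr.tw wt
  rw [h.edgeFinset, prod_image h.injOn]
  apply prod_congr rfl
  intro x hx
  have hne : x ≠ g x := fun e => (by simpa using hx : x ≠ v) (h.2 x e.symm)
  simp [net, hne]

omit [Fintype V] in
lemma IsPF.inj {v : V} {g g' : V → V} (h : IsPF v g) (h' : IsPF v g') (e : TG g = TG g') :
    g = g' := by
  funext x
  refine Rch.ind (P := fun x => g x = g' x) (by rw [h.fix, h'.fix]) ?_ (h.rch x)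
  intro x _ ih
  by_cases hx : x = g x
  · have := h.2 x hx.symm
    subst this; rw [h.fix, h'.fix]
  · have : (TG g').Adj x (g x) := e ▸ (⟨hx, Or.inl rfl⟩ : (TG g).Adj x (g x))
    rcases this.2 with e1 | e1
    · exact e1.symm
    · exfalso
      rw [← ih] at e1
      have := h.no_two e1
      subst this
      exact hx h.fix.symm

lemma exists_PF {T : SimpleGraph V} (hT : T.IsTree) (v : V) : ∃ g, IsPF v g ∧ TG g = T := by
  have hc := hT.connected
  have : ∀ x, ∃ y, (x = v → y = v) ∧ (x ≠ v → T.Adj x y ∧ T.dist y v < T.dist x v) := by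
    intro x
    by_cases hx : x = v
    · exact ⟨v, fun _ => rfl, fun h => absurd hx h⟩
    · obtain ⟨w, hw⟩ := hc.exists_walk_length_eq_dist x v
      cases w with
      | nil => exact absurd rfl hx
      | cons h q =>
        refine ⟨_, fun h => absurd h hx, fun _ => ⟨h, ?_⟩⟩
        have := SimpleGraph.dist_le q
        simp only [SimpleGraph.Walk.length_cons] at hw
        omega
  choose g hg1 hg2 using this
  have hpf : IsPF v g := by
    refine ⟨⟨fun x hx => ?_, fun x => ⟨v, hg1 v rfl, ?_⟩⟩, fun x hx => ?_⟩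
    · rw [mem_singleton.1 hx]; exact hg1 v rfl
    · induction hd : T.dist x v using Nat.strong_induction_on generalizing x with
      | _ d ih =>
        by_cases hx : x = v
        · rw [hx]; exact Rch.refl _ _
        · exact Rch.head (ih _ (hd ▸ (hg2 x hx).2) _ rfl)
    · by_contra hne
      exact (hg2 x hne).1.ne hx.symm
  refine ⟨g, hpf, ?_⟩
  have hle : TG g ≤ T := by
    rintro a b ⟨hab, e | e⟩
    · have : a ≠ v := by rintro rfl; exact hab (by rw [← e, hpf.fix])
      rw [← e]; exact (hg2 a this).1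
    · have : b ≠ v := by rintro rfl; exact hab (by rw [← e, hpf.fix])
      rw [← e]; exact (hg2 b this).1.symm
  have h1 := hpf.isTree.card_edgeFinset
  have h2 := hT.card_edgeFinset
  rw [← SimpleGraph.edgeFinset_inj]
  exact eq_of_subset_of_card_le (SimpleGraph.edgeFinset_mono hle) (by omega)

theorem tree_sum (φ : Sym2 V → ℝ) (v : V) (Ψ : SimpleGraph V → ℝ) :
    ∑ T ∈ trees V, tw φ T * Ψ T = ∑ g ∈ fors {v}, wt (net φ) {v} g * Ψ (TG g) := by
  have e1 : ∑ g ∈ fors {v}, wt (net φ) {v} g * Ψ (TG g) =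
      ∑ g ∈ univ.filter (IsPF v), wt (net φ) {v} g * Ψ (TG g) := by
    symm
    apply sum_subset
    · intro g hg
      simp only [fors, mem_filter, mem_univ, true_and] at hg ⊢
      exact hg.1
    · intro g hg hn
      simp only [fors, mem_filter, mem_univ, true_and, IsPF] at hg hn
      have : ∃ x, g x = x ∧ x ≠ v := by
        by_contra h
        push Not at h
        exact hn ⟨hg, h⟩
      obtain ⟨x, hx, hxv⟩ := this
      have : wt (net φ) {v} g = 0 :=
        prod_eq_zero (i := x) (by simpa using hxv) (by simp [net, hx])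
      rw [this, zero_mul]
  rw [e1]
  symm
  refine sum_bij (fun g _ => TG g) ?_ ?_ ?_ ?_
  · intro g hg
    simp only [trees, mem_filter, mem_univ, true_and] at hg ⊢
    exact hg.isTree
  · intro g hg g' hg' e
    simp only [mem_filter, mem_univ, true_and] at hg hg'
    exact hg.inj hg' e
  · intro T hT
    simp only [trees, mem_filter, mem_univ, true_and] at hT
    obtain ⟨g, hg, e⟩ := exists_PF hT v
    exact ⟨g, by simpa using hg, e⟩
  · intro g hg
    simp only [mem_filter, mem_univ, true_and] at hg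
    rw [hg.tw]

lemma ZZ_eq (φ : Sym2 V → ℝ) (v : V) : ZZ φ = FF (net φ) {v} := by
  simpa [ZZ, FF] using tree_sum φ v (fun _ => 1)

omit [Fintype V] in
lemma net_conn {φ : Sym2 V → ℝ} (h : ∀ e, 0 < φ e) (a b : V) :
    Relation.ReflTransGen (fun a b => 0 < net φ a b) a b := by
  by_cases hab : a = b
  · rw [hab]
  · exact Relation.ReflTransGen.single (by simp [net, hab, h])

lemma FF_net_pos {φ : Sym2 V → ℝ} (h : ∀ e, 0 < φ e) {T : Finset V} {v : V} (hv : v ∈ T) :
    0 < FF (net φ) T :=
  FF_pos (net_nonneg fun e => (h e).le) T fun z => ⟨v, Or.inl hv, net_conn h z v⟩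

lemma tw_nonneg {φ : Sym2 V → ℝ} (h : ∀ e, 0 ≤ φ e) (T : SimpleGraph V) : 0 ≤ tw φ T :=
  prod_nonneg fun _ _ => h _

/-- The tree path from `u` to `v` traverses `a → b` with probability at most
`c a b` times a resistance bound. -/
theorem high_edge {φ : Sym2 V → ℝ} (hφ : ∀ e, 0 < φ e) (u v a b : V) {R : ℝ} (hR0 : 0 ≤ R)
    (hR : ∀ f : V → ℝ, (f u - f v) ^ 2 ≤ R * En (net φ) f f) :
    ∑ T ∈ trees V, tw φ T * (if ∃ p k i, PathFn T p k ∧ p 0 = u ∧ p k = v ∧ i < k ∧ p i = a ∧
      p (i + 1) = b then 1 else 0) ≤ net φ a b * R * ZZ φ := by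
  have hc := net_nonneg fun e => (hφ e).le
  have hs := net_symm φ
  have hZ : 0 < FF (net φ) {v} := FF_net_pos hφ (mem_singleton_self _)
  rw [tree_sum φ v, ZZ_eq φ v]
  by_cases hav : a = v
  · rw [sum_eq_zero]
    · exact mul_nonneg (mul_nonneg (hc _ _) hR0) hZ.le
    · intro g _
      rw [if_neg, mul_zero]
      rintro ⟨p, k, i, hp, -, h2, h3, h4, -⟩
      exact hp.ne h3.le le_rfl h3.ne (by rw [h4, h2, hav])
  by_cases huv : u = v
  · rw [sum_eq_zero]
    · exact mul_nonneg (mul_nonneg (hc _ _) hR0) hZ.le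
    · intro g _
      rw [if_neg, mul_zero]
      rintro ⟨p, k, i, hp, h1, h2, h3, -, -⟩
      exact hp.ne (Nat.zero_le k) le_rfl (by omega) (by rw [h1, h2, huv])
  have ha : a ∉ ({v} : Finset V) := by simpa using hav
  have hu : u ∉ ({v} : Finset V) := by simpa using huv
  have hFa : 0 < FF (net φ) (insert a {v}) :=
    FF_net_pos hφ (mem_insert_of_mem (mem_singleton_self _))
  have hFu : 0 < FF (net φ) (insert u {v}) :=
    FF_net_pos hφ (mem_insert_of_mem (mem_singleton_self _))
  have s1 : ∑ g ∈ fors {v}, wt (net φ) {v} g * (if ∃ p k i, PathFn (TG g) p k ∧ p 0 = u ∧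
      p k = v ∧ i < k ∧ p i = a ∧ p (i + 1) = b then 1 else 0) ≤
      ∑ g ∈ fors {v}, wt (net φ) {v} g * (if g a = b ∧ Rch g u a then 1 else 0) := by
    apply sum_le_sum
    intro g hg
    simp only [fors, mem_filter, mem_univ, true_and] at hg
    apply mul_le_mul_of_nonneg_left _ (wt_nonneg hc _ _)
    split_ifs with h1 h2
    · exact le_rfl
    · exfalso
      obtain ⟨p, k, i, hp, h0, hk, hi, hia, hib⟩ := h1
      have hfix : g (p k) = p k := by rw [hk]; exact hg.1 v (mem_singleton_self _)
      have hf := follow_of_path hp hfix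
      apply h2
      refine ⟨by rw [← hia, ← hib]; exact hf i hi, ?_⟩
      have := Rch.iterate g (p 0) i
      rwa [iterate_of_follow hf hfix, min_eq_left hi.le, h0, hia] at this
    · norm_num
    · exact le_rfl
  have s2 : ∑ g ∈ fors {v}, wt (net φ) {v} g * (if g a = b ∧ Rch g u a then 1 else 0) ≤
      net φ a b * NN (net φ) (insert a {v}) a u := by
    rw [split_sum _ ha, NN, mul_sum]
    apply sum_le_sum
    intro g _
    have hw := wt_nonneg hc (insert a {v}) g
    rw [sum_eq_single b]
    · have := hc a b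
      by_cases h : Rch g u a
      · simp only [h, if_true, mul_one]
        split_ifs <;> nlinarith [mul_nonneg this hw]
      · have : ¬ Rch (Function.update g a b) u a := fun h' => h h'.of_update_self
        simp [h, this]
    · intro z _ hz
      simp [hz]
    · simp
  obtain ⟨h, h1, h0, hb, hN, hr⟩ := exists_harm hs hc ha hFa
  obtain ⟨h', h1', h0', hb', -, hr'⟩ := exists_harm hs hc hu hFu
  have e1 := hr h' h0'
  have e2 := hr' h h0
  rw [En_comm, e2] at e1
  have e3 := hR h'
  rw [hr' h' h0', h1', h0' v (mem_singleton_self _)] at e3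
  refine s1.trans (s2.trans ?_)
  rw [mul_assoc]
  apply mul_le_mul_of_nonneg_left _ (hc a b)
  rw [hN]
  set Cu := FF (net φ) {v} / FF (net φ) (insert u {v})
  have hCu : 0 < Cu := div_pos hZ hFu
  have e4 : h u * Cu * FF (net φ) (insert a {v}) ≤ FF (net φ) {v} := by
    rw [e1, mul_assoc, div_mul_cancel₀ _ hFa.ne']
    nlinarith [(hb' a).2]
  have e5 : 0 ≤ FF (net φ) (insert a {v}) * h u := mul_nonneg hFa.le (hb u).1
  nlinarith [mul_le_mul_of_nonneg_left e4 hR0, mul_le_mul_of_nonneg_left e3 e5]

/-- Expected number of marked vertices within tree distance `r`, along paths of `H`. -/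
theorem ball_bound {φ : Sym2 V → ℝ} (hφ : ∀ e, 0 < φ e) {cl : V → V → ℝ}
    (hcl : ∀ x y, 0 ≤ cl x y) (hFl : 0 < FF cl ∅) (H : SimpleGraph V)
    (hH : ∀ a b, H.Adj a b → cl a b = net φ a b) (D : Finset V) {lam K : ℝ} (hlam : 0 < lam)
    (hK0 : 0 ≤ K) (hD : ∀ v ∈ D, lam ≤ cl v v) (u : V) (r : ℕ)
    (hK : ∀ p k, k ≤ r → p 0 = u → p k ∈ D → PathFn H p k →
      FF (net φ) ({p k} ∪ (range k).image p) / FF (net φ) {p k} ≤
        K * (FF cl ({p k} ∪ (range k).image p) / FF cl ∅)) :
    ∑ v ∈ D, ∑ T ∈ trees V, tw φ T * (if ∃ p k, k ≤ r ∧ p 0 = u ∧ p k = v ∧ PathFn T p k ∧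
      PathFn H p k then 1 else 0) ≤ K / lam * ZZ φ := by
  have hc := net_nonneg fun e => (hφ e).le
  have hZ : 0 < ZZ φ := by rw [ZZ_eq φ u]; exact FF_net_pos hφ (mem_singleton_self _)
  set q : (V → V) → (Fin (r + 1) → V) := fun g i => g^[i] u with hq
  set E : V → (V → V) → Prop := fun v g => ∃ p k, k ≤ r ∧ p 0 = u ∧ p k = v ∧
    PathFn (TG g) p k ∧ PathFn H p k with hE
  have e1 : ∀ v, ∑ T ∈ trees V, tw φ T * (if ∃ p k, k ≤ r ∧ p 0 = u ∧ p k = v ∧ PathFn T p k ∧
      PathFn H p k then 1 else 0) = ∑ a : Fin (r + 1) → V, ∑ g ∈ fors {v},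
        wt (net φ) {v} g * (if E v g ∧ q g = a then 1 else 0) := by
    intro v
    rw [tree_sum φ v, sum_comm]
    apply sum_congr rfl
    intro g _
    rw [← mul_sum]
    congr 1
    by_cases h : E v g
    · rw [if_pos h]; simp [h]
    · rw [if_neg h]; simp [h]
  have e2 : K / lam * ZZ φ = ∑ a : Fin (r + 1) → V, K / lam * ZZ φ / FF cl ∅ *
      ∑ g ∈ fors ∅, wt cl ∅ g * (if q g = a then 1 else 0) := by
    rw [← mul_sum, sum_comm]
    have : ∑ g ∈ fors ∅, ∑ a : Fin (r + 1) → V, wt cl ∅ g * (if q g = a then 1 else 0) =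
        FF cl ∅ := by
      unfold FF
      apply sum_congr rfl
      intro g _
      rw [← mul_sum]; simp
    rw [this]; field_simp
  simp only [e1]
  rw [e2, sum_comm]
  apply sum_le_sum
  intro a _
  have hpath : ∀ v g, g ∈ fors {v} → E v g → q g = a → ∃ p k, k ≤ r ∧ p 0 = u ∧ p k = v ∧
      PathFn H p k ∧ ∀ i : Fin (r + 1), a i = p (min i k) := by
    intro v g hg ⟨p, k, hk, h0, hv, hp, hp'⟩ ha
    simp only [fors, mem_filter, mem_univ, true_and] at hg
    have hfix : g (p k) = p k := by rw [hv]; exact hg.1 v (mem_singleton_self _)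
    refine ⟨p, k, hk, h0, hv, hp', fun i => ?_⟩
    rw [← ha, ← iterate_of_follow (follow_of_path hp hfix) hfix, h0]
  by_cases hex : ∃ v ∈ D, ∃ g ∈ fors {v}, E v g ∧ q g = a
  · obtain ⟨v, hvD, g₀, hg₀, hE₀, hq₀⟩ := hex
    obtain ⟨p, k, hk, h0, hv, hp, ha⟩ := hpath v g₀ hg₀ hE₀ hq₀
    have hlast : a (Fin.last r) = v := by rw [ha, Fin.val_last, min_eq_right hk, hv]
    rw [sum_eq_single v]
    · have hT : ∀ i < k, p i ∉ ({v} : Finset V) := fun i hi => by
        rw [mem_singleton, ← hv]; exact hp.ne hi.le le_rfl hi.ne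
      have hk' : p k ∈ ({v} : Finset V) := by simp [hv]
      have f1 := sum_follow (net φ) p k {v} hp.1 hT hk'
      have f2 := sum_follow cl p k {v} hp.1 hT hk'
      have f3 := sum_step cl (notMem_empty v) (Or.inl rfl)
        (fun g => if ∀ i < k, g (p i) = p (i + 1) then 1 else 0)
      have f4 : ∀ g : V → V, (∀ i < k, Function.update g v v (p i) = p (i + 1)) ↔
          ∀ i < k, g (p i) = p (i + 1) := by
        intro g
        apply forall_congr'; intro i
        apply forall_congr'; intro hi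
        rw [Function.update_of_ne (by simpa using hT i hi)]
      simp only [f4, insert_empty_eq] at f3
      rw [f2] at f3
      have f5 : ∏ i ∈ range k, cl (p i) (p (i + 1)) = ∏ i ∈ range k, net φ (p i) (p (i + 1)) :=
        prod_congr rfl fun i hi => hH _ _ (hp.2 i (mem_range.1 hi))
      rw [f5] at f3
      have f6 := hK p k hk h0 (hv ▸ hvD) hp
      rw [hv, ← ZZ_eq] at f6
      set P := ∏ i ∈ range k, net φ (p i) (p (i + 1))
      have hP : 0 ≤ P := prod_nonneg fun _ _ => hc _ _
      have hFS := FF_nonneg hcl ({v} ∪ (range k).image p)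
      have l1 : ∑ g ∈ fors {v}, wt (net φ) {v} g * (if E v g ∧ q g = a then 1 else 0) ≤
          P * FF (net φ) ({v} ∪ (range k).image p) := by
        rw [← f1]
        apply sum_le_sum
        intro g _
        apply mul_le_mul_of_nonneg_left _ (wt_nonneg hc _ _)
        split_ifs with h1 h2
        · exact le_rfl
        · exfalso
          apply h2
          intro i hi
          have ha' : ∀ j ≤ r, g^[j] u = p (min j k) := fun j hj => by
            rw [← ha ⟨j, Nat.lt_succ_of_le hj⟩, ← h1.2]
          have a1 := ha' i (by omega)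
          have a2 := ha' (i + 1) (by omega)
          rw [min_eq_left hi.le] at a1
          rw [min_eq_left (by omega), Function.iterate_succ_apply', a1] at a2
          exact a2
        · norm_num
        · exact le_rfl
      have l2 : lam * (P * FF cl ({v} ∪ (range k).image p)) ≤
          ∑ g ∈ fors ∅, wt cl ∅ g * (if q g = a then 1 else 0) := by
        refine (mul_le_mul_of_nonneg_right (hD v hvD) (mul_nonneg hP hFS)).trans ?_
        rw [← f3]
        apply sum_le_sum
        intro g _
        apply mul_le_mul_of_nonneg_left _ (wt_nonneg hcl _ _)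
        by_cases h1 : g v = v
        · by_cases h2 : ∀ i < k, g (p i) = p (i + 1)
          · have : q g = a := by
              funext i
              rw [ha, ← iterate_of_follow h2 (by rw [hv, h1]), h0]
            simp [this]
            split_ifs <;> norm_num
          · rw [if_neg h2, mul_zero]; split_ifs <;> norm_num
        · rw [if_neg h1, zero_mul]; split_ifs <;> norm_num
      refine l1.trans ?_
      rw [div_le_iff₀ hZ] at f6
      calc P * FF (net φ) ({v} ∪ (range k).image p)
          ≤ P * (K * (FF cl ({v} ∪ (range k).image p) / FF cl ∅) * ZZ φ) :=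
            mul_le_mul_of_nonneg_left f6 hP
        _ = K / lam * ZZ φ / FF cl ∅ * (lam * (P * FF cl ({v} ∪ (range k).image p))) := by
            field_simp
        _ ≤ _ := mul_le_mul_of_nonneg_left l2 (by positivity)
    · intro v' _ hv'
      apply sum_eq_zero
      intro g hg
      rw [if_neg, mul_zero]
      rintro ⟨h1, h2⟩
      obtain ⟨p', k', hk', -, hv'', -, ha'⟩ := hpath v' g hg h1 h2
      apply hv'
      rw [← hlast, ha', Fin.val_last, min_eq_right hk', hv'']
    · intro h; exact absurd hvD h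
  · rw [sum_eq_zero]
    · apply mul_nonneg (by positivity)
      exact sum_nonneg fun g _ => mul_nonneg (wt_nonneg hcl _ _) (by split_ifs <;> norm_num)
    · intro v hv
      apply sum_eq_zero
      intro g hg
      rw [if_neg, mul_zero]
      intro h
      exact hex ⟨v, hv, g, hg, h⟩

/-- Cauchy–Schwarz along a path. -/
lemma path_energy {c : V → V → ℝ} (hc : ∀ x y, 0 ≤ c x y) {G : SimpleGraph V} {p : ℕ → V} {k : ℕ}
    (hp : PathFn G p k) (hpos : ∀ i < k, 0 < c (p i) (p (i + 1))) {K : Finset V}
    (hK : ∀ i < k, p i ∈ K) (f : V → ℝ) :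
    (f (p 0) - f (p k)) ^ 2 ≤ (∑ i ∈ range k, 1 / c (p i) (p (i + 1))) *
      ∑ a ∈ K, ∑ b, c a b * (f a - f b) ^ 2 := by
  have e1 : f (p 0) - f (p k) = ∑ i ∈ range k, (f (p i) - f (p (i + 1))) := by
    rw [sum_range_sub']
  have e2 : (∑ i ∈ range k, (f (p i) - f (p (i + 1)))) ^ 2 ≤
      (∑ i ∈ range k, 1 / c (p i) (p (i + 1))) *
        ∑ i ∈ range k, c (p i) (p (i + 1)) * (f (p i) - f (p (i + 1))) ^ 2 := by
    apply sum_sq_le_sum_mul_sum_of_sq_le_mul
    · intro i hi; exact (one_div_pos.2 (hpos i (mem_range.1 hi))).le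
    · intro i _; exact mul_nonneg (hc _ _) (sq_nonneg _)
    · intro i hi
      have := hpos i (mem_range.1 hi)
      apply le_of_eq
      field_simp
  rw [e1]
  refine e2.trans (mul_le_mul_of_nonneg_left ?_
    (sum_nonneg fun i hi => (one_div_pos.2 (hpos i (mem_range.1 hi))).le))
  have hinj : Set.InjOn p (range k : Finset ℕ) := fun i hi j hj e => by
    simp only [coe_range, Set.mem_Iio] at hi hj
    exact hp.1 (show i ≤ k by omega) (show j ≤ k by omega) e
  calc _ ≤ ∑ i ∈ range k, ∑ b, c (p i) b * (f (p i) - f b) ^ 2 := by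
        apply sum_le_sum
        intro i _
        exact single_le_sum (f := fun b => c (p i) b * (f (p i) - f b) ^ 2)
          (fun b _ => mul_nonneg (hc _ _) (sq_nonneg _)) (mem_univ _)
    _ = ∑ a ∈ (range k).image p, ∑ b, c a b * (f a - f b) ^ 2 := by
        rw [sum_image hinj]
    _ ≤ _ := by
        apply sum_le_sum_of_subset_of_nonneg
        · intro a ha
          obtain ⟨i, hi, rfl⟩ := mem_image.1 ha
          exact hK i (mem_range.1 hi)
        · intro a _ _
          exact sum_nonneg fun b _ => mul_nonneg (hc _ _) (sq_nonneg _)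

lemma sum_le_two_En {c : V → V → ℝ} (hc : ∀ x y, 0 ≤ c x y) (f : V → ℝ) :
    ∑ a, ∑ b, c a b * (f a - f b) ^ 2 ≤ 2 * En c f f := by
  unfold En
  have h2 : 0 ≤ ∑ x, c x x * (f x * f x) :=
    sum_nonneg fun x _ => mul_nonneg (hc _ _) (mul_self_nonneg _)
  simp only [sq]
  linarith

end Pool.Agent.MP_f8cd8e_pr

end MrgPart3

-- marker of a merged file
example : 731051 + 277797 = 731051 + 277797 := rfl
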