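import Mathlib.Tactic.Monotonicity.Lemmas
import Mathlib.Data.Int.Star
import Mathlib.Algebra.Order.Ring.Star
import Mathlib.Analysis.Convex.SpecificFunctions.Basic
import Mathlib.Algebra.Ring.IsFormallyReal
import Mathlib.Analysis.Complex.ExponentialBounds
import Pool.Agent.MP_f8cd8e_pr.Tree

-- ======== part 0: formerly Pool.Agent.MP_f8cd8e_pr.Cheeger
section MrgPart0

/-! Cheeger's inequality and the Poincare inequality for a block structure. -/

open scoped Classical
open Finset

namespace Pool.Agent.MP_f8cd8e_pr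

section cheeger

variable {ι : Type} [Fintype ι] {a : ι → ι → ℝ} {h dmax : ℝ}

lemma coarea (hs : ∀ i k, a i k = a k i)
    (hexp : ∀ A : Finset ι, 2 * A.card ≤ Fintype.card ι →
      h * A.card ≤ ∑ i ∈ A, ∑ k ∈ Aᶜ, a i k)
    (G : ι → ℝ) (hG : ∀ i, 0 ≤ G i)
    (hsupp : 2 * (univ.filter (fun i => G i ≠ 0)).card ≤ Fintype.card ι) :
    2 * h * ∑ i, G i ≤ ∑ i, ∑ k, a i k * |G i - G k| := by
  induction hn : (univ.filter (fun i => G i ≠ 0)).card using Nat.strong_induction_on
    generalizing G with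
  | _ n ih =>
    set A := univ.filter (fun i => G i ≠ 0) with hA
    by_cases hne : A.Nonempty
    · obtain ⟨i₀, hi₀, hmin⟩ := exists_min_image A G hne
      set m := G i₀
      set G' : ι → ℝ := fun i => if i ∈ A then G i - m else 0 with hG'
      have hz : ∀ i, i ∉ A → G i = 0 := fun i hi => by simpa [hA] using hi
      have hm : 0 ≤ m := hG _
      have hsub : univ.filter (fun i => G' i ≠ 0) ⊆ A.erase i₀ := by
        intro i hi
        simp only [mem_filter, mem_univ, true_and, hG'] at hi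
        rw [mem_erase]
        by_cases hiA : i ∈ A
        · refine ⟨?_, hiA⟩
          rintro rfl; simp [hiA, m] at hi
        · simp [hiA] at hi
      have hlt : (univ.filter (fun i => G' i ≠ 0)).card < n := by
        have := card_le_card hsub
        rw [card_erase_of_mem hi₀] at this
        have := card_pos.2 hne
        omega
      have h1 := ih _ hlt G' (fun i => by
        simp only [hG']; split_ifs with hi
        · linarith [hmin i hi]
        · exact le_rfl) (by omega) rfl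
      have h2 := hexp A hsupp
      have e1 : ∑ i, G i = ∑ i, G' i + m * A.card := by
        have : ∀ i, G i = G' i + if i ∈ A then m else 0 := by
          intro i; simp only [hG']; split_ifs with hi
          · ring
          · simp [hz i hi]
        rw [sum_congr rfl fun i _ => this i, sum_add_distrib, sum_ite_mem]
        simp [mul_comm]
      have e2 : ∑ i, ∑ k, a i k * |G i - G k| = ∑ i, ∑ k, a i k * |G' i - G' k| +
          m * (∑ i, ∑ k, (if i ∈ A ∧ k ∈ Aᶜ then a i k else 0) +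
            ∑ i, ∑ k, (if k ∈ A ∧ i ∈ Aᶜ then a k i else 0)) := by
        simp only [mul_add, mul_sum, ← sum_add_distrib]
        apply sum_congr rfl; intro i _
        apply sum_congr rfl; intro k _
        by_cases hi : i ∈ A <;> by_cases hk : k ∈ A
        · simp [hG', hi, hk]
        · have := hmin i hi
          simp only [hG', hi, hk, hz k hk, if_true, if_false, sub_zero, mem_compl,
            not_false_eq_true, and_self, false_and, mul_zero, add_zero]
          rw [abs_of_nonneg (hG i), abs_of_nonneg (by linarith)]; ring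
        · have := hmin k hk
          simp only [hG', hi, hk, hz i hi, if_true, if_false, zero_sub, mem_compl,
            not_false_eq_true, and_self, false_and, mul_zero, zero_add, abs_neg, hs k i]
          rw [abs_of_nonneg (hG k), abs_of_nonneg (by linarith)]; ring
        · simp [hG', hi, hk, hz i hi, hz k hk]
      have e3 : ∑ i, ∑ k, (if i ∈ A ∧ k ∈ Aᶜ then a i k else 0) = ∑ i ∈ A, ∑ k ∈ Aᶜ, a i k := by
        simp only [ite_and, sum_ite_irrel, sum_ite_mem, univ_inter, sum_const_zero]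
      rw [sum_comm (f := fun i k => if k ∈ A ∧ i ∈ Aᶜ then a k i else 0), e3] at e2
      rw [e1, e2]
      nlinarith [mul_le_mul_of_nonneg_left h2 hm]
    · have hz : ∀ i, G i = 0 := fun i => by
        by_contra hi
        exact hne ⟨i, by simpa [hA] using hi⟩
      simp [hz]

lemma cheeger_pos (ha : ∀ i k, 0 ≤ a i k) (hs : ∀ i k, a i k = a k i) (hh : 0 ≤ h)
    (hd : ∀ i, ∑ k, a i k ≤ dmax)
    (hexp : ∀ A : Finset ι, 2 * A.card ≤ Fintype.card ι →
      h * A.card ≤ ∑ i ∈ A, ∑ k ∈ Aᶜ, a i k)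
    (f : ι → ℝ) (hf : ∀ i, 0 ≤ f i)
    (hsupp : 2 * (univ.filter (fun i => f i ≠ 0)).card ≤ Fintype.card ι) :
    h ^ 2 * ∑ i, f i ^ 2 ≤ dmax * ∑ i, ∑ k, a i k * (f i - f k) ^ 2 := by
  have h1 := coarea hs hexp (fun i => f i ^ 2) (fun i => sq_nonneg _) (by simpa using hsupp)
  set S := ∑ i, f i ^ 2 with hS
  set Q := ∑ i, ∑ k, a i k * (f i - f k) ^ 2 with hQ
  have hS0 : 0 ≤ S := sum_nonneg fun _ _ => sq_nonneg _
  have hQ0 : 0 ≤ Q := sum_nonneg fun _ _ => sum_nonneg fun _ _ => mul_nonneg (ha _ _) (sq_nonneg _)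
  have h2 : (∑ i, ∑ k, a i k * |f i ^ 2 - f k ^ 2|) ^ 2 ≤
      Q * ∑ i, ∑ k, a i k * (f i + f k) ^ 2 := by
    simp only [hQ, ← sum_product', univ_product_univ]
    apply sum_sq_le_sum_mul_sum_of_sq_le_mul
    · intro p _; exact mul_nonneg (ha _ _) (sq_nonneg _)
    · intro p _; exact mul_nonneg (ha _ _) (sq_nonneg _)
    · intro p _
      apply le_of_eq
      rw [mul_pow, sq_abs]; ring
  have h3 : ∑ i, ∑ k, a i k * (f i + f k) ^ 2 ≤ 4 * dmax * S := by
    have e1 : ∑ i, ∑ k, a i k * (f i + f k) ^ 2 ≤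
        ∑ i, ∑ k, (2 * (a i k * f i ^ 2) + 2 * (a k i * f k ^ 2)) := by
      apply sum_le_sum; intro i _
      apply sum_le_sum; intro k _
      rw [hs k i]
      nlinarith [mul_nonneg (ha i k) (sq_nonneg (f i - f k))]
    have e2 : ∑ i, ∑ k, a i k * f i ^ 2 ≤ dmax * S := by
      rw [hS, mul_sum]
      apply sum_le_sum; intro i _
      rw [← sum_mul]
      exact mul_le_mul_of_nonneg_right (hd i) (sq_nonneg _)
    simp only [sum_add_distrib, ← mul_sum] at e1
    rw [sum_comm (f := fun i k => a k i * f k ^ 2)] at e1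
    linarith
  have h4 : (2 * h * S) ^ 2 ≤ Q * (4 * dmax * S) :=
    le_trans (pow_le_pow_left₀ (by positivity) h1 2)
      (h2.trans (mul_le_mul_of_nonneg_left h3 hQ0))
  rcases hS0.eq_or_lt with h0 | h0
  · rw [← h0, mul_zero]
    rcases isEmpty_or_nonempty ι with hι | ⟨⟨i⟩⟩
    · simp [hQ]
    · exact mul_nonneg (le_trans (sum_nonneg fun k _ => ha i k) (hd i)) hQ0
  · have : S * (h ^ 2 * S) ≤ S * (dmax * Q) := by nlinarith
    exact le_of_mul_le_mul_left this h0

lemma exists_median (g : ι → ℝ) : ∃ m : ℝ,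
    2 * (univ.filter (fun i => m < g i)).card ≤ Fintype.card ι ∧
    2 * (univ.filter (fun i => g i < m)).card ≤ Fintype.card ι := by
  rcases isEmpty_or_nonempty ι with hι | hι
  · exact ⟨0, by simp, by simp⟩
  set S := univ.filter (fun j => 2 * (univ.filter (fun i => g j < g i)).card ≤ Fintype.card ι)
  have hne : S.Nonempty := by
    obtain ⟨j, -, hj⟩ := exists_max_image univ g univ_nonempty
    refine ⟨j, ?_⟩
    simp only [S, mem_filter, mem_univ, true_and]
    rw [filter_eq_empty_iff.2 fun i _ => not_lt.2 (hj i (mem_univ _))]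
    simp
  obtain ⟨j, hj, hmin⟩ := exists_min_image S g hne
  refine ⟨g j, by simpa [S] using hj, ?_⟩
  by_contra hcon
  have hne' : (univ.filter (fun i => g i < g j)).Nonempty := card_pos.1 (by omega)
  obtain ⟨l, hl, hmax⟩ := exists_max_image _ g hne'
  simp only [mem_filter, mem_univ, true_and] at hl hmax
  have e : univ.filter (fun i => g l < g i) = (univ.filter (fun i => g i < g j))ᶜ := by
    ext i
    simp only [mem_filter, mem_univ, true_and, mem_compl]
    exact ⟨fun h h' => absurd (hmax i h') (not_le.2 h), fun h => lt_of_lt_of_le hl (not_lt.1 h)⟩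
  have : l ∈ S := by
    simp only [S, mem_filter, mem_univ, true_and]
    rw [e, card_compl]; omega
  exact absurd (hmin l this) (not_le.2 hl)

theorem cheeger (ha : ∀ i k, 0 ≤ a i k) (hs : ∀ i k, a i k = a k i) (hh : 0 ≤ h)
    (hd0 : 0 ≤ dmax) (hd : ∀ i, ∑ k, a i k ≤ dmax)
    (hexp : ∀ A : Finset ι, 2 * A.card ≤ Fintype.card ι →
      h * A.card ≤ ∑ i ∈ A, ∑ k ∈ Aᶜ, a i k)
    (g : ι → ℝ) (hg : ∑ i, g i = 0) :
    h ^ 2 * ∑ i, g i ^ 2 ≤ dmax * ∑ i, ∑ k, a i k * (g i - g k) ^ 2 := by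
  obtain ⟨m, h1, h2⟩ := exists_median g
  have p1 := cheeger_pos ha hs hh hd hexp (fun i => max (g i - m) 0) (fun i => le_max_right _ _)
    (by
      refine le_trans (Nat.mul_le_mul_left 2 (card_le_card ?_)) h1
      intro i hi
      simp only [mem_filter, mem_univ, true_and] at hi ⊢
      by_contra h; exact hi (max_eq_right (by linarith)))
  have p2 := cheeger_pos ha hs hh hd hexp (fun i => max (m - g i) 0) (fun i => le_max_right _ _)
    (by
      refine le_trans (Nat.mul_le_mul_left 2 (card_le_card ?_)) h2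
      intro i hi
      simp only [mem_filter, mem_univ, true_and] at hi ⊢
      by_contra h; exact hi (max_eq_right (by linarith)))
  have e1 : ∑ i, g i ^ 2 ≤ ∑ i, (max (g i - m) 0) ^ 2 + ∑ i, (max (m - g i) 0) ^ 2 := by
    have : ∀ i, (max (g i - m) 0) ^ 2 + (max (m - g i) 0) ^ 2 = g i ^ 2 - 2 * m * g i + m ^ 2 := by
      intro i
      rcases le_total (g i) m with h | h
      · rw [max_eq_right (by linarith), max_eq_left (by linarith)]; ring
      · rw [max_eq_left (by linarith), max_eq_right (by linarith)]; ring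
    rw [← sum_add_distrib, sum_congr rfl fun i _ => this i, sum_add_distrib, sum_sub_distrib,
      ← mul_sum, hg]
    have : 0 ≤ ∑ _i : ι, m ^ 2 := sum_nonneg fun _ _ => sq_nonneg _
    linarith
  have e2 : ∑ i, ∑ k, a i k * (max (g i - m) 0 - max (g k - m) 0) ^ 2 +
      ∑ i, ∑ k, a i k * (max (m - g i) 0 - max (m - g k) 0) ^ 2 ≤
      ∑ i, ∑ k, a i k * (g i - g k) ^ 2 := by
    rw [← sum_add_distrib]
    apply sum_le_sum; intro i _
    rw [← sum_add_distrib]
    apply sum_le_sum; intro k _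
    rw [← mul_add]
    apply mul_le_mul_of_nonneg_left _ (ha i k)
    rcases le_total (g i) m with h | h <;> rcases le_total (g k) m with h' | h'
    · rw [max_eq_right (by linarith), max_eq_right (by linarith), max_eq_left (by linarith),
        max_eq_left (by linarith)]; nlinarith
    · rw [max_eq_right (by linarith), max_eq_left (by linarith), max_eq_left (by linarith),
        max_eq_right (by linarith)]; nlinarith
    · rw [max_eq_left (by linarith), max_eq_right (by linarith), max_eq_right (by linarith),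
        max_eq_left (by linarith)]; nlinarith
    · rw [max_eq_left (by linarith), max_eq_left (by linarith), max_eq_right (by linarith),
        max_eq_right (by linarith)]; nlinarith
  nlinarith [mul_le_mul_of_nonneg_left e1 (sq_nonneg h), mul_le_mul_of_nonneg_left e2 hd0]

end cheeger

variable {V : Type} [Fintype V]

/-- Number of `G`-edges between two different blocks. -/
noncomputable def cnt {ι : Type} (G : SimpleGraph V) (b : ι → Finset V) (i k : ι) : ℝ :=
  if i = k then 0 else ∑ x ∈ b i, ∑ y ∈ b k, if G.Adj x y then 1 else 0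

omit [Fintype V] in
lemma cnt_nonneg {ι : Type} (G : SimpleGraph V) (b : ι → Finset V) (i k : ι) :
    0 ≤ cnt G b i k := by
  unfold cnt
  split_ifs
  · exact le_rfl
  · exact sum_nonneg fun _ _ => sum_nonneg fun _ _ => by split_ifs <;> norm_num

omit [Fintype V] in
lemma cnt_symm {ι : Type} (G : SimpleGraph V) (b : ι → Finset V) (i k : ι) :
    cnt G b i k = cnt G b k i := by
  unfold cnt
  by_cases h : i = k
  · simp [h]
  · rw [if_neg h, if_neg (Ne.symm h), sum_comm]
    simp only [G.adj_comm]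

lemma sum_blocks_le {ι : Type} [Fintype ι] {K : ι → Finset V}
    (hK : ∀ i k, i ≠ k → Disjoint (K i) (K k)) {F : V → ℝ} (hF : ∀ x, 0 ≤ F x) :
    ∑ i, ∑ x ∈ K i, F x ≤ ∑ x, F x := by
  rw [← sum_biUnion (fun i _ k _ h => hK i k h)]
  exact sum_le_sum_of_subset_of_nonneg (subset_univ _) fun x _ _ => hF x

theorem poincare {ι : Type} [Fintype ι] {c : V → V → ℝ} (hc : ∀ x y, 0 ≤ c x y)
    (G : SimpleGraph V) (ρ : ι → V) (b K : ι → Finset V) (hbK : ∀ i, b i ⊆ K i)
    (hK : ∀ i k, i ≠ k → Disjoint (K i) (K k)) {R r h dmax mu : ℝ} (hR0 : 0 ≤ R) (hr0 : 0 ≤ r)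
    (hR : ∀ i, ∀ x ∈ b i, ∀ f : V → ℝ,
      (f (ρ i) - f x) ^ 2 ≤ R * ∑ a ∈ K i, ∑ y, c a y * (f a - f y) ^ 2)
    (hr : ∀ x y, G.Adj x y → 1 ≤ r * c x y) (hh : 0 < h) (hd0 : 0 ≤ dmax)
    (hd : ∀ i, ∑ k, cnt G b i k ≤ dmax)
    (hexp : ∀ A : Finset ι, 2 * A.card ≤ Fintype.card ι →
      h * A.card ≤ ∑ i ∈ A, ∑ k ∈ Aᶜ, cnt G b i k)
    (hmu0 : 0 ≤ mu) (hmu : mu * (dmax * (12 * R * dmax + 6 * r)) ≤ h ^ 2)
    (f : V → ℝ) (hf : ∑ i, f (ρ i) = 0) : mu * ∑ i, f (ρ i) ^ 2 ≤ En c f f := by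
  have h1 := cheeger (cnt_nonneg G b) (cnt_symm G b) hh.le hd0 hd hexp (fun i => f (ρ i)) hf
  set E : ι → ℝ := fun i => ∑ a ∈ K i, ∑ y, c a y * (f a - f y) ^ 2 with hE
  have hF : ∀ a, 0 ≤ ∑ y, c a y * (f a - f y) ^ 2 :=
    fun a => sum_nonneg fun _ _ => mul_nonneg (hc _ _) (sq_nonneg _)
  have hE0 : ∀ i, 0 ≤ E i := fun i => sum_nonneg fun a _ => hF a
  have h2E := sum_le_two_En hc f
  have hEs : ∑ i, E i ≤ 2 * En c f f := (sum_blocks_le hK hF).trans h2E
  have hb : ∀ i k, i ≠ k → Disjoint (b i) (b k) := fun i k h =>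
    (hK i k h).mono (hbK i) (hbK k)
  have h2 : ∀ i k, cnt G b i k * (f (ρ i) - f (ρ k)) ^ 2 ≤
      3 * R * (cnt G b i k * E i) + 3 * R * (cnt G b k i * E k) +
        3 * r * ∑ x ∈ b i, ∑ y ∈ b k, c x y * (f x - f y) ^ 2 := by
    intro i k
    rw [cnt_symm G b k i]
    by_cases hik : i = k
    · simp only [cnt, hik, if_true, zero_mul, mul_zero, zero_add]
      exact mul_nonneg (by positivity) (sum_nonneg fun _ _ => sum_nonneg fun _ _ =>
        mul_nonneg (hc _ _) (sq_nonneg _))
    · simp only [cnt, hik, if_false, sum_mul, mul_sum, ← sum_add_distrib]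
      apply sum_le_sum; intro x hx
      apply sum_le_sum; intro y hy
      split_ifs with hxy
      · have a1 := hR i x hx f
        have a2 := hR k y hy f
        have a3 := mul_le_mul_of_nonneg_right (hr x y hxy) (sq_nonneg (f x - f y))
        change _ ≤ R * E i at a1
        change _ ≤ R * E k at a2
        nlinarith [sq_nonneg (f (ρ i) - f x - (f x - f y)), sq_nonneg (f x - f y - (f y - f (ρ k))),
          sq_nonneg (f (ρ i) - f x - (f y - f (ρ k)))]
      · simp only [zero_mul, mul_zero, zero_add]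
        exact mul_nonneg (by positivity) (mul_nonneg (hc _ _) (sq_nonneg _))
  have h3 : ∑ i, ∑ k, cnt G b i k * E i ≤ dmax * (2 * En c f f) := by
    refine le_trans ?_ (mul_le_mul_of_nonneg_left hEs hd0)
    rw [mul_sum]
    apply sum_le_sum; intro i _
    rw [← sum_mul]
    exact mul_le_mul_of_nonneg_right (hd i) (hE0 i)
  have h4 : ∑ i, ∑ k, ∑ x ∈ b i, ∑ y ∈ b k, c x y * (f x - f y) ^ 2 ≤ 2 * En c f f := by
    refine le_trans ?_ h2E
    refine le_trans ?_ (sum_blocks_le hb hF)
    apply sum_le_sum; intro i _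
    rw [sum_comm]
    apply sum_le_sum; intro x _
    exact sum_blocks_le hb (F := fun y => c x y * (f x - f y) ^ 2)
      fun y => mul_nonneg (hc _ _) (sq_nonneg _)
  have h5 : ∑ i, ∑ k, cnt G b i k * (f (ρ i) - f (ρ k)) ^ 2 ≤
      (12 * R * dmax + 6 * r) * En c f f := by
    refine (sum_le_sum fun i _ => sum_le_sum fun k _ => h2 i k).trans ?_
    simp only [sum_add_distrib, ← mul_sum]
    rw [sum_comm (f := fun i k => cnt G b k i * E k)]
    nlinarith [mul_le_mul_of_nonneg_left h3 hR0, mul_le_mul_of_nonneg_left h4 hr0]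
  have hEn := En_nonneg hc f
  have hS : 0 ≤ ∑ i, f (ρ i) ^ 2 := sum_nonneg fun _ _ => sq_nonneg _
  have h6 : h ^ 2 * (mu * ∑ i, f (ρ i) ^ 2) ≤ h ^ 2 * En c f f := by
    have a1 := mul_le_mul_of_nonneg_left (h1.trans (mul_le_mul_of_nonneg_left h5 hd0)) hmu0
    have a2 := mul_le_mul_of_nonneg_right hmu hEn
    nlinarith
  exact le_of_mul_le_mul_left h6 (by positivity)

end Pool.Agent.MP_f8cd8e_pr

end MrgPart0

-- ======== part 1: formerly Pool.Agent.MP_f8cd8e_pr.Det
section MrgPart1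

/-! Deterministic part: consequences of the good events for the weighted spanning tree. -/

open scoped Classical
open Finset

namespace Pool.Agent.MP_f8cd8e_pr

variable {V : Type} [Fintype V]

def NoPath (G : SimpleGraph V) (L : ℕ) : Prop := ∀ p, ¬ PathFn G p L

def FewOut (G₁ G₂ : SimpleGraph V) (L j : ℕ) : Prop :=
  ∀ p k, k ≤ L → PathFn G₂ p k →
    ((range k).filter (fun i => ¬ G₁.Adj (p i) (p (i + 1)))).card < j

noncomputable def Big (G : SimpleGraph V) (s : ℕ) : Finset V :=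
  univ.filter (fun y => s ≤ (Cl G y).card)

noncomputable def gates (H : SimpleGraph V) (C Y : Finset V) : Finset (V × V) :=
  (C ×ˢ (Y \ C)).filter (fun e => H.Adj e.1 e.2)

def Valid {ι : Type} (G : SimpleGraph V) (s : ℕ) (ρ : ι → V) (b : ι → Finset V) : Prop :=
  (∀ i k, i ≠ k → ¬ G.Reachable (ρ i) (ρ k)) ∧ ∀ i, (b i).card = s ∧ b i ⊆ Cl G (ρ i)

def Expands {ι : Type} [Fintype ι] (G : SimpleGraph V) (b : ι → Finset V) (h dmax : ℝ) : Prop :=
  (∀ i, ∑ k, cnt G b i k ≤ dmax) ∧
    ∀ A : Finset ι, 2 * A.card ≤ Fintype.card ι →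
      h * A.card ≤ ∑ i ∈ A, ∑ k ∈ Aᶜ, cnt G b i k

def Cut (G G' : SimpleGraph V) (L : ℕ) : Prop := ∃ v, NoPath (On G' (Cl G v)ᶜ) L

/-- A tree path uses an edge much higher than needed to connect its ends. -/
def Bad (ω : Sym2 V → ℝ) (Δ : ℝ) (T : SimpleGraph V) : Prop :=
  ∃ p k i, PathFn T p k ∧ i < k ∧
    (Gr ω (Set.Iio (ω s(p i, p (i + 1)) - Δ))).Reachable (p 0) (p k)

omit [Fintype V] in
lemma path_of_not_bad {ω : Sym2 V → ℝ} {Δ q : ℝ} {T : SimpleGraph V} (h : ¬ Bad ω Δ T)
    {p : ℕ → V} {k : ℕ} (hp : PathFn T p k) (hr : (Gr ω (Set.Iic q)).Reachable (p 0) (p k)) :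
    PathFn (Gr ω (Set.Iic (q + Δ))) p k := by
  refine hp.of_adj fun i hi => ⟨(hp.2 i hi).ne, ?_⟩
  by_contra hc
  simp only [Set.mem_Iic, not_le] at hc
  exact h ⟨p, k, i, hp, hi, hr.mono (Gr_mono ω fun x hx => by
    simp only [Set.mem_Iic, Set.mem_Iio] at hx ⊢; linarith)⟩

theorem bad_bound (ω : Sym2 V → ℝ) {β Δ : ℝ} (hβ : 0 ≤ β) :
    ∑ T ∈ trees V, tw (fun e => Real.exp (-β * ω e)) T * (if Bad ω Δ T then 1 else 0) ≤
      2 * (Fintype.card V : ℝ) ^ 5 * Real.exp (-(β * Δ)) * ZZ (fun e => Real.exp (-β * ω e)) := by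
  set φ : Sym2 V → ℝ := fun e => Real.exp (-β * ω e) with hφ
  have hφ0 : ∀ e, 0 < φ e := fun e => Real.exp_pos _
  have hc := net_nonneg fun e => (hφ0 e).le
  set n : ℝ := (Fintype.card V : ℝ) with hn
  have hn0 : 0 ≤ n := Nat.cast_nonneg _
  have hZ : 0 ≤ ZZ φ := sum_nonneg fun T _ => tw_nonneg (fun e => (hφ0 e).le) T
  set E : V × V × V × V → SimpleGraph V → Prop := fun z T =>
    (Gr ω (Set.Iio (ω s(z.2.2.1, z.2.2.2) - Δ))).Reachable z.1 z.2.1 ∧
    ∃ p k i, PathFn T p k ∧ p 0 = z.1 ∧ p k = z.2.1 ∧ i < k ∧ p i = z.2.2.1 ∧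
      p (i + 1) = z.2.2.2 with hE
  have s1 : ∑ T ∈ trees V, tw φ T * (if Bad ω Δ T then 1 else 0) ≤
      ∑ z : V × V × V × V, ∑ T ∈ trees V, tw φ T * (if E z T then 1 else 0) := by
    rw [sum_comm]
    apply sum_le_sum
    intro T _
    rw [← mul_sum]
    apply mul_le_mul_of_nonneg_left _ (tw_nonneg (fun e => (hφ0 e).le) T)
    split_ifs with h
    · obtain ⟨p, k, i, hp, hi, hr⟩ := h
      have : E (p 0, p k, p i, p (i + 1)) T := ⟨hr, p, k, i, hp, rfl, rfl, hi, rfl, rfl⟩
      refine le_trans ?_ (single_le_sum (f := fun z => if E z T then (1 : ℝ) else 0)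
        (fun z _ => by split_ifs <;> norm_num) (mem_univ (p 0, p k, p i, p (i + 1))))
      simp only [this, if_true, le_refl]
    · exact sum_nonneg fun z _ => by split_ifs <;> norm_num
  have s2 : ∀ z : V × V × V × V, ∑ T ∈ trees V, tw φ T * (if E z T then 1 else 0) ≤
      2 * n * Real.exp (-(β * Δ)) * ZZ φ := by
    rintro ⟨u, v, a, b⟩
    by_cases hr : (Gr ω (Set.Iio (ω s(a, b) - Δ))).Reachable u v
    · simp only [hE, hr, true_and]
      obtain ⟨p, h0, hk, hp⟩ := exists_pathFn hr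
      generalize (Gr ω (Set.Iio (ω s(a, b) - Δ))).dist u v = k at hk hp
      have hnet : ∀ i < k, net φ (p i) (p (i + 1)) = φ s(p i, p (i + 1)) := fun i hi => by
        simp [net, (hp.2 i hi).ne]
      have hR : ∀ f : V → ℝ, (f u - f v) ^ 2 ≤
          2 * n * Real.exp (β * (ω s(a, b) - Δ)) * En (net φ) f f := by
        intro f
        have h1 := path_energy hc hp (fun i hi => by rw [hnet i hi]; exact hφ0 _)
          (K := univ) (fun _ _ => mem_univ _) f
        rw [h0, hk] at h1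
        have h2 := sum_le_two_En hc f
        have h3 : ∑ i ∈ range k, 1 / net φ (p i) (p (i + 1)) ≤
            n * Real.exp (β * (ω s(a, b) - Δ)) := by
          calc _ ≤ ∑ i ∈ range k, Real.exp (β * (ω s(a, b) - Δ)) := by
                apply sum_le_sum
                intro i hi
                rw [mem_range] at hi
                rw [hnet i hi, hφ, one_div, ← Real.exp_neg, Real.exp_le_exp]
                have := (hp.2 i hi).2
                simp only [Set.mem_Iio] at this
                nlinarith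
            _ ≤ _ := by
                rw [sum_const, card_range, nsmul_eq_mul]
                have : (k : ℝ) ≤ n := by rw [hn]; exact_mod_cast hp.lt_card.le
                gcongr
        have h4 : 0 ≤ ∑ a, ∑ b, net φ a b * (f a - f b) ^ 2 :=
          sum_nonneg fun _ _ => sum_nonneg fun _ _ => mul_nonneg (hc _ _) (sq_nonneg _)
        calc _ ≤ _ := h1
          _ ≤ (n * Real.exp (β * (ω s(a, b) - Δ))) * (2 * En (net φ) f f) := by gcongr
          _ = _ := by ring
      refine (high_edge hφ0 u v a b (by positivity) hR).trans ?_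
      apply mul_le_mul_of_nonneg_right _ hZ
      have : net φ a b ≤ φ s(a, b) := by unfold net; split_ifs; exacts [(hφ0 _).le, le_rfl]
      calc _ ≤ φ s(a, b) * (2 * n * Real.exp (β * (ω s(a, b) - Δ))) := by gcongr
        _ = 2 * n * (Real.exp (-β * ω s(a, b)) * Real.exp (β * (ω s(a, b) - Δ))) := by
            simp only [hφ]; ring
        _ = _ := by rw [← Real.exp_add]; congr 2; ring
    · simp only [hE, hr, false_and, if_false, mul_zero, sum_const_zero]
      positivity
  refine s1.trans ((sum_le_sum fun z _ => s2 z).trans (le_of_eq ?_))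
  simp only [sum_const, card_univ, Fintype.card_prod, nsmul_eq_mul, Nat.cast_mul, ← hn]
  ring

theorem upper_det {T : SimpleGraph V} (G G' : ℕ → SimpleGraph V) (J L Λ : ℕ)
    (hP : ∀ j p k, PathFn T p k → (G j).Reachable (p 0) (p k) → PathFn (G' j) p k)
    (h0 : NoPath (G' 0) Λ) (hcut : ∀ j < J, Cut (G j) (G' (j + 1)) L)
    (hconn : (G J).Connected) {p : ℕ → V} {k : ℕ} (hp : PathFn T p k) : k < Λ + J * (2 * L) := by
  have claim : ∀ j ≤ J, ∀ p k, PathFn T p k → PathFn (G' j) p k → k < Λ + j * (2 * L) := by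
    intro j
    induction j with
    | zero =>
      intro _ p k _ hp
      by_contra h
      exact h0 p (hp.trunc (by omega))
    | succ j ih =>
      intro hj p k hp hp'
      obtain ⟨v, hv⟩ := hcut j (by omega)
      have seg : ∀ a, a + L ≤ k → ∃ i, a ≤ i ∧ i ≤ a + L ∧ p i ∈ Cl (G j) v := by
        intro a ha
        by_contra hc
        push Not at hc
        apply hv (fun i => p (a + i))
        refine (hp'.sub a L ha).of_adj fun i hi => ⟨hp'.2 (a + i) (by omega), ?_, ?_⟩
        · exact mem_compl.2 (hc _ (by omega) (by omega))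
        · exact mem_compl.2 (hc _ (by omega) (by omega))
      by_cases hk : k < 2 * L
      · nlinarith
      · obtain ⟨a, -, ha, haW⟩ := seg 0 (by omega)
        obtain ⟨b, hb1, hb2, hbW⟩ := seg (k - L) (by omega)
        have hab : a ≤ b := by omega
        have h1 := hp.sub a (b - a) (by omega)
        have h2 := hP j _ _ h1 (by
          simp only [add_zero, Nat.add_sub_cancel' hab]
          exact (mem_Cl.1 haW).symm.trans (mem_Cl.1 hbW))
        have h3 := ih (by omega) _ _ h1 h2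
        have : (j + 1) * (2 * L) = j * (2 * L) + 2 * L := by ring
        omega
  exact claim J le_rfl p k hp (hP J p k hp (hconn _ _))

lemma blocks_reach {ι : Type} [Fintype ι] {s : ℕ} {G₁ Gs : SimpleGraph V} (h1s : G₁ ≤ Gs)
    {ρ : ι → V} {b : ι → Finset V} (hv : Valid G₁ s ρ b) {h dmax : ℝ} (hh : 0 < h)
    (he : Expands Gs b h dmax) (i k : ι) : Gs.Reachable (ρ i) (ρ k) := by
  have key : ∀ A : Finset ι, A.Nonempty → 2 * A.card ≤ Fintype.card ι →
      ∃ a ∈ A, ∃ c, c ∉ A ∧ Gs.Reachable (ρ a) (ρ c) := by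
    intro A hA h2
    by_contra hc
    push Not at hc
    have h3 := he.2 A h2
    have h4 : ∑ i ∈ A, ∑ k ∈ Aᶜ, cnt Gs b i k = 0 := by
      apply sum_eq_zero; intro a ha
      apply sum_eq_zero; intro c hcA
      unfold cnt
      split_ifs
      · rfl
      · apply sum_eq_zero; intro x hx
        apply sum_eq_zero; intro y hy
        rw [if_neg]
        intro hxy
        apply hc a ha c (mem_compl.1 hcA)
        exact ((mem_Cl.1 ((hv.2 a).2 hx)).mono h1s).trans (hxy.reachable.trans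
          ((mem_Cl.1 ((hv.2 c).2 hy)).mono h1s).symm)
    have : (0 : ℝ) < A.card := by exact_mod_cast card_pos.2 hA
    nlinarith
  by_contra hik
  set A := univ.filter (fun k => Gs.Reachable (ρ i) (ρ k)) with hA
  have hcard : A.card + Aᶜ.card = Fintype.card ι := by simp
  by_cases h2 : 2 * A.card ≤ Fintype.card ι
  · obtain ⟨a, ha, c, hc, hr⟩ := key A ⟨i, by simp [hA]⟩ h2
    simp only [hA, mem_filter, mem_univ, true_and] at ha hc
    exact hc (ha.trans hr)
  · obtain ⟨a, ha, c, hc, hr⟩ := key Aᶜ ⟨k, by simpa [hA] using hik⟩ (by omega)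
    simp only [hA, mem_compl, mem_filter, mem_univ, true_and, not_not] at ha hc
    exact ha (hc.trans hr.symm)

theorem lower_det {φ : Sym2 V → ℝ} (hφ : ∀ e, 0 < φ e) {Gf G₁ Gs H : SimpleGraph V}
    (h1s : G₁ ≤ Gs) (hsH : Gs ≤ H) {cs : ℝ} (hcs : 0 < cs)
    (hf : ∀ a b, Gf.Adj a b → Fintype.card V * cs ≤ φ s(a, b))
    (h1 : ∀ a b, G₁.Adj a b → cs ≤ φ s(a, b)) (hs : ∀ a b, Gs.Adj a b → cs ≤ 8 * φ s(a, b))
    (hn : ∀ a b, a ≠ b → ¬ G₁.Adj a b → φ s(a, b) ≤ cs)
    {ι : Type} [Fintype ι] {N s R₀ r j κ : ℕ} (hNι : Fintype.card ι = N) {ρ : ι → V}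
    {b : ι → Finset V} (hv : Valid G₁ s ρ b)
    {h dmax mu : ℝ} (hh : 0 < h) (hd0 : 0 ≤ dmax) (he : Expands Gs b h dmax) (hmu0 : 0 < mu)
    (hmu : mu * (dmax * (12 * (R₀ + 1) * dmax + 48)) ≤ h ^ 2)
    (hR : FewOut Gf G₁ (Fintype.card V) R₀) (hj : FewOut G₁ H r j) (hj0 : 0 < j) (hjN : 2 * j ≤ N)
    (hκ : ∀ v, (gates H (Cl G₁ v) (Big (On H (Cl G₁ v)ᶜ) s)).card ≤ κ) :
    N * ∑ T ∈ trees V, tw φ T * (if ∀ u v, Gs.Reachable u v → ∃ p k, k ≤ r ∧ p 0 = u ∧ p k = v ∧
      PathFn T p k ∧ PathFn H p k then 1 else 0) ≤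
      12 * ((j * (κ + 1) : ℕ) : ℝ) ^ 2 / mu * ZZ φ := by
  have hN : 0 < N := by omega
  have h1H : G₁ ≤ H := h1s.trans hsH
  obtain ⟨i₀⟩ : Nonempty ι := Fintype.card_pos_iff.1 (by omega)
  set u := ρ i₀ with hu
  set U := Cl H u with hU
  set D := univ.image ρ with hD
  have hρinj : Function.Injective ρ := fun i k e => by
    by_contra h; exact hv.1 i k h (by rw [e])
  have hDcard : D.card = N := by rw [hD, card_image_of_injective _ hρinj, card_univ, hNι]
  set c' : V → V → ℝ := fun a b => if a = b then (if a ∈ U then 0 else 1) else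
    if H.Adj a b then φ s(a, b) else 0 with hc'def
  have hc := net_nonneg fun e => (hφ e).le
  have hc' : ∀ a b, 0 ≤ c' a b := fun a b => by
    simp only [hc'def]; split_ifs <;> first | exact (hφ _).le | norm_num
  have hs' : ∀ a b, c' a b = c' b a := fun a b => by
    by_cases hab : a = b
    · rw [hab]
    · simp only [hc'def, hab, Ne.symm hab, if_false, H.adj_comm, Sym2.eq_swap]
  have hadj : ∀ a b, H.Adj a b → c' a b = φ s(a, b) := fun a b h => by
    simp [hc'def, h, h.ne]
  have hnadj : ∀ a b, a ≠ b → ¬ H.Adj a b → c' a b = 0 := fun a b h h' => by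
    simp [hc'def, h, h']
  have hreach := blocks_reach h1s hv hh he
  have hDU : D ⊆ U := by
    intro y hy
    obtain ⟨i, -, rfl⟩ := mem_image.1 hy
    exact mem_Cl.2 ((hreach _ i).mono hsH)
  set κ' : ℕ := j * (κ + 1) with hκ'
  have hκ0 : (0 : ℝ) < κ' := by rw [hκ']; positivity
  -- Poincare inequality
  have hP : ∀ f : V → ℝ, ∑ y ∈ D, f y = 0 → mu * cs * ∑ y ∈ D, f y ^ 2 ≤ En c' f f := by
    intro f hf0
    rw [hD, sum_image fun i _ k _ e => hρinj e] at hf0 ⊢
    refine poincare hc' Gs ρ b (fun i => Cl G₁ (ρ i)) (fun i => (hv.2 i).2) ?_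
      (R := (R₀ + 1) / cs) (r := 8 / cs) (by positivity) (by positivity) ?_ ?_ hh hd0 he.1
      he.2 (by positivity) ?_ f hf0
    · intro i k hik
      rw [disjoint_left]
      intro y h1 h2
      exact hv.1 i k hik ((mem_Cl.1 h1).trans (mem_Cl.1 h2).symm)
    · intro i x hx f
      have hr := mem_Cl.1 ((hv.2 i).2 hx)
      obtain ⟨p, h0, hk, hp⟩ := exists_pathFn hr
      generalize G₁.dist (ρ i) x = k at hk hp
      have hnet : ∀ l < k, c' (p l) (p (l + 1)) = φ s(p l, p (l + 1)) := fun l hl =>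
        hadj _ _ (h1H (hp.2 l hl))
      have a1 := path_energy hc' hp (fun l hl => by rw [hnet l hl]; exact hφ _)
        (K := Cl G₁ (ρ i)) (fun l hl => mem_Cl.2 (h0 ▸ hp.reachable hl.le)) f
      rw [h0, hk] at a1
      refine a1.trans (mul_le_mul_of_nonneg_right ?_
        (sum_nonneg fun _ _ => sum_nonneg fun _ _ => mul_nonneg (hc' _ _) (sq_nonneg _)))
      have hkn : (k : ℝ) ≤ Fintype.card V := by exact_mod_cast hp.lt_card.le
      have hn0 : (0 : ℝ) < Fintype.card V := by
        have := hp.lt_card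
        exact_mod_cast (by omega : 0 < Fintype.card V)
      have a2 := hR p k hp.lt_card.le hp
      calc _ ≤ ∑ l ∈ range k, ((if ¬ Gf.Adj (p l) (p (l + 1)) then 1 / cs else 0) +
              1 / (Fintype.card V * cs)) := by
            apply sum_le_sum
            intro l hl
            rw [mem_range] at hl
            rw [hnet l hl]
            split_ifs with h
            · rw [zero_add]
              exact one_div_le_one_div_of_le (by positivity) (hf _ _ h)
            · have := one_div_le_one_div_of_le hcs (h1 _ _ (hp.2 l hl))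
              have : 0 ≤ 1 / (Fintype.card V * cs) := by positivity
              linarith
        _ ≤ _ := by
            rw [sum_add_distrib, ← sum_filter, sum_const, sum_const, card_range, nsmul_eq_mul,
              nsmul_eq_mul, add_div]
            have b1 : ((((range k).filter (fun i => ¬ Gf.Adj (p i) (p (i + 1)))).card : ℕ) : ℝ) ≤
              R₀ := by exact_mod_cast a2.le
            have b2 : (k : ℝ) * (1 / (Fintype.card V * cs)) ≤ 1 / cs := by
              rw [mul_one_div, div_le_div_iff₀ (by positivity) hcs]; nlinarith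
            have b3 := mul_le_mul_of_nonneg_right b1 (show 0 ≤ 1 / cs by positivity)
            rw [mul_one_div (R₀ : ℝ)] at b3
            linarith
    · intro x y hxy
      rw [hadj x y (hsH hxy), div_mul_eq_mul_div, le_div_iff₀ hcs, one_mul]
      exact hs x y hxy
    · refine le_trans (le_of_eq ?_) hmu
      field_simp
      ring
  have hmc : 0 < mu * cs := mul_pos hmu0 hcs
  set lam := mu * cs / κ' with hlam
  have hlam0 : 0 < lam := div_pos hmc hκ0
  have huU : u ∈ U := self_mem_Cl _ _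
  have hUcl : ∀ a ∈ U, ∀ b, H.Adj a b → b ∈ U := fun a ha b hab =>
    mem_Cl.2 ((mem_Cl.1 ha).trans hab.reachable)
  have hconn' : ∀ a ∈ U, ∀ b ∈ U, Relation.ReflTransGen (fun a b => 0 < c' a b) a b := by
    intro a ha b hb
    have := (mem_Cl.1 ha).symm.trans (mem_Cl.1 hb)
    rw [SimpleGraph.reachable_iff_reflTransGen] at this
    exact rtg_mono (fun a b h => by rw [hadj a b h]; exact hφ _) this
  have hO : ∀ a ∉ U, 0 < c' a a := fun a ha => by simp [hc'def, ha]
  have hU0 : ∀ a ∈ U, c' a a = 0 := fun a ha => by simp [hc'def, ha]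
  have huD : u ∈ D := mem_image_of_mem _ (mem_univ _)
  have hFl : 0 < FF (kill c' D lam) ∅ :=
    FF_pos (kill_nonneg hc' D hlam0.le) ∅ fun z => by
      by_cases hz : z ∈ U
      · refine ⟨u, Or.inr ?_, rtg_mono (fun a b h =>
          lt_of_lt_of_le h (le_kill c' D hlam0.le a b)) (hconn' z hz u huU)⟩
        simp [kill, huD, hU0 u huU, hlam0]
      · exact ⟨z, Or.inr (lt_of_lt_of_le (hO z hz) (le_kill c' D hlam0.le z z)),
          Relation.ReflTransGen.refl⟩
  have hball := ball_bound hφ (kill_nonneg hc' D hlam0.le) hFl H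
    (fun a b hab => by simp [kill, hab.ne, hadj a b hab, net]) D hlam0
    (K := 12 * cs * κ') (by positivity)
    (fun v hv => by simp [kill, hv, hc']) u r ?_
  · refine le_trans ?_ (hball.trans (le_of_eq ?_))
    · rw [← hDcard, ← nsmul_eq_mul, ← sum_const]
      apply sum_le_sum
      intro v hvD
      apply sum_le_sum
      intro T _
      apply mul_le_mul_of_nonneg_left _ (tw_nonneg (fun e => (hφ e).le) T)
      obtain ⟨i, -, rfl⟩ := mem_image.1 hvD
      split_ifs with a1 a2
      · exact le_rfl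
      · exact absurd (a1 u (ρ i) (hreach _ _)) a2
      · norm_num
      · exact le_rfl
    · rw [hlam]; field_simp
  intro p k hk h0 hkD hp
  set I₀ := insert 0 (((range k).filter (fun i => ¬ G₁.Adj (p i) (p (i + 1)))).image (· + 1))
    with hI₀
  have hI₀card : I₀.card ≤ j := by
    have a1 := hj p k hk hp
    have a2 := card_insert_le 0
      (((range k).filter (fun i => ¬ G₁.Adj (p i) (p (i + 1)))).image (· + 1))
    have a3 := card_image_le (s := (range k).filter (fun i => ¬ G₁.Adj (p i) (p (i + 1))))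
      (f := (· + 1))
    rw [hI₀]; omega
  set B := I₀.biUnion (fun i => Cl G₁ (p i)) with hB
  have hBcl : ∀ a ∈ B, ∀ b, G₁.Reachable a b → b ∈ B := by
    intro a ha b hab
    obtain ⟨i, hi, ha⟩ := mem_biUnion.1 ha
    exact mem_biUnion.2 ⟨i, hi, mem_Cl.2 ((mem_Cl.1 ha).trans hab)⟩
  have hpB : ∀ i ≤ k, p i ∈ B := by
    intro i
    induction i with
    | zero => intro _; exact mem_biUnion.2 ⟨0, mem_insert_self _ _, self_mem_Cl _ _⟩
    | succ i ih =>
      intro hi
      by_cases ha : G₁.Adj (p i) (p (i + 1))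
      · exact hBcl _ (ih (by omega)) _ ha.reachable
      · refine mem_biUnion.2 ⟨i + 1, mem_insert_of_mem (mem_image.2 ⟨i, ?_, rfl⟩),
          self_mem_Cl _ _⟩
        simp only [mem_filter, mem_range]
        exact ⟨by omega, ha⟩
  set A := B ∪ (Big (On H Bᶜ) s)ᶜ with hA
  set P := (A ×ˢ Aᶜ).filter (fun e => H.Adj e.1 e.2) with hPdef
  have hPsub : P ⊆ I₀.biUnion
      (fun i => gates H (Cl G₁ (p i)) (Big (On H (Cl G₁ (p i))ᶜ) s)) := by
    rintro ⟨a, y⟩ hay
    simp only [hPdef, hA, mem_filter, mem_product, mem_compl, mem_union, not_or, not_not] at hay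
    obtain ⟨⟨ha, hyB, hy⟩, hadj⟩ := hay
    have haB : a ∈ B := by
      by_contra haB
      rcases ha with ha | ha
      · exact haB ha
      · apply ha
        simp only [Big, mem_filter, mem_univ, true_and] at hy ⊢
        have : a ∈ Cl (On H Bᶜ) y := mem_Cl.2 (SimpleGraph.Adj.reachable
          ⟨hadj.symm, mem_compl.2 hyB, mem_compl.2 haB⟩)
        rwa [Cl_eq_of_mem this]
    obtain ⟨i, hi, hai⟩ := mem_biUnion.1 haB
    have hsub : Cl G₁ (p i) ⊆ B := subset_biUnion_of_mem (fun i => Cl G₁ (p i)) hi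
    refine mem_biUnion.2 ⟨i, hi, ?_⟩
    simp only [gates, mem_filter, mem_product, mem_sdiff]
    refine ⟨⟨hai, ?_, fun h => hyB (hsub h)⟩, hadj⟩
    simp only [Big, mem_filter, mem_univ, true_and] at hy ⊢
    exact hy.trans (card_le_card (Cl_mono (On_mono le_rfl (compl_subset_compl.2 hsub)) _))
  have hPcard : P.card ≤ j * κ := by
    refine (card_le_card hPsub).trans (card_biUnion_le.trans ?_)
    refine (sum_le_card_nsmul _ _ κ fun i _ => hκ _).trans ?_
    rw [smul_eq_mul]; exact Nat.mul_le_mul_right _ hI₀card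
  have hDA : D ∩ A ⊆ B := by
    intro y hy
    obtain ⟨hyD, hyA⟩ := mem_inter.1 hy
    by_contra hyB
    rcases mem_union.1 hyA with h | h
    · exact hyB h
    · apply mem_compl.1 h
      obtain ⟨i, -, rfl⟩ := mem_image.1 hyD
      simp only [Big, mem_filter, mem_univ, true_and]
      rw [← (hv.2 i).1]
      apply card_le_card
      intro x hx
      have hcl : ∀ a ∈ Bᶜ, ∀ b, G₁.Adj a b → b ∈ Bᶜ := fun a ha b hab =>
        mem_compl.2 fun hb => mem_compl.1 ha (hBcl b hb a hab.symm.reachable)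
      exact mem_Cl.2 ((reach_On hcl (mem_compl.2 hyB) (mem_Cl.1 ((hv.2 i).2 hx))).mono
        (On_mono h1H subset_rfl))
  have hDAcard : (D ∩ A).card ≤ j := by
    have : D ∩ A ⊆ I₀.biUnion (fun i => D ∩ Cl G₁ (p i)) := by
      intro y hy
      obtain ⟨i, hi, hyi⟩ := mem_biUnion.1 (hDA hy)
      exact mem_biUnion.2 ⟨i, hi, mem_inter.2 ⟨(mem_inter.1 hy).1, hyi⟩⟩
    refine (card_le_card this).trans (card_biUnion_le.trans ?_)
    refine (sum_le_card_nsmul _ _ 1 fun i _ => ?_).trans (by simpa using hI₀card)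
    rw [card_le_one]
    intro x hx y hy
    obtain ⟨hx1, hx2⟩ := mem_inter.1 hx
    obtain ⟨hy1, hy2⟩ := mem_inter.1 hy
    obtain ⟨a, -, rfl⟩ := mem_image.1 hx1
    obtain ⟨c, -, rfl⟩ := mem_image.1 hy1
    by_contra hne
    exact hv.1 a c (fun e => hne (by rw [e])) ((mem_Cl.1 hx2).symm.trans (mem_Cl.1 hy2))
  set J := P.image Prod.fst ∪ (D ∩ A) with hJ
  have hJcard : J.card ≤ κ' := by
    have a1 := card_union_le (P.image Prod.fst) (D ∩ A)
    have a2 := card_image_le (s := P) (f := Prod.fst)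
    rw [hκ', mul_add, mul_one, hJ]; omega
  have hSB : {p k} ∪ (range k).image p ⊆ B := by
    intro y hy
    rcases mem_union.1 hy with hy | hy
    · rw [mem_singleton.1 hy]; exact hpB k le_rfl
    · obtain ⟨i, hi, rfl⟩ := mem_image.1 hy
      exact hpB i (mem_range.1 hi).le
  have key := key_ineq (c := net φ) (c' := c') (U := U) (D := D) (mu := mu * cs) (lam := lam)
    (net_symm φ) hc hs' hc' ?_ hU0 ?_ hO hconn' (net_conn hφ) hDU hmc hlam0 hP
    (S := {p k} ∪ (range k).image p) (A := A) (J := J) (v := p k) (bb := cs * κ')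
    (mem_union_left _ (mem_singleton_self _)) hkD ?_ (hSB.trans subset_union_left) ?_
    subset_union_right ?_ ?_ (by omega)
  · refine key.trans (mul_le_mul_of_nonneg_right ?_ (div_nonneg
      (FF_nonneg (kill_nonneg hc' D hlam0.le) _) hFl.le))
    have a1 : (1 + lam / (mu * cs)) ^ J.card ≤ 3 := by
      have e : lam / (mu * cs) = 1 / κ' := by rw [hlam]; field_simp
      rw [e]
      calc _ ≤ (1 + 1 / (κ' : ℝ)) ^ κ' := pow_le_pow_right₀ (by
              have : (0 : ℝ) ≤ 1 / κ' := by positivity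
              linarith) hJcard
        _ ≤ (Real.exp (1 / κ')) ^ κ' := by
              gcongr
              linarith [Real.add_one_le_exp (1 / (κ' : ℝ))]
        _ = Real.exp 1 := by rw [← Real.exp_nat_mul]; congr 1; field_simp
        _ ≤ 3 := Real.exp_one_lt_d9.le.trans (by norm_num)
    have : 0 ≤ 4 * (cs * κ') := by positivity
    nlinarith
  · intro a _ b _
    by_cases hab : a = b
    · subst hab; rw [hU0 a ‹_›]; exact hc _ _
    · by_cases h : H.Adj a b
      · rw [hadj a b h]; simp [net, hab]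
      · rw [hnadj a b hab h]; exact hc _ _
  · intro a ha b hb
    exact hnadj a b (fun e => hb (e ▸ ha)) fun h => hb (hUcl a ha b h)
  · intro y hy
    rcases mem_union.1 hy with hy | hy
    · rw [mem_singleton.1 hy]; exact hDU hkD
    · obtain ⟨i, hi, rfl⟩ := mem_image.1 hy
      exact mem_Cl.2 (h0 ▸ hp.reachable (mem_range.1 hi).le)
  · intro y hy
    rcases mem_union.1 hy with hy | hy
    · obtain ⟨e, he, rfl⟩ := mem_image.1 hy
      exact (mem_product.1 (mem_filter.1 he).1).1
    · exact (mem_inter.1 hy).2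
  · intro a ha haJ y hy
    refine hnadj a y (fun e => hy (e ▸ ha)) fun h => haJ ?_
    exact mem_union_left _ (mem_image.2 ⟨(a, y),
      mem_filter.2 ⟨mem_product.2 ⟨ha, mem_compl.2 hy⟩, h⟩, rfl⟩)
  · rw [← sum_product']
    calc _ ≤ ∑ e ∈ A ×ˢ Aᶜ, (if H.Adj e.1 e.2 then cs else 0) := by
          apply sum_le_sum
          rintro ⟨a, y⟩ he
          obtain ⟨ha, hy⟩ := mem_product.1 he
          simp only [mem_compl] at ha hy ⊢
          have hne : a ≠ y := fun e => hy (e ▸ ha)
          split_ifs with h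
          · rw [hadj a y h]
            refine hn a y hne fun h' => ?_
            have := hPsub (mem_filter.2 ⟨he, h⟩)
            obtain ⟨i, hi, hg⟩ := mem_biUnion.1 this
            simp only [gates, mem_filter, mem_product, mem_sdiff] at hg
            exact hg.1.2.2 (mem_Cl.2 ((mem_Cl.1 hg.1.1).trans h'.reachable))
          · rw [hnadj a y hne h]
      _ ≤ cs * κ' := by
          rw [← sum_filter, sum_const, nsmul_eq_mul, mul_comm]
          apply mul_le_mul_of_nonneg_left _ hcs.le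
          have : P.card ≤ κ' := by rw [hκ', mul_add]; omega
          exact_mod_cast this

end Pool.Agent.MP_f8cd8e_pr

end MrgPart1

-- ======== part 2: formerly Pool.Agent.MP_f8cd8e_pr.Prob
section MrgPart2

/-! A small calculus of finite product probability spaces. -/

open scoped Classical
open Finset

namespace Pool.Agent.MP_f8cd8e_pr

/-- A probability vector. -/
structure PV (Λ : Type) [Fintype Λ] where
  p : Λ → ℝ
  nn : ∀ a, 0 ≤ p a
  sum1 : ∑ a, p a = 1

noncomputable def ind (P : Prop) : ℝ := if P then 1 else 0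

lemma ind_nonneg (P : Prop) : 0 ≤ ind P := by unfold ind; split_ifs <;> norm_num
lemma ind_le_one (P : Prop) : ind P ≤ 1 := by unfold ind; split_ifs <;> norm_num
lemma ind_of {P : Prop} (h : P) : ind P = 1 := if_pos h
lemma ind_of_not {P : Prop} (h : ¬ P) : ind P = 0 := if_neg h
lemma ind_and (P Q : Prop) : ind (P ∧ Q) = ind P * ind Q := by
  unfold ind; by_cases P <;> by_cases Q <;> simp [*]
lemma ind_mono {P Q : Prop} (h : P → Q) : ind P ≤ ind Q := by
  unfold ind; by_cases hP : P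
  · simp [hP, h hP]
  · simp only [hP, if_false]; split_ifs <;> norm_num
lemma ind_congr {P Q : Prop} (h : P ↔ Q) : ind P = ind Q := by rw [propext h]
lemma ind_not (P : Prop) : ind (¬ P) = 1 - ind P := by unfold ind; by_cases P <;> simp [*]
lemma ind_forall {ι : Type} (s : Finset ι) (P : ι → Prop) :
    ind (∀ i ∈ s, P i) = ∏ i ∈ s, ind (P i) := by
  by_cases h : ∀ i ∈ s, P i
  · rw [ind_of h, prod_eq_one fun i hi => ind_of (h i hi)]
  · rw [ind_of_not h]
    push Not at h
    obtain ⟨i, hi, h⟩ := h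
    exact (prod_eq_zero hi (ind_of_not h)).symm
lemma sum_ind {ι : Type} (s : Finset ι) (P : ι → Prop) [DecidablePred P] :
    ∑ i ∈ s, ind (P i) = (s.filter P).card := by
  rw [card_filter]
  push_cast
  exact sum_congr rfl fun i _ => by unfold ind; congr
lemma sum_ind_mem {ι : Type} [Fintype ι] (s : Finset ι) : ∑ i, ind (i ∈ s) = s.card := by
  rw [sum_ind]; simp

lemma prod_exp_ind {ι : Type} (s : Finset ι) (P : ι → Prop) [DecidablePred P] (z : ℝ) :
    ∏ i ∈ s, (if P i then z else 1) = z ^ (s.filter P).card := by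
  rw [prod_ite, prod_const, prod_const_one, mul_one]

namespace PV

variable {E Λ : Type} [Fintype E] [Fintype Λ] (π : PV Λ)

noncomputable def W (x : E → Λ) : ℝ := ∏ e, π.p (x e)

noncomputable def Ex (f : (E → Λ) → ℝ) : ℝ := ∑ x, π.W x * f x

noncomputable def Pr (A : (E → Λ) → Prop) : ℝ := π.Ex (fun x => ind (A x))

noncomputable def E1 (ψ : Λ → ℝ) : ℝ := ∑ a, π.p a * ψ a

noncomputable def m (O : Set Λ) : ℝ := π.E1 (fun a => ind (a ∈ O))

lemma W_nonneg (x : E → Λ) : 0 ≤ π.W x := prod_nonneg fun _ _ => π.nn _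

lemma E1_nonneg {ψ : Λ → ℝ} (h : ∀ a, 0 ≤ ψ a) : 0 ≤ π.E1 ψ :=
  sum_nonneg fun a _ => mul_nonneg (π.nn a) (h a)

lemma E1_const (c : ℝ) : π.E1 (fun _ => c) = c := by
  simp [E1, ← sum_mul, π.sum1]

lemma E1_lin (f g : Λ → ℝ) (a b : ℝ) :
    π.E1 (fun x => a * f x + b * g x) = a * π.E1 f + b * π.E1 g := by
  simp only [E1, mul_sum, ← sum_add_distrib]
  exact sum_congr rfl fun _ _ => by ring

lemma E1_congr {f g : Λ → ℝ} (h : ∀ a, f a = g a) : π.E1 f = π.E1 g := by
  rw [funext h]

lemma m_nonneg (O : Set Λ) : 0 ≤ π.m O := π.E1_nonneg fun _ => ind_nonneg _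

lemma E1_not (O : Set Λ) : π.E1 (fun a => ind (a ∉ O)) = 1 - π.m O := by
  have := π.E1_lin (fun _ => 1) (fun a => ind (a ∈ O)) 1 (-1)
  rw [E1_const] at this
  rw [π.E1_congr (g := fun a => 1 * 1 + (-1) * ind (a ∈ O)) fun a => by rw [ind_not]; ring, this, m]
  ring

lemma m_le_one (O : Set Λ) : π.m O ≤ 1 := by
  have := π.E1_nonneg (ψ := fun a => ind (a ∉ O)) fun _ => ind_nonneg _
  rw [E1_not] at this; linarith

lemma m_mono {O O' : Set Λ} (h : O ⊆ O') : π.m O ≤ π.m O' :=
  sum_le_sum fun a _ => mul_le_mul_of_nonneg_left (ind_mono fun h' => h h') (π.nn a)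

/-- Mean of a function taking three values on two nested sets. -/
lemma E1_three {O O' : Set Λ} (h : O ⊆ O') (a b c : ℝ) :
    π.E1 (fun x => if x ∈ O then a else if x ∈ O' then b else c) =
      a * π.m O + b * (π.m O' - π.m O) + c * (1 - π.m O') := by
  have e : ∀ x, (if x ∈ O then a else if x ∈ O' then b else c) =
      1 * ((a - b) * ind (x ∈ O) + (b - c) * ind (x ∈ O')) + c * 1 := by
    intro x
    by_cases h1 : x ∈ O
    · simp [ind, h1, h h1]
    · by_cases h2 : x ∈ O' <;> simp [ind, h1, h2]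
  rw [π.E1_congr e, E1_lin, E1_lin, E1_const]
  unfold m; ring

lemma Ex_prod_univ (f : E → Λ → ℝ) : π.Ex (fun x => ∏ e, f e (x e)) = ∏ e, π.E1 (f e) := by
  unfold Ex E1 W
  rw [prod_univ_sum, Fintype.piFinset_univ]
  exact sum_congr rfl fun x _ => by rw [prod_mul_distrib]

lemma Ex_const (c : ℝ) : π.Ex (fun _ : E → Λ => c) = c := by
  have := π.Ex_prod_univ (E := E) (fun _ _ => 1)
  simp only [prod_const_one, E1_const] at this
  unfold Ex at this ⊢
  simp only [mul_one] at this
  rw [← sum_mul, this, one_mul]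

lemma Ex_congr {f g : (E → Λ) → ℝ} (h : ∀ x, f x = g x) : π.Ex f = π.Ex g := by rw [funext h]

lemma Ex_mono {f g : (E → Λ) → ℝ} (h : ∀ x, f x ≤ g x) : π.Ex f ≤ π.Ex g :=
  sum_le_sum fun x _ => mul_le_mul_of_nonneg_left (h x) (π.W_nonneg x)

lemma Ex_nonneg {f : (E → Λ) → ℝ} (h : ∀ x, 0 ≤ f x) : 0 ≤ π.Ex f :=
  sum_nonneg fun x _ => mul_nonneg (π.W_nonneg x) (h x)

lemma Ex_add (f g : (E → Λ) → ℝ) : π.Ex (fun x => f x + g x) = π.Ex f + π.Ex g := by
  simp only [Ex, mul_add, sum_add_distrib]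

lemma Ex_mul_left (c : ℝ) (f : (E → Λ) → ℝ) : π.Ex (fun x => c * f x) = c * π.Ex f := by
  simp only [Ex, mul_sum]
  exact sum_congr rfl fun _ _ => by ring

lemma Ex_sum {ι : Type} (s : Finset ι) (f : ι → (E → Λ) → ℝ) :
    π.Ex (fun x => ∑ i ∈ s, f i x) = ∑ i ∈ s, π.Ex (f i) := by
  simp only [Ex, mul_sum]
  rw [sum_comm]

lemma Ex_prod {ι : Type} (s : Finset ι) (e : ι → E) (he : Set.InjOn e s) (f : ι → Λ → ℝ) :
    π.Ex (fun x => ∏ i ∈ s, f i (x (e i))) = ∏ i ∈ s, π.E1 (f i) := by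
  set g : E → Λ → ℝ := fun j a => ∏ i ∈ s.filter (fun i => e i = j), f i a with hg
  have h1 : ∀ x : E → Λ, ∏ i ∈ s, f i (x (e i)) = ∏ j, g j (x j) := by
    intro x
    rw [← prod_fiberwise s e]
    apply prod_congr rfl; intro j _
    apply prod_congr rfl; intro i hi
    rw [(mem_filter.1 hi).2]
  rw [π.Ex_congr h1, Ex_prod_univ, ← prod_fiberwise s e]
  apply prod_congr rfl; intro j _
  by_cases h : ∃ i ∈ s, e i = j
  · obtain ⟨i, hi, rfl⟩ := h
    have : s.filter (fun k => e k = e i) = {i} := by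
      ext k
      simp only [mem_filter, mem_singleton]
      exact ⟨fun h => he h.1 hi h.2, fun h => by rw [h]; exact ⟨hi, rfl⟩⟩
    simp only [hg, this, prod_singleton]
  · have : s.filter (fun k => e k = j) = ∅ := by
      rw [filter_eq_empty_iff]; intro k hk e; exact h ⟨k, hk, e⟩
    simp only [hg, this, prod_empty, E1_const]

lemma Ex_indep (I : Set E) {f g : (E → Λ) → ℝ}
    (hf : ∀ x y : E → Λ, (∀ e ∈ I, x e = y e) → f x = f y)
    (hg : ∀ x y : E → Λ, (∀ e ∉ I, x e = y e) → g x = g y) :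
    π.Ex (fun x => f x * g x) = π.Ex f * π.Ex g := by
  have h1 : π.Ex (fun x => f x * g x) = ∑ z : (E → Λ) × (E → Λ),
      π.W z.1 * π.W z.2 * (f z.1 * g z.1) := by
    rw [← univ_product_univ, sum_product]
    apply sum_congr rfl; intro x _
    have := π.Ex_const (E := E) (π.W x * (f x * g x))
    rw [← this, Ex]
    exact sum_congr rfl fun y _ => by ring
  have h2 : π.Ex f * π.Ex g = ∑ z : (E → Λ) × (E → Λ), π.W z.1 * π.W z.2 * (f z.1 * g z.2) := by
    rw [Ex, Ex, sum_mul_sum, ← univ_product_univ, sum_product]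
    apply sum_congr rfl; intro x _
    exact sum_congr rfl fun y _ => by ring
  rw [h1, h2]
  set σ : (E → Λ) × (E → Λ) → (E → Λ) × (E → Λ) := fun z =>
    (fun e => if e ∈ I then z.1 e else z.2 e, fun e => if e ∈ I then z.2 e else z.1 e) with hσ
  have hinv : Function.Involutive σ := by
    rintro ⟨x, y⟩
    simp only [hσ, Prod.mk.injEq]
    constructor <;> funext e <;> split_ifs <;> rfl
  rw [← hinv.bijective.sum_comp]
  apply sum_congr rfl
  rintro ⟨x, y⟩ _
  simp only [hσ]
  congr 1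
  · unfold W
    rw [← prod_mul_distrib, ← prod_mul_distrib]
    apply prod_congr rfl; intro e _
    by_cases he : e ∈ I
    · simp only [he, if_true]
    · simp only [he, if_false]; ring
  · congr 1
    · exact hf _ _ fun e he => by simp [he]
    · exact hg _ _ fun e he => by simp [he]

lemma Pr_nonneg (A : (E → Λ) → Prop) : 0 ≤ π.Pr A := π.Ex_nonneg fun _ => ind_nonneg _

lemma Pr_le_one (A : (E → Λ) → Prop) : π.Pr A ≤ 1 :=
  (π.Ex_mono fun _ => ind_le_one _).trans (π.Ex_const 1).le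

lemma Pr_mono {A B : (E → Λ) → Prop} (h : ∀ x, A x → B x) : π.Pr A ≤ π.Pr B :=
  π.Ex_mono fun x => ind_mono (h x)

lemma Pr_congr {A B : (E → Λ) → Prop} (h : ∀ x, A x ↔ B x) : π.Pr A = π.Pr B :=
  π.Ex_congr fun x => ind_congr (h x)

lemma Pr_of_false {A : (E → Λ) → Prop} (h : ∀ x, ¬ A x) : π.Pr A = 0 := by
  rw [Pr, π.Ex_congr (g := fun _ => 0) fun x => ind_of_not (h x), Ex_const]

lemma Pr_not (A : (E → Λ) → Prop) : π.Pr (fun x => ¬ A x) = 1 - π.Pr A := by
  have : π.Pr (fun x => ¬ A x) + π.Pr A = 1 := by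
    rw [Pr, Pr, ← Ex_add, π.Ex_congr (g := fun _ => 1) fun x => by rw [ind_not]; ring, Ex_const]
  linarith

lemma Pr_le_add {A B C : (E → Λ) → Prop} (h : ∀ x, A x → B x ∨ C x) :
    π.Pr A ≤ π.Pr B + π.Pr C := by
  rw [Pr, Pr, Pr, ← Ex_add]
  apply π.Ex_mono; intro x
  by_cases hA : A x
  · rw [ind_of hA]
    rcases h x hA with h | h
    · rw [ind_of h]; linarith [ind_nonneg (C x)]
    · rw [ind_of h]; linarith [ind_nonneg (B x)]
  · rw [ind_of_not hA]; exact add_nonneg (ind_nonneg _) (ind_nonneg _)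

lemma Pr_le_sum {ι : Type} (s : Finset ι) {A : (E → Λ) → Prop} (B : ι → (E → Λ) → Prop)
    (h : ∀ x, A x → ∃ i ∈ s, B i x) : π.Pr A ≤ ∑ i ∈ s, π.Pr (B i) := by
  unfold Pr
  rw [← Ex_sum]
  apply π.Ex_mono; intro x
  by_cases hA : A x
  · obtain ⟨i, hi, hB⟩ := h x hA
    rw [ind_of hA, ← ind_of hB]
    exact single_le_sum (f := fun i => ind (B i x)) (fun _ _ => ind_nonneg _) hi
  · rw [ind_of_not hA]; exact sum_nonneg fun _ _ => ind_nonneg _

lemma Pr_le_card_mul {ι : Type} (s : Finset ι) {A : (E → Λ) → Prop} (B : ι → (E → Λ) → Prop)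
    (h : ∀ x, A x → ∃ i ∈ s, B i x) {c : ℝ} (hc : ∀ i ∈ s, π.Pr (B i) ≤ c) :
    π.Pr A ≤ s.card * c :=
  (π.Pr_le_sum s B h).trans (by simpa using sum_le_card_nsmul s _ c hc)

lemma markov {A : (E → Λ) → Prop} {f : (E → Λ) → ℝ} {K : ℝ} (h0 : ∀ x, 0 ≤ f x)
    (h : ∀ x, A x → K ≤ f x) : K * π.Pr A ≤ π.Ex f := by
  rw [Pr, ← Ex_mul_left]
  apply π.Ex_mono; intro x
  by_cases hA : A x
  · rw [ind_of hA, mul_one]; exact h x hA
  · rw [ind_of_not hA, mul_zero]; exact h0 x

lemma markov' {A : (E → Λ) → Prop} {f : (E → Λ) → ℝ} {K c : ℝ} (hK : 0 < K) (h0 : ∀ x, 0 ≤ f x)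
    (h : ∀ x, A x → K ≤ f x) (hc : π.Ex f ≤ c) : π.Pr A ≤ c / K := by
  rw [le_div_iff₀ hK, mul_comm]
  exact (π.markov h0 h).trans hc

lemma sum_Pr_fiber {Y : Type} [Fintype Y] (F : (E → Λ) → Y) (A : (E → Λ) → Prop) :
    ∑ y, π.Pr (fun x => F x = y ∧ A x) = π.Pr A := by
  unfold Pr
  rw [← Ex_sum]
  apply π.Ex_congr; intro x
  rw [sum_eq_single (F x)]
  · simp
  · intro y _ hy; exact ind_of_not fun h => hy h.1.symm
  · simp

lemma sum_Pr_fiber_le {Y : Type} [Fintype Y] (F : (E → Λ) → Y) :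
    ∑ y, π.Pr (fun x => F x = y) ≤ 1 := by
  have := π.sum_Pr_fiber F (fun _ => True)
  simp only [and_true] at this
  rw [this]; exact π.Pr_le_one _

lemma Pr_indep (I : Set E) {A B : (E → Λ) → Prop}
    (hA : ∀ x y : E → Λ, (∀ e ∈ I, x e = y e) → A x → A y)
    (hB : ∀ x y : E → Λ, (∀ e ∉ I, x e = y e) → B x → B y) :
    π.Pr (fun x => A x ∧ B x) = π.Pr A * π.Pr B := by
  unfold Pr
  rw [← π.Ex_indep I]
  · exact π.Ex_congr fun x => ind_and _ _
  · intro x y h; exact ind_congr ⟨hA x y h, hA y x fun e he => (h e he).symm⟩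
  · intro x y h; exact ind_congr ⟨hB x y h, hB y x fun e he => (h e he).symm⟩

/-- Conditioning on an event that only asks the coordinates in `e '' s` to avoid `O`. -/
lemma tilt {ι : Type} (s : Finset ι) (e : ι → E) (he : Set.InjOn e s) (O : Set Λ)
    {A : (E → Λ) → Prop} (hA1 : ∀ x, A x → ∀ i ∈ s, x (e i) ∉ O)
    (hA2 : ∀ x y : E → Λ, (∀ j, (∀ i ∈ s, e i ≠ j) → x j = y j) → (∀ i ∈ s, y (e i) ∉ O) →
      A x → A y)
    {φ : Λ → ℝ} (hφ : ∀ a, 0 ≤ φ a) {ρ : ℝ}
    (hρ : π.E1 (fun a => ind (a ∉ O) * φ a) ≤ ρ * (1 - π.m O)) :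
    π.Ex (fun x => ind (A x) * ∏ i ∈ s, φ (x (e i))) ≤ ρ ^ s.card * π.Pr A := by
  set A' : (E → Λ) → Prop := fun x => ∃ y, (∀ j, (∀ i ∈ s, e i ≠ j) → y j = x j) ∧ A y with hA'
  have h1 : ∀ x, ind (A x) = ind (A' x) * ∏ i ∈ s, ind (x (e i) ∉ O) := by
    intro x
    rw [← ind_forall, ← ind_and]
    exact ind_congr ⟨fun h => ⟨⟨x, fun _ _ => rfl, h⟩, hA1 x h⟩,
      fun ⟨⟨y, hy, hA⟩, h⟩ => hA2 y x hy h hA⟩
  have key : ∀ f : Λ → ℝ, π.Ex (fun x => ind (A' x) * ∏ i ∈ s, f (x (e i))) =
      π.Pr A' * π.E1 f ^ s.card := by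
    intro f
    rw [π.Ex_indep {j | ∀ i ∈ s, e i ≠ j}, π.Ex_prod s e he (fun _ => f), prod_const, Pr]
    · intro x y h
      exact ind_congr ⟨fun ⟨z, hz, hA⟩ => ⟨z, fun j hj => (hz j hj).trans (h j hj), hA⟩,
        fun ⟨z, hz, hA⟩ => ⟨z, fun j hj => (hz j hj).trans (h j hj).symm, hA⟩⟩
    · intro x y h
      apply prod_congr rfl; intro i hi
      rw [h (e i) fun h' => h' i hi rfl]
  have h2 : π.Pr A = π.Pr A' * (1 - π.m O) ^ s.card := by
    rw [← E1_not, ← key, Pr]; exact π.Ex_congr h1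
  have h3 : π.Ex (fun x => ind (A x) * ∏ i ∈ s, φ (x (e i))) =
      π.Pr A' * π.E1 (fun a => ind (a ∉ O) * φ a) ^ s.card := by
    rw [← key]
    apply π.Ex_congr; intro x
    rw [h1, prod_mul_distrib, mul_assoc]
  rw [h2, h3, mul_left_comm, ← mul_pow]
  apply mul_le_mul_of_nonneg_left _ (π.Pr_nonneg _)
  exact pow_le_pow_left₀ (π.E1_nonneg fun a => mul_nonneg (ind_nonneg _) (hφ a)) hρ _

end PV

end Pool.Agent.MP_f8cd8e_pr

end MrgPart2

-- ======== part 3: formerly Pool.Agent.MP_f8cd8e_pr.Paths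
section MrgPart3

/-! First moment bounds over paths, the dual bound, and one-arm estimates. -/

open scoped Classical
open Finset

namespace Pool.Agent.MP_f8cd8e_pr

variable {V Λ : Type} [Fintype V] [Fintype Λ] (π : PV Λ)

noncomputable def QS (A U : Finset V) (L : ℕ) : Finset (Fin (L + 1) → V) :=
  (Fintype.piFinset (fun i : Fin (L + 1) => if i = 0 then A else U)).filter Function.Injective

noncomputable def pw (ψ : Λ → ℝ) (x : Sym2 V → Λ) {L : ℕ} (q : Fin (L + 1) → V) : ℝ :=
  ∏ i : Fin L, ψ (x s(q i.castSucc, q i.succ))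

omit [Fintype V] in
lemma card_QS (A U : Finset V) (L : ℕ) : (QS A U L).card ≤ A.card * U.card ^ L := by
  refine (card_filter_le _ _).trans (le_of_eq ?_)
  rw [Fintype.card_piFinset, Fin.prod_univ_succ]
  simp [Fin.succ_ne_zero]

lemma Ex_pw (ψ : Λ → ℝ) {L : ℕ} {q : Fin (L + 1) → V} (hq : Function.Injective q) :
    π.Ex (fun x : Sym2 V → Λ => pw ψ x q) = π.E1 ψ ^ L := by
  unfold pw
  rw [π.Ex_prod univ (fun i : Fin L => s(q i.castSucc, q i.succ)) ?_ (fun _ => ψ)]
  · simp
  · intro i _ j _ e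
    simp only [Sym2.eq_iff] at e
    rcases e with ⟨e, -⟩ | ⟨e1, e2⟩
    · exact Fin.castSucc_injective _ (hq e)
    · have h1 := congrArg Fin.val (hq e1)
      have h2 := congrArg Fin.val (hq e2)
      simp only [Fin.val_castSucc, Fin.val_succ] at h1 h2
      omega

lemma moment {ψ : Λ → ℝ} (hψ : ∀ a, 0 ≤ ψ a) (A U : Finset V) (L : ℕ) :
    π.Ex (fun x : Sym2 V → Λ => ∑ q ∈ QS A U L, pw ψ x q) ≤
      A.card * (U.card * π.E1 ψ) ^ L := by
  rw [π.Ex_sum, sum_congr rfl fun q (hq : q ∈ QS A U L) => Ex_pw π ψ (mem_filter.1 hq).2,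
    sum_const, nsmul_eq_mul, mul_pow, ← mul_assoc]
  apply mul_le_mul_of_nonneg_right _ (pow_nonneg (π.E1_nonneg hψ) _)
  exact_mod_cast card_QS A U L

omit [Fintype V] [Fintype Λ] in
lemma mem_QS {A U : Finset V} {L : ℕ} {p : ℕ → V} (hinj : Set.InjOn p (Set.Iic L))
    (h0 : p 0 ∈ A) (hU : ∀ i < L, p (i + 1) ∈ U) : (fun i : Fin (L + 1) => p i) ∈ QS A U L := by
  simp only [QS, mem_filter, Fintype.mem_piFinset]
  refine ⟨fun i => ?_, fun i j e => Fin.ext (hinj (Nat.lt_succ_iff.1 i.2) (Nat.lt_succ_iff.1 j.2) e)⟩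
  induction i using Fin.cases with
  | zero => simpa using h0
  | succ i => simpa [Fin.succ_ne_zero] using hU i i.2

omit [Fintype V] [Fintype Λ] in
lemma pw_eq (ψ : Λ → ℝ) (x : Sym2 V → Λ) (L : ℕ) (p : ℕ → V) :
    pw ψ x (fun i : Fin (L + 1) => p i) = ∏ i ∈ range L, ψ (x s(p i, p (i + 1))) := by
  unfold pw
  exact Fin.prod_univ_eq_prod_range (fun i => ψ (x s(p i, p (i + 1)))) L

omit [Fintype V] [Fintype Λ] in
lemma pw_nonneg {ψ : Λ → ℝ} (hψ : ∀ a, 0 ≤ ψ a) (x : Sym2 V → Λ) {L : ℕ}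
    (q : Fin (L + 1) → V) : 0 ≤ pw ψ x q := prod_nonneg fun _ _ => hψ _

lemma Pr_path {ψ : Λ → ℝ} (hψ : ∀ a, 0 ≤ ψ a) (U : Finset V) (L : ℕ) {K : ℝ} (hK : 0 < K)
    {A : (Sym2 V → Λ) → Prop}
    (hA : ∀ x, A x → ∃ p : ℕ → V, Set.InjOn p (Set.Iic L) ∧ (∀ i < L, p (i + 1) ∈ U) ∧
      K ≤ ∏ i ∈ range L, ψ (x s(p i, p (i + 1)))) :
    π.Pr A ≤ Fintype.card V * (U.card * π.E1 ψ) ^ L / K := by
  refine π.markov' hK (fun x => sum_nonneg fun q _ => pw_nonneg hψ x q) ?_
    (moment π hψ univ U L)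
  intro x hx
  obtain ⟨p, h1, h2, h3⟩ := hA x hx
  rw [← pw_eq] at h3
  exact h3.trans (single_le_sum (f := fun q => pw ψ x q) (fun q _ => pw_nonneg hψ x q)
    (mem_QS h1 (mem_univ _) h2))

lemma Pr_not_noPath (O : Set Λ) (U : Finset V) (L : ℕ) :
    π.Pr (fun x : Sym2 V → Λ => ¬ NoPath (On (Gr x O) U) L) ≤
      Fintype.card V * (U.card * π.m O) ^ L := by
  have := Pr_path π (ψ := fun a => ind (a ∈ O)) (fun _ => ind_nonneg _) U L one_pos
    (A := fun x : Sym2 V → Λ => ¬ NoPath (On (Gr x O) U) L) ?_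
  · rwa [div_one] at this
  · intro x hx
    simp only [NoPath, not_forall, not_not] at hx
    obtain ⟨p, hp⟩ := hx
    refine ⟨p, hp.1, fun i hi => (hp.2 i hi).2.2, ?_⟩
    rw [prod_eq_one fun i hi => ind_of (hp.2 i (mem_range.1 hi)).1.2]

theorem Pr_not_fewOut {O₁ O₂ : Set Λ} (h : O₁ ⊆ O₂) {z M : ℝ} (hz : 1 ≤ z) (hM : 1 ≤ M)
    (hm : Fintype.card V * (π.m O₁ + z * (π.m O₂ - π.m O₁)) ≤ M) (L j : ℕ) :
    π.Pr (fun x : Sym2 V → Λ => ¬ FewOut (Gr x O₁) (Gr x O₂) L j) ≤
      (L + 1) * (Fintype.card V * M ^ L / z ^ j) := by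
  set ψ : Λ → ℝ := fun a => if a ∈ O₁ then 1 else if a ∈ O₂ then z else 0 with hψ
  have hψ0 : ∀ a, 0 ≤ ψ a := fun a => by simp only [hψ]; split_ifs <;> linarith
  have hE : π.E1 ψ = π.m O₁ + z * (π.m O₂ - π.m O₁) := by rw [hψ, π.E1_three h]; ring
  have := π.Pr_le_card_mul (range (L + 1))
    (A := fun x : Sym2 V → Λ => ¬ FewOut (Gr x O₁) (Gr x O₂) L j)
    (fun k x => ∃ p, PathFn (Gr x O₂) p k ∧
      j ≤ ((range k).filter (fun i => ¬ (Gr x O₁).Adj (p i) (p (i + 1)))).card) ?_
    (c := Fintype.card V * M ^ L / z ^ j) ?_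
  · simpa using this
  · intro x hx
    simp only [FewOut, not_forall, not_lt] at hx
    obtain ⟨p, k, hk, hp, hj⟩ := hx
    exact ⟨k, mem_range.2 (by omega), p, hp, hj⟩
  · intro k hk
    refine (Pr_path π hψ0 univ k (K := z ^ j) (by positivity) ?_).trans ?_
    · rintro x ⟨p, hp, hj⟩
      refine ⟨p, hp.1, fun _ _ => mem_univ _, (pow_le_pow_right₀ hz hj).trans (le_of_eq ?_)⟩
      rw [← prod_exp_ind]
      apply prod_congr rfl
      intro i hi
      have := hp.2 i (mem_range.1 hi)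
      simp only [Gr_adj] at this
      by_cases h1 : x s(p i, p (i + 1)) ∈ O₁ <;> simp [hψ, h1, this.1, this.2]
    · rw [card_univ, hE]
      have h0 : 0 ≤ Fintype.card V * (π.m O₁ + z * (π.m O₂ - π.m O₁)) := by
        rw [← hE]; exact mul_nonneg (Nat.cast_nonneg _) (π.E1_nonneg hψ0)
      have : (Fintype.card V * (π.m O₁ + z * (π.m O₂ - π.m O₁))) ^ k ≤ M ^ L :=
        (pow_le_pow_left₀ h0 hm k).trans (pow_le_pow_right₀ hM (by
          have := mem_range.1 hk; omega))
      gcongr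

omit [Fintype Λ] in
lemma Cl_congr {G G' : SimpleGraph V} {v : V} {W : Finset V} (h : Cl G v = W)
    (hG : ∀ a ∈ W, ∀ b, G.Adj a b ↔ G'.Adj a b) : Cl G' v = W := by
  have hv : v ∈ W := h ▸ self_mem_Cl G v
  have hcl : ∀ a ∈ W, ∀ b, G.Adj a b → b ∈ W := fun a ha b hab => by
    rw [← h] at ha ⊢; exact mem_Cl.2 ((mem_Cl.1 ha).trans hab.reachable)
  ext y
  rw [mem_Cl]
  constructor
  · exact reach_closed (W := (W : Set V)) (fun a ha b hab => hcl a ha b ((hG a ha b).2 hab)) hv
  · intro hy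
    rw [← h, mem_Cl] at hy
    have : y ∈ {y | y ∈ W ∧ G'.Reachable v y} := by
      refine reach_closed ?_ ⟨hv, SimpleGraph.Reachable.refl _⟩ hy
      rintro a ⟨ha, hr⟩ b hab
      exact ⟨hcl a ha b hab, hr.trans ((hG a ha b).1 hab).reachable⟩
    exact this.2

omit [Fintype V] [Fintype Λ] in
lemma On_Gr_congr {x y : Sym2 V → Λ} {O : Set Λ} {U : Finset V}
    (h : ∀ a ∈ U, ∀ b ∈ U, x s(a, b) = y s(a, b)) : On (Gr x O) U = On (Gr y O) U := by
  ext a b
  simp only [On_adj, Gr_adj]
  constructor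
  · rintro ⟨⟨h1, h2⟩, ha, hb⟩; exact ⟨⟨h1, h a ha b hb ▸ h2⟩, ha, hb⟩
  · rintro ⟨⟨h1, h2⟩, ha, hb⟩; exact ⟨⟨h1, (h a ha b hb).symm ▸ h2⟩, ha, hb⟩

theorem Pr_dual (O₁ O₂ : Set Λ) {w θ : ℝ} (hθ : (Fintype.card V - w) * π.m O₂ ≤ θ) (L : ℕ) :
    π.Pr (fun x : Sym2 V → Λ => ∃ v, w ≤ (Cl (Gr x O₁) v).card ∧
      ¬ NoPath (On (Gr x O₂) (Cl (Gr x O₁) v)ᶜ) L) ≤
      Fintype.card V * (Fintype.card V * |θ| ^ L) := by
  rw [← card_univ]
  refine π.Pr_le_card_mul univ (fun v x => w ≤ (Cl (Gr x O₁) v).card ∧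
      ¬ NoPath (On (Gr x O₂) (Cl (Gr x O₁) v)ᶜ) L) (fun x ⟨v, hv⟩ => ⟨v, mem_univ _, hv⟩) ?_
  intro v _
  rw [← π.sum_Pr_fiber (fun x : Sym2 V → Λ => Cl (Gr x O₁) v)]
  have hb : (0 : ℝ) ≤ (univ : Finset V).card * |θ| ^ L := by positivity
  calc _ ≤ ∑ W : Finset V, π.Pr (fun x : Sym2 V → Λ => Cl (Gr x O₁) v = W) *
          ((univ : Finset V).card * |θ| ^ L) := by
        apply sum_le_sum
        intro W _
        by_cases hw : w ≤ W.card
        · calc _ ≤ π.Pr (fun x : Sym2 V → Λ => Cl (Gr x O₁) v = W ∧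
                  ¬ NoPath (On (Gr x O₂) Wᶜ) L) :=
                π.Pr_mono fun x ⟨h1, _, h3⟩ => ⟨h1, h1 ▸ h3⟩
            _ = _ := π.Pr_indep {e | ∃ a ∈ W, a ∈ e} ?_ ?_
            _ ≤ _ := by
                apply mul_le_mul_of_nonneg_left _ (π.Pr_nonneg _)
                refine (Pr_not_noPath π O₂ Wᶜ L).trans ?_
                rw [card_univ]
                apply mul_le_mul_of_nonneg_left _ (Nat.cast_nonneg _)
                apply pow_le_pow_left₀ (mul_nonneg (Nat.cast_nonneg _) (π.m_nonneg _))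
                refine le_trans ?_ (hθ.trans (le_abs_self _))
                apply mul_le_mul_of_nonneg_right _ (π.m_nonneg _)
                rw [card_compl, Nat.cast_sub (card_le_univ W)]
                linarith
          · intro x y hxy h
            refine Cl_congr h fun a ha b => ?_
            simp only [Gr_adj, hxy s(a, b) ⟨a, ha, Sym2.mem_mk_left _ _⟩]
          · intro x y hxy h
            rwa [← On_Gr_congr (x := x)]
            intro a ha b hb
            apply hxy
            rintro ⟨c, hc, hce⟩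
            rcases Sym2.mem_iff.1 hce with rfl | rfl
            · exact mem_compl.1 ha hc
            · exact mem_compl.1 hb hc
        · rw [π.Pr_of_false]
          · exact mul_nonneg (π.Pr_nonneg _) hb
          · rintro x ⟨h1, h2, -⟩
            exact hw (h1 ▸ h2)
    _ ≤ _ := by
        rw [← sum_mul]
        exact mul_le_of_le_one_left hb (π.sum_Pr_fiber_le _)

lemma Pr_all_closed {ι : Type} (s : Finset ι) (e : ι → Sym2 V) (he : Set.InjOn e s) (O : Set Λ) :
    π.Pr (fun x : Sym2 V → Λ => ∀ i ∈ s, x (e i) ∉ O) = (1 - π.m O) ^ s.card := by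
  rw [PV.Pr, π.Ex_congr fun x => ind_forall s _, π.Ex_prod s e he (fun _ a => ind (a ∉ O)),
    prod_const, π.E1_not]

/-- One-arm estimate. -/
theorem Pr_arm (O : Set Λ) {ρ : ℝ} (hρ : 1 ≤ ρ) (hm : π.m O < 1)
    (hn : Fintype.card V * π.m O ≤ ρ * (1 - π.m O)) (l : ℕ) (U : Finset V) (v : V) :
    π.Pr (fun x : Sym2 V → Λ => Arm (On (Gr x O) U) v l) ≤ 2 * ρ ^ l / (l + 2) := by
  induction l generalizing U v with
  | zero => simpa using π.Pr_le_one _
  | succ l ih =>
    set m := π.m O with hmdef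
    have hm0 : 0 ≤ m := π.m_nonneg O
    set Y : (Sym2 V → Λ) → Finset V := fun x =>
      univ.filter (fun w => w ≠ v ∧ Arm (On (Gr x O) (U.erase v)) w l) with hY
    set b : ℝ := 2 * ρ ^ l / (l + 2) with hb
    have hb0 : 0 < b := by positivity
    have h1 : π.Pr (fun x : Sym2 V → Λ => Arm (On (Gr x O) U) v (l + 1)) ≤
        1 - π.Pr (fun x : Sym2 V → Λ => ∀ w ∈ Y x, x s(v, w) ∉ O) := by
      rw [← π.Pr_not]
      apply π.Pr_mono
      rintro x ⟨p, h0, hp⟩ hall
      have hne : ∀ i ≤ l, p (1 + i) ≠ v := fun i hi =>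
        h0 ▸ hp.ne (by omega) (Nat.zero_le _) (by omega)
      refine hall (p 1) ?_ (h0 ▸ (hp.2 0 (by omega)).1.2)
      simp only [hY, mem_filter, mem_univ, true_and]
      refine ⟨hne 0 (Nat.zero_le _), fun i => p (1 + i), rfl,
        (hp.sub 1 l (by omega)).of_adj fun i hi => ?_⟩
      have := hp.2 (1 + i) (by omega)
      exact ⟨this.1, mem_erase.2 ⟨hne i hi.le, this.2.1⟩,
        mem_erase.2 ⟨hne (i + 1) (by omega), this.2.2⟩⟩
    have h2 : π.Pr (fun x : Sym2 V → Λ => ∀ w ∈ Y x, x s(v, w) ∉ O) =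
        π.Ex (fun x => (1 - m) ^ (Y x).card) := by
      rw [← π.sum_Pr_fiber Y]
      have : ∀ x, (1 - m) ^ (Y x).card = ∑ Y₀ : Finset V, (1 - m) ^ Y₀.card * ind (Y x = Y₀) := by
        intro x
        rw [sum_eq_single (Y x)]
        · rw [ind_of rfl, mul_one]
        · intro y _ hy; rw [ind_of_not (Ne.symm hy), mul_zero]
        · simp
      rw [π.Ex_congr this, π.Ex_sum]
      apply sum_congr rfl
      intro Y₀ _
      rw [π.Ex_mul_left, ← Pr_all_closed π Y₀ (fun w => s(v, w))
        (fun a _ b _ e => Sym2.congr_right.1 e) O, mul_comm, ← PV.Pr,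
        ← π.Pr_indep {e | v ∉ e}]
      · exact π.Pr_congr fun x => ⟨fun ⟨h1, h2⟩ => ⟨h1, h1 ▸ h2⟩, fun ⟨h1, h2⟩ => ⟨h1, h1 ▸ h2⟩⟩
      · intro x y hxy h
        rw [← h]
        simp only [hY]
        rw [On_Gr_congr (x := x) (y := y)]
        intro a ha b hb
        apply hxy
        intro hv
        rcases Sym2.mem_iff.1 hv with rfl | rfl
        · exact notMem_erase _ _ ha
        · exact notMem_erase _ _ hb
      · intro x y hxy h w hw
        rw [← hxy s(v, w) (by simp)]
        exact h w hw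
    have h3 : π.Ex (fun x => ((Y x).card : ℝ)) ≤ Fintype.card V * b := by
      have : ∀ x, ((Y x).card : ℝ) ≤ ∑ w, ind (Arm (On (Gr x O) (U.erase v)) w l) := by
        intro x
        simp only [hY]
        rw [← sum_ind]
        exact sum_le_sum fun w _ => ind_mono fun h => h.2
      refine (π.Ex_mono this).trans ?_
      rw [π.Ex_sum]
      simpa [PV.Pr] using sum_le_card_nsmul univ _ b fun w _ => ih (U.erase v) w
    set a := m / (1 - m) with ha
    have ha0 : 0 ≤ a := div_nonneg hm0 (by linarith)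
    set w := ρ * b with hw
    have hw0 : 0 < w := by positivity
    have h4 : ∀ k : ℕ, Real.exp (-w) * (1 + w) + (-(Real.exp (-w) * a)) * k ≤ (1 - m) ^ k := by
      intro k
      have e1 : Real.exp (-a) ≤ 1 - m := by
        rw [Real.exp_neg, inv_le_comm₀ (Real.exp_pos _) (by linarith)]
        refine le_trans (le_of_eq ?_) (Real.add_one_le_exp a)
        have : 1 - m ≠ 0 := by linarith
        rw [ha]; field_simp; ring
      calc _ = Real.exp (-w) * ((w - a * k) + 1) := by ring
        _ ≤ Real.exp (-w) * Real.exp (w - a * k) := by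
            gcongr; exact Real.add_one_le_exp _
        _ = Real.exp (-a) ^ k := by rw [← Real.exp_add, ← Real.exp_nat_mul]; congr 1; ring
        _ ≤ _ := pow_le_pow_left₀ (Real.exp_pos _).le e1 k
    have h5 : Real.exp (-w) ≤ π.Ex (fun x => (1 - m) ^ (Y x).card) := by
      refine le_trans ?_ (π.Ex_mono fun x => h4 (Y x).card)
      rw [π.Ex_add, π.Ex_const, π.Ex_mul_left]
      have e1 : a * (Fintype.card V * b) ≤ w := by
        rw [ha, hw, div_mul_eq_mul_div, div_le_iff₀ (by linarith)]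
        nlinarith
      have e2 := mul_le_mul_of_nonneg_left h3 ha0
      nlinarith [Real.exp_pos (-w)]
    have h6 : 1 - Real.exp (-w) ≤ 2 * w / (2 + w) := by
      have : (2 - w) / (2 + w) ≤ Real.exp (-w) := by
        rcases lt_or_ge w 2 with h | h
        · rw [Real.exp_neg, le_inv_comm₀ (div_pos (by linarith) (by linarith)) (Real.exp_pos _),
            inv_div]
          exact Real.exp_le_two_add_div_two_sub hw0.le h
        · exact (div_nonpos_of_nonpos_of_nonneg (by linarith) (by linarith)).trans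
            (Real.exp_pos _).le
      have e : 2 * w / (2 + w) = 1 - (2 - w) / (2 + w) := by field_simp; ring
      linarith
    refine h1.trans ?_
    rw [h2]
    refine le_trans (by linarith) (h6.trans ?_)
    have hP : 1 ≤ ρ ^ (l + 1) := one_le_pow₀ hρ
    have e : w = 2 * ρ ^ (l + 1) / (l + 2) := by rw [hw, hb, pow_succ]; ring
    rw [e]
    push_cast
    rw [div_le_div_iff₀ (by positivity) (by positivity)]
    field_simp
    nlinarith

omit [Fintype Λ] in
lemma On_univ (G : SimpleGraph V) : On G univ = G := by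
  ext a b; simp

/-- Truncated mean of the cluster size. -/
theorem Ex_min_Cl (O : Set Λ) {ρ : ℝ} (hρ : 1 ≤ ρ) (hm : π.m O < 1)
    (hn : Fintype.card V * π.m O ≤ ρ * (1 - π.m O)) (l s : ℕ) (v : V) :
    π.Ex (fun x : Sym2 V → Λ => (min (Cl (Gr x O) v).card s : ℕ)) ≤
      ρ ^ l * (2 * s / (l + 2) + l) := by
  have h1 : ∀ x : Sym2 V → Λ, ((min (Cl (Gr x O) v).card s : ℕ) : ℝ) ≤
      s * ind (Arm (On (Gr x O) univ) v l) +
        ∑ i ∈ range l, ∑ q ∈ QS {v} univ i, pw (fun a => ind (a ∈ O)) x q := by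
    intro x
    have h0 : 0 ≤ ∑ i ∈ range l, ∑ q ∈ QS {v} univ i, pw (fun a => ind (a ∈ O)) x q :=
      sum_nonneg fun _ _ => sum_nonneg fun q _ => pw_nonneg (fun _ => ind_nonneg _) x q
    by_cases h : Arm (On (Gr x O) univ) v l
    · rw [ind_of h, mul_one]
      have : ((min (Cl (Gr x O) v).card s : ℕ) : ℝ) ≤ s := by exact_mod_cast min_le_right _ _
      linarith
    · rw [ind_of_not h, mul_zero, zero_add]
      rw [On_univ] at h
      have e1 : ((min (Cl (Gr x O) v).card s : ℕ) : ℝ) ≤ ∑ y, ind (y ∈ Cl (Gr x O) v) := by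
        rw [sum_ind_mem]
        exact_mod_cast min_le_left _ _
      refine e1.trans ?_
      have e2 : ∀ y, ind (y ∈ Cl (Gr x O) v) ≤ ∑ i ∈ range l, ∑ q ∈ QS {v} univ i,
          pw (fun a => ind (a ∈ O)) x q * ind (q (Fin.last i) = y) := by
        intro y
        have hnn : ∀ i (q : Fin (i + 1) → V),
            0 ≤ pw (fun a => ind (a ∈ O)) x q * ind (q (Fin.last i) = y) := fun i q =>
          mul_nonneg (pw_nonneg (fun _ => ind_nonneg _) x q) (ind_nonneg _)
        by_cases hy : y ∈ Cl (Gr x O) v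
        · obtain ⟨p, h0, hk, hp⟩ := exists_pathFn (mem_Cl.1 hy)
          generalize (Gr x O).dist v y = k at hk hp
          have hkl : k < l := by
            by_contra hc
            exact h ⟨p, h0, hp.trunc (by omega)⟩
          rw [ind_of hy]
          refine le_trans ?_ (single_le_sum (f := fun i => ∑ q ∈ QS {v} univ i,
            pw (fun a => ind (a ∈ O)) x q * ind (q (Fin.last i) = y))
            (fun i _ => sum_nonneg fun q _ => hnn i q) (mem_range.2 hkl))
          refine le_trans ?_ (single_le_sum (f := fun q : Fin (k + 1) → V =>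
            pw (fun a => ind (a ∈ O)) x q * ind (q (Fin.last k) = y))
            (fun q _ => hnn k q) (mem_QS hp.1 (by simp [h0]) fun _ _ => mem_univ _))
          simp only [Fin.val_last]
          rw [pw_eq, ind_of hk, prod_eq_one fun i hi => ind_of (hp.2 i (mem_range.1 hi)).2, mul_one]
        · rw [ind_of_not hy]
          exact sum_nonneg fun i _ => sum_nonneg fun q _ => hnn i q
      refine (sum_le_sum fun y _ => e2 y).trans (le_of_eq ?_)
      rw [sum_comm]
      apply sum_congr rfl; intro i _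
      rw [sum_comm]
      apply sum_congr rfl; intro q _
      rw [← mul_sum]
      simp [ind]
  refine (π.Ex_mono h1).trans ?_
  rw [π.Ex_add, π.Ex_mul_left, π.Ex_sum, ← PV.Pr]
  have h2 := mul_le_mul_of_nonneg_left (Pr_arm π O hρ hm hn l univ v) (Nat.cast_nonneg s)
  have h3 : ∑ i ∈ range l, π.Ex (fun x : Sym2 V → Λ =>
      ∑ q ∈ QS {v} univ i, pw (fun a => ind (a ∈ O)) x q) ≤ l * ρ ^ l := by
    have := sum_le_card_nsmul (range l) (fun i => π.Ex (fun x : Sym2 V → Λ =>
      ∑ q ∈ QS {v} univ i, pw (fun a => ind (a ∈ O)) x q)) (ρ ^ l) ?_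
    · simpa using this
    · intro i hi
      refine (moment π (fun _ => ind_nonneg _) {v} univ i).trans ?_
      rw [card_singleton, Nat.cast_one, one_mul, card_univ]
      have h0 := π.m_nonneg O
      refine (pow_le_pow_left₀ (mul_nonneg (Nat.cast_nonneg _) h0) (b := ρ) ?_ i).trans
        (pow_le_pow_right₀ hρ (mem_range.1 hi).le)
      change _ * π.m O ≤ ρ
      nlinarith
  calc _ ≤ s * (2 * ρ ^ l / (l + 2)) + l * ρ ^ l := add_le_add h2 h3
    _ = _ := by ring

end Pool.Agent.MP_f8cd8e_pr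

end MrgPart3

-- ======== part 4: formerly Pool.Agent.MP_f8cd8e_pr.Binom
section MrgPart4

/-! Binomial domination of cluster sizes and its consequences. -/

open scoped Classical
open Finset

namespace Pool.Agent.MP_f8cd8e_pr

variable {V Λ : Type} [Fintype V] [Fintype Λ] (π : PV Λ)

lemma Pr_nbr (O : Set Λ) (j : V) (S N : Finset V) (hN : N ⊆ S) :
    π.Pr (fun x : Sym2 V → Λ => S.filter (fun y => x s(j, y) ∈ O) = N) =
      π.m O ^ N.card * (1 - π.m O) ^ (S.card - N.card) := by
  have h1 : ∀ x : Sym2 V → Λ, ind (S.filter (fun y => x s(j, y) ∈ O) = N) =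
      ∏ y ∈ S, ind (x s(j, y) ∈ O ↔ y ∈ N) := by
    intro x
    rw [← ind_forall]
    apply ind_congr
    constructor
    · rintro rfl y hy; simp [hy]
    · intro h; ext y
      simp only [mem_filter]
      exact ⟨fun ⟨h1, h2⟩ => (h y h1).1 h2, fun h1 => ⟨hN h1, (h y (hN h1)).2 h1⟩⟩
  rw [PV.Pr, π.Ex_congr h1, π.Ex_prod S (fun y => s(j, y))
    (fun a _ b _ e => Sym2.congr_right.1 e) (fun y a => ind (a ∈ O ↔ y ∈ N))]
  have h2 : ∀ y, π.E1 (fun a => ind (a ∈ O ↔ y ∈ N)) = if y ∈ N then π.m O else 1 - π.m O := by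
    intro y
    split_ifs with h
    · simp only [h, iff_true]; rfl
    · simp only [h, iff_false]; exact π.E1_not O
  simp only [h2]
  rw [prod_ite, prod_const, prod_const, filter_mem_eq_inter, inter_eq_right.2 hN, filter_not,
    filter_mem_eq_inter, inter_eq_right.2 hN, card_sdiff_of_subset hN]

lemma Pr_span (O : Set Λ) (W J : Finset V) (hJ : J ⊆ W) :
    π.Pr (fun x : Sym2 V → Λ => ∀ y ∈ W, ∃ j ∈ J, (On (Gr x O) W).Reachable j y) ≤
      (1 - (1 - π.m O) ^ W.card) ^ (W.card - J.card) := by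
  have hm0 := π.m_nonneg O
  have hm1 := π.m_le_one O
  have hq : ∀ k : ℕ, 0 ≤ 1 - (1 - π.m O) ^ k := fun k =>
    sub_nonneg.2 (pow_le_one₀ (by linarith) (by linarith))
  induction hw : W.card generalizing W J with
  | zero => simpa using π.Pr_le_one _
  | succ w ih =>
    rcases J.eq_empty_or_nonempty with rfl | ⟨j, hj⟩
    · obtain ⟨y, hy⟩ : W.Nonempty := card_pos.1 (by omega)
      rw [π.Pr_of_false]
      · exact pow_nonneg (hq _) _
      · intro x h; simpa using h y hy
    rw [← π.sum_Pr_fiber (fun x : Sym2 V → Λ => (W \ J).filter (fun y => x s(j, y) ∈ O))]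
    have hcard : (W \ J).card = w + 1 - J.card := by rw [card_sdiff_of_subset hJ, hw]
    rw [← sum_subset (subset_univ (W \ J).powerset)]
    · calc _ ≤ ∑ N ∈ (W \ J).powerset, π.m O ^ N.card *
            ((1 - π.m O) * (1 - (1 - π.m O) ^ w)) ^ ((W \ J).card - N.card) := by
            apply sum_le_sum
            intro N hN
            rw [mem_powerset] at hN
            have hsub : J.erase j ∪ N ⊆ W.erase j := by
              intro y hy
              rcases mem_union.1 hy with hy | hy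
              · exact erase_subset_erase _ hJ hy
              · have := mem_sdiff.1 (hN hy)
                exact mem_erase.2 ⟨fun e => this.2 (e ▸ hj), this.1⟩
            have hc : (J.erase j ∪ N).card = J.card - 1 + N.card := by
              rw [card_union_of_disjoint, card_erase_of_mem hj]
              rw [disjoint_left]
              intro y h1 h2
              exact (mem_sdiff.1 (hN h2)).2 (mem_of_mem_erase h1)
            have h1 := ih (W.erase j) _ hsub (by rw [card_erase_of_mem (hJ hj), hw]; rfl)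
            have h2 := Pr_nbr π O j (W \ J) N hN
            have hJ0 : 0 < J.card := card_pos.2 ⟨j, hj⟩
            rw [hc, show w - (J.card - 1 + N.card) = (W \ J).card - N.card by omega] at h1
            calc _ ≤ π.Pr (fun x : Sym2 V → Λ => (∀ y ∈ W.erase j, ∃ j' ∈ J.erase j ∪ N,
                      (On (Gr x O) (W.erase j)).Reachable j' y) ∧
                      (W \ J).filter (fun y => x s(j, y) ∈ O) = N) := by
                  apply π.Pr_mono
                  rintro x ⟨hx1, hx2⟩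
                  refine ⟨fun y hy => ?_, hx1⟩
                  obtain ⟨j', hj', hr⟩ := hx2 y (mem_of_mem_erase hy)
                  have : y ∈ {y | y = j ∨ ∃ j' ∈ J.erase j ∪ N,
                      (On (Gr x O) (W.erase j)).Reachable j' y} := by
                    refine reach_closed ?_ ?_ hr
                    · rintro a ha b ⟨hab, haW, hbW⟩
                      by_cases hbj : b = j
                      · exact Or.inl hbj
                      by_cases haj : a = j
                      · refine Or.inr ⟨b, ?_, SimpleGraph.Reachable.refl _⟩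
                        by_cases hbJ : b ∈ J
                        · exact mem_union_left _ (mem_erase.2 ⟨hbj, hbJ⟩)
                        · refine mem_union_right _ ?_
                          rw [← hx1]
                          exact mem_filter.2 ⟨mem_sdiff.2 ⟨hbW, hbJ⟩, haj ▸ hab.2⟩
                      · obtain ⟨j', hj', hr⟩ := ha.resolve_left haj
                        exact Or.inr ⟨j', hj', hr.trans (SimpleGraph.Adj.reachable
                          ⟨hab, mem_erase.2 ⟨haj, haW⟩, mem_erase.2 ⟨hbj, hbW⟩⟩)⟩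
                    · by_cases h : j' = j
                      · exact Or.inl h
                      · exact Or.inr ⟨j', mem_union_left _ (mem_erase.2 ⟨h, hj'⟩),
                          SimpleGraph.Reachable.refl _⟩
                  exact this.resolve_left (mem_erase.1 hy).1
              _ = _ := π.Pr_indep {e | j ∉ e} ?_ ?_
              _ ≤ (1 - (1 - π.m O) ^ w) ^ ((W \ J).card - N.card) *
                    (π.m O ^ N.card * (1 - π.m O) ^ ((W \ J).card - N.card)) := by
                  rw [h2]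
                  exact mul_le_mul_of_nonneg_right h1 (mul_nonneg (pow_nonneg hm0 _)
                    (pow_nonneg (by linarith) _))
              _ = _ := by rw [mul_pow]; ring
            · intro x y hxy h
              rwa [← On_Gr_congr (x := x)]
              intro a ha b hb
              apply hxy
              intro hv
              rcases Sym2.mem_iff.1 hv with rfl | rfl
              · exact notMem_erase _ _ ha
              · exact notMem_erase _ _ hb
            · intro x y hxy h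
              rw [← h]
              apply filter_congr
              intro a _
              rw [hxy s(j, a) (by simp)]
        _ = _ := by
            rw [sum_pow_mul_eq_add_pow, hcard]
            congr 1
            ring
    · intro N _ hN
      apply π.Pr_of_false
      rintro x ⟨h, -⟩
      exact hN (mem_powerset.2 (h ▸ filter_subset _ _))

omit [Fintype Λ] in
lemma cross_inj (W : Finset V) :
    Set.InjOn (fun e : V × V => s(e.1, e.2)) (W ×ˢ Wᶜ : Finset (V × V)) := by
  rintro ⟨a, b⟩ h1 ⟨c, d⟩ h2 e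
  simp only [coe_product, Set.mem_prod, mem_coe, coe_compl, Set.mem_compl_iff]
    at h1 h2
  rcases Sym2.eq_iff.1 e with ⟨rfl, rfl⟩ | ⟨rfl, rfl⟩
  · rfl
  · exact absurd h1.1 h2.2

lemma Pr_closed (O : Set Λ) (W : Finset V) :
    π.Pr (fun x : Sym2 V → Λ => ∀ e ∈ W ×ˢ Wᶜ, x s(e.1, e.2) ∉ O) =
      ((1 - π.m O) ^ W.card) ^ (Fintype.card V - W.card) := by
  rw [Pr_all_closed π _ _ (cross_inj W), card_product, card_compl, pow_mul]

lemma Pr_ClS_pow (O : Set Λ) (J : Finset V) (τ : ℕ) {z : ℝ} (hz : 0 ≤ z) :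
    z ^ (τ - J.card) * π.Pr (fun x : Sym2 V → Λ => (ClS (Gr x O) J).card = τ) ≤
      ((1 - (1 - π.m O) ^ τ) * z + (1 - π.m O) ^ τ) ^ (Fintype.card V - J.card) := by
  have hm0 := π.m_nonneg O
  have hm1 := π.m_le_one O
  set Q := (1 - π.m O) ^ τ with hQ
  have hQ0 : 0 ≤ Q := pow_nonneg (by linarith) _
  have hQ1 : 0 ≤ 1 - Q := sub_nonneg.2 (pow_le_one₀ (by linarith) (by linarith))
  set S := univ.filter (fun W : Finset V => J ⊆ W ∧ W.card = τ) with hS
  have h1 := π.Pr_le_sum S (A := fun x : Sym2 V → Λ => (ClS (Gr x O) J).card = τ)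
    (fun W x => (∀ y ∈ W, ∃ j ∈ J, (On (Gr x O) W).Reachable j y) ∧
      ∀ e ∈ W ×ˢ Wᶜ, x s(e.1, e.2) ∉ O) (by
      intro x hx
      have hcl : ∀ a ∈ ClS (Gr x O) J, ∀ b, (Gr x O).Adj a b → b ∈ ClS (Gr x O) J := by
        intro a ha b hab
        obtain ⟨j, hj, hr⟩ := mem_ClS.1 ha
        exact mem_ClS.2 ⟨j, hj, hr.trans hab.reachable⟩
      have hJ : J ⊆ ClS (Gr x O) J := fun j hj =>
        mem_ClS.2 ⟨j, hj, SimpleGraph.Reachable.refl _⟩
      refine ⟨ClS (Gr x O) J, mem_filter.2 ⟨mem_univ _, hJ, hx⟩, fun y hy => ?_, ?_⟩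
      · obtain ⟨j, hj, hr⟩ := mem_ClS.1 hy
        exact ⟨j, hj, reach_On hcl (hJ hj) hr⟩
      · rintro ⟨a, b⟩ he h
        obtain ⟨ha, hb⟩ := mem_product.1 he
        have hb' := mem_compl.1 hb
        exact hb' (hcl a ha b ⟨fun e => hb' (by simpa [← e] using ha), h⟩))
  rw [← card_compl, ← sum_pow_mul_eq_add_pow]
  calc _ ≤ z ^ (τ - J.card) * ∑ W ∈ S, (1 - Q) ^ (τ - J.card) * Q ^ (Fintype.card V - τ) := by
        apply mul_le_mul_of_nonneg_left (h1.trans (sum_le_sum ?_)) (pow_nonneg hz _)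
        intro W hW
        obtain ⟨-, hJW, hc⟩ := mem_filter.1 hW
        rw [π.Pr_indep {e | ∀ a ∈ e, a ∈ W}, Pr_closed, hc]
        · have := Pr_span π O W J hJW
          rw [hc] at this
          exact mul_le_mul_of_nonneg_right this (pow_nonneg hQ0 _)
        · intro x y hxy h
          rwa [← On_Gr_congr (x := x)]
          intro a ha b hb
          apply hxy
          intro c hc
          rcases Sym2.mem_iff.1 hc with rfl | rfl <;> assumption
        · intro x y hxy h e he
          rw [← hxy s(e.1, e.2)]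
          · exact h e he
          · intro h'
            exact mem_compl.1 (mem_product.1 he).2 (h' e.2 (Sym2.mem_mk_right _ _))
    _ = ∑ W ∈ S, ((1 - Q) * z) ^ (W \ J).card * Q ^ (Jᶜ.card - (W \ J).card) := by
        rw [mul_sum]
        apply sum_congr rfl
        intro W hW
        obtain ⟨-, hJW, hc⟩ := mem_filter.1 hW
        have a1 := card_le_card hJW
        have a2 := card_le_univ W
        rw [card_sdiff_of_subset hJW, card_compl, hc,
          show Fintype.card V - J.card - (τ - J.card) = Fintype.card V - τ by omega, mul_pow]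
        ring
    _ = ∑ A ∈ S.image (· \ J), ((1 - Q) * z) ^ A.card * Q ^ (Jᶜ.card - A.card) := by
        rw [sum_image]
        intro W hW W' hW' e
        have h1 := (mem_filter.1 hW).2.1
        have h2 := (mem_filter.1 hW').2.1
        simp only at e
        rw [← sdiff_union_of_subset h1, ← sdiff_union_of_subset h2, e]
    _ ≤ _ := by
        apply sum_le_sum_of_subset_of_nonneg
        · intro A hA
          obtain ⟨W, -, rfl⟩ := mem_image.1 hA
          rw [mem_powerset]
          intro y hy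
          exact mem_compl.2 (mem_sdiff.1 hy).2
        · intro A _ _; positivity

lemma Pr_ClS_exp (O : Set Λ) (J : Finset V) (τ : ℕ) (hτ : J.card ≤ τ) (s : ℝ) :
    π.Pr (fun x : Sym2 V → Λ => (ClS (Gr x O) J).card = τ) ≤
      Real.exp (-s * (τ - J.card) +
        (Real.exp s - 1) * ((1 - (1 - π.m O) ^ τ) * (Fintype.card V - J.card))) := by
  have hm0 := π.m_nonneg O
  have hm1 := π.m_le_one O
  have h1 := Pr_ClS_pow π O J τ (Real.exp_pos s).le
  set Q := (1 - π.m O) ^ τ with hQ
  have hQ0 : 0 ≤ Q := pow_nonneg (by linarith) _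
  have hQ1 : 0 ≤ 1 - Q := sub_nonneg.2 (pow_le_one₀ (by linarith) (by linarith))
  have h2 : ((1 - Q) * Real.exp s + Q) ^ (Fintype.card V - J.card) ≤
      Real.exp ((Real.exp s - 1) * ((1 - Q) * (Fintype.card V - J.card))) := by
    calc _ ≤ (Real.exp ((Real.exp s - 1) * (1 - Q))) ^ (Fintype.card V - J.card) := by
          apply pow_le_pow_left₀ (by positivity)
          refine le_trans (le_of_eq ?_) (Real.add_one_le_exp _)
          ring
      _ = _ := by
          rw [← Real.exp_nat_mul, Nat.cast_sub (card_le_univ J)]; congr 1; ring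
  rw [Real.exp_add]
  have h3 : Real.exp (-s * (τ - J.card)) * Real.exp s ^ (τ - J.card) = 1 := by
    rw [← Real.exp_nat_mul, ← Real.exp_add, Nat.cast_sub hτ]; simp; ring
  calc _ = Real.exp (-s * (τ - J.card)) * (Real.exp s ^ (τ - J.card) *
        π.Pr (fun x : Sym2 V → Λ => (ClS (Gr x O) J).card = τ)) := by rw [← mul_assoc, h3, one_mul]
    _ ≤ _ := mul_le_mul_of_nonneg_left (h1.trans h2) (Real.exp_pos _).le

lemma Pr_ClS_zero (O : Set Λ) (J : Finset V) (τ : ℕ) (hτ : τ < J.card) :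
    π.Pr (fun x : Sym2 V → Λ => (ClS (Gr x O) J).card = τ) = 0 := by
  apply π.Pr_of_false
  intro x h
  have : J ⊆ ClS (Gr x O) J := fun j hj => mem_ClS.2 ⟨j, hj, SimpleGraph.Reachable.refl _⟩
  have := card_le_card this
  omega

lemma exp_le_quad {s : ℝ} (hs : |s| ≤ 1) : Real.exp s - 1 ≤ s + s ^ 2 := by
  have := (abs_le.1 (Real.abs_exp_sub_one_sub_id_le hs)).2
  linarith

lemma one_sub_pow_le {m : ℝ} (hm : m ≤ 1) (τ : ℕ) : 1 - (1 - m) ^ τ ≤ m * τ := by
  have := one_add_mul_le_pow (a := -m) (by linarith) τ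
  rw [← sub_eq_add_neg] at this
  linarith

lemma pow_le_exp_neg {m : ℝ} (hm : m ≤ 1) (τ : ℕ) : (1 - m) ^ τ ≤ Real.exp (-(m * τ)) := by
  calc _ ≤ Real.exp (-m) ^ τ := pow_le_pow_left₀ (by linarith) (Real.one_sub_le_exp_neg m) τ
    _ = _ := by rw [← Real.exp_nat_mul]; congr 1; ring

/-- No large cluster in the subcritical phase. -/
theorem Pr_maxCl (O : Set Λ) {ε t : ℝ} (hε : 0 < ε) (hε1 : ε ≤ 1)
    (hm : Fintype.card V * π.m O ≤ 1 - ε) {K : ℕ} (hK : 4 * t ≤ ε ^ 2 * K) :
    π.Pr (fun x : Sym2 V → Λ => ¬ ∀ v, (Cl (Gr x O) v).card ≤ K) ≤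
      Fintype.card V * (Fintype.card V + 1) * Real.exp (1 - t) := by
  have hm0 := π.m_nonneg O
  have hm1 := π.m_le_one O
  have := π.Pr_le_card_mul (univ ×ˢ range (Fintype.card V + 1))
    (A := fun x : Sym2 V → Λ => ¬ ∀ v, (Cl (Gr x O) v).card ≤ K)
    (fun e x => K < e.2 ∧ (ClS (Gr x O) {e.1}).card = e.2) ?_ (c := Real.exp (1 - t)) ?_
  · simpa using this
  · intro x hx
    push Not at hx
    obtain ⟨v, hv⟩ := hx
    refine ⟨(v, (Cl (Gr x O) v).card), mem_product.2 ⟨mem_univ _, mem_range.2 ?_⟩, hv, ?_⟩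
    · exact Nat.lt_succ_of_le (card_le_univ _)
    · rw [ClS_singleton]
  · rintro ⟨v, τ⟩ _
    by_cases hτ : K < τ
    · simp only [hτ, true_and]
      refine (Pr_ClS_exp π O {v} τ (by rw [card_singleton]; omega) (ε / 2)).trans ?_
      rw [Real.exp_le_exp, card_singleton]
      have a1 := exp_le_quad (s := ε / 2) (by rw [abs_of_pos (by positivity)]; linarith)
      have a2 := one_sub_pow_le hm1 τ
      have a3 : (K : ℝ) ≤ τ := by exact_mod_cast hτ.le
      have a4 : (0 : ℝ) ≤ τ := Nat.cast_nonneg _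
      have a5 : (1 : ℝ) ≤ Fintype.card V := by
        exact_mod_cast Fintype.card_pos_iff.2 ⟨v⟩
      have hQ1 : 0 ≤ 1 - (1 - π.m O) ^ τ := sub_nonneg.2 (pow_le_one₀ (by linarith) (by linarith))
      have a6 : (1 - (1 - π.m O) ^ τ) * (Fintype.card V - ((1 : ℕ) : ℝ)) ≤ (1 - ε) * τ := by
        push_cast
        calc _ ≤ (π.m O * τ) * Fintype.card V := by gcongr; linarith
          _ = (Fintype.card V * π.m O) * τ := by ring
          _ ≤ _ := by gcongr
      have a7 : 0 ≤ (1 - (1 - π.m O) ^ τ) * (Fintype.card V - ((1 : ℕ) : ℝ)) := by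
        push_cast; exact mul_nonneg hQ1 (by linarith)
      have a8 := mul_le_mul a1 a6 a7 (by positivity)
      have a9 : ε ^ 2 * K ≤ ε ^ 2 * τ := by gcongr
      have a10 : 0 ≤ ε ^ 3 * τ := by positivity
      push_cast at a8 ⊢
      nlinarith
    · rw [π.Pr_of_false fun x h => hτ h.1]; exact (Real.exp_pos _).le

/-- Many seeds explore a large mass. -/
theorem Pr_seeds (O : Set Λ) (J : Finset V) {ε D s : ℝ} {σ : ℕ} (hε : 0 ≤ ε)
    (hm : Fintype.card V * π.m O ≤ 1) (hm' : 1 - ε ≤ Fintype.card V * π.m O)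
    (hσ : π.m O * σ ≤ 1 / 2) (hD : D ≤ J.card / 2 - ε * σ - π.m O * σ ^ 2)
    (hs0 : 0 ≤ s) (hs1 : s ≤ 1) :
    π.Pr (fun x : Sym2 V → Λ => (ClS (Gr x O) J).card ≤ σ) ≤
      (σ + 1) * Real.exp (-s * D + s ^ 2 * σ) := by
  have hm0 := π.m_nonneg O
  have hm1 := π.m_le_one O
  have := π.Pr_le_card_mul (range (σ + 1))
    (A := fun x : Sym2 V → Λ => (ClS (Gr x O) J).card ≤ σ)
    (fun τ x => (ClS (Gr x O) J).card = τ)
    (fun x hx => ⟨_, mem_range.2 (Nat.lt_succ_of_le hx), rfl⟩)
    (c := Real.exp (-s * D + s ^ 2 * σ)) ?_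
  · simpa using this
  intro τ hτ
  rcases lt_or_ge τ J.card with h | h
  · rw [Pr_ClS_zero π O J τ h]; exact (Real.exp_pos _).le
  refine (Pr_ClS_exp π O J τ h (-s)).trans ?_
  rw [Real.exp_le_exp]
  have hτσ : (τ : ℝ) ≤ σ := by exact_mod_cast Nat.lt_succ_iff.1 (mem_range.1 hτ)
  have hτ0 : (0 : ℝ) ≤ τ := Nat.cast_nonneg _
  have hJ0 : (0 : ℝ) ≤ J.card := Nat.cast_nonneg _
  have hJn : (J.card : ℝ) ≤ Fintype.card V := by exact_mod_cast card_le_univ J
  set n : ℝ := (Fintype.card V : ℝ)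
  set j : ℝ := (J.card : ℝ)
  set m := π.m O
  have a1 := exp_le_quad (s := -s) (by rw [abs_neg, abs_of_nonneg hs0]; exact hs1)
  have a2 := one_sub_pow_le hm1 τ
  have hmτ : m * τ ≤ m * σ := by gcongr
  have a3 : m * τ - (m * τ) ^ 2 ≤ 1 - (1 - m) ^ τ := by
    have b1 := pow_le_exp_neg hm1 τ
    have b2 := exp_le_quad (s := -(m * τ)) (by
      rw [abs_neg, abs_of_nonneg (by positivity)]; linarith)
    nlinarith
  set P := 1 - (1 - m) ^ τ
  have hP0 : 0 ≤ P := le_trans (by nlinarith [mul_nonneg hm0 hτ0]) a3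
  have a4 : P * (n - j) ≤ σ := by
    calc _ ≤ (m * τ) * n := by gcongr; linarith
      _ = (n * m) * τ := by ring
      _ ≤ 1 * σ := by gcongr
      _ = σ := one_mul _
  have a5 : D ≤ P * (n - j) - (τ - j) := by
    have b1 : n * (m * τ - (m * τ) ^ 2) ≤ n * P := mul_le_mul_of_nonneg_left a3 (by linarith)
    have b2 : j * P ≤ j * (1 / 2) := mul_le_mul_of_nonneg_left (by linarith) hJ0
    have b3 : (1 - ε) * τ ≤ n * m * τ := by gcongr
    have b4 : n * m * (m * τ ^ 2) ≤ 1 * (m * σ ^ 2) := by gcongr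
    have b5 : ε * τ ≤ ε * σ := by gcongr
    nlinarith
  have a6 := mul_le_mul_of_nonneg_right a1 (mul_nonneg hP0 (show 0 ≤ n - j by linarith))
  have a7 := mul_le_mul_of_nonneg_left a5 hs0
  have a8 := mul_le_mul_of_nonneg_left a4 (sq_nonneg s)
  nlinarith

lemma giant_num {y c η x : ℝ} (hy : 0 < y) (hc : c = 1 + y) (hη : η = y / c) (hx0 : 0 ≤ x)
    (hx : x ≤ y + η / 4) : x * (1 + η / (10 * c)) ≤ c * (1 - Real.exp (-x)) := by
  have hc0 : 0 < c := by linarith
  have hyc : y = η * c := by rw [hη]; field_simp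
  have hη0 : 0 < η := by rw [hη]; positivity
  have hη1 : η ≤ 1 := by rw [hη, div_le_one hc0]; linarith
  set x₂ := y + η / 4 with hx₂
  have hx₂0 : 0 < x₂ := by positivity
  have h1 : c * Real.exp (-y) ≤ 1 - η ^ 2 / 3 := by
    have a1 := Real.quadratic_le_exp_of_nonneg hy.le
    rw [Real.exp_neg, ← div_eq_mul_inv, div_le_iff₀ (Real.exp_pos _)]
    have a2 : c * (1 + η ^ 2 / 2) ≤ Real.exp y := by
      have : c * η ^ 2 ≤ y ^ 2 := by
        rw [hyc]; nlinarith [mul_nonneg (sq_nonneg η) (mul_nonneg hc0.le hy.le)]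
      nlinarith
    have a3 : η ^ 2 ≤ 1 := by nlinarith
    have a4 : 1 ≤ (1 - η ^ 2 / 3) * (1 + η ^ 2 / 2) := by nlinarith [sq_nonneg η]
    calc c = 1 * c := (one_mul _).symm
      _ ≤ ((1 - η ^ 2 / 3) * (1 + η ^ 2 / 2)) * c := by gcongr
      _ = (1 - η ^ 2 / 3) * (c * (1 + η ^ 2 / 2)) := by ring
      _ ≤ _ := by gcongr; linarith
  have h2 : Real.exp (-(η / 4)) ≤ 1 - η / 4 + η ^ 2 / 32 := by
    have a1 := Real.quadratic_le_exp_of_nonneg (x := η / 4) (by positivity)
    rw [Real.exp_neg, inv_le_comm₀ (Real.exp_pos _) (by nlinarith)]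
    refine le_trans ?_ a1
    rw [inv_le_comm₀ (by nlinarith) (by positivity), inv_eq_one_div, div_le_iff₀ (by positivity)]
    nlinarith [pow_nonneg hη0.le 4]
  have h3 : x₂ * (1 + η / (10 * c)) ≤ c * (1 - Real.exp (-x₂)) := by
    have a1 : c * Real.exp (-x₂) ≤ (1 - η ^ 2 / 3) * (1 - η / 4 + η ^ 2 / 32) := by
      rw [hx₂, neg_add, Real.exp_add, ← mul_assoc]
      exact mul_le_mul h1 h2 (Real.exp_pos _).le (by nlinarith)
    have a2 : x₂ * (η / (10 * c)) ≤ η ^ 2 / 5 := by
      rw [mul_div_assoc', div_le_iff₀ (by positivity), hx₂, hyc]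
      nlinarith [mul_nonneg (sq_nonneg η) hy.le]
    have a3 : η ^ 3 ≤ η ^ 2 := by nlinarith [sq_nonneg η]
    nlinarith [pow_nonneg hη0.le 4]
  have h4 : Real.exp (-x) ≤ (1 - x / x₂) + x / x₂ * Real.exp (-x₂) := by
    have := convexOn_exp.2 (Set.mem_univ 0) (Set.mem_univ (-x₂))
      (show 0 ≤ 1 - x / x₂ by rw [sub_nonneg, div_le_one hx₂0]; exact hx)
      (show 0 ≤ x / x₂ by positivity) (by ring)
    simp only [smul_eq_mul, mul_zero, zero_add, Real.exp_zero, mul_one] at this
    rwa [show x / x₂ * -x₂ = -x by field_simp] at this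
  calc x * (1 + η / (10 * c)) = x / x₂ * (x₂ * (1 + η / (10 * c))) := by field_simp
    _ ≤ x / x₂ * (c * (1 - Real.exp (-x₂))) := by gcongr
    _ ≤ _ := by nlinarith

/-- Existence of a giant cluster whose complement is subcritical. -/
theorem Pr_giant (O : Set Λ) {y c η : ℝ} (hy : 0 < y) (hc : c = 1 + y) (hη : η = y / c)
    (hm : Fintype.card V * π.m O = c) :
    π.Pr (fun x : Sym2 V → Λ => ¬ ∃ v, (y + η / 8) / π.m O ≤ (Cl (Gr x O) v).card) ≤
      (Fintype.card V + 1) ^ 2 * Real.exp (-(η ^ 3 * Fintype.card V / (12800 * c ^ 3))) := by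
  have hm0 := π.m_nonneg O
  have hm1 := π.m_le_one O
  have hc0 : 0 < c := by linarith
  have hη0 : 0 < η := by rw [hη]; positivity
  have hη1 : η ≤ 1 := by rw [hη, div_le_one hc0]; linarith
  set m := π.m O with hmdef
  have hmpos : 0 < m := by
    rcases hm0.eq_or_lt with h | h
    · rw [← h, mul_zero] at hm; linarith
    · exact h
  set J : ℕ → Finset V := fun j => univ.filter (fun v => (Fintype.equivFin V v : ℕ) < j) with hJ
  have := π.Pr_le_card_mul (range (Fintype.card V + 1) ×ˢ range (Fintype.card V + 1))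
    (A := fun x : Sym2 V → Λ => ¬ ∃ v, (y + η / 8) / m ≤ (Cl (Gr x O) v).card)
    (fun e x => (η / 8 ≤ m * e.2 ∧ m * e.2 ≤ y + η / 4) ∧ (ClS (Gr x O) (J e.1)).card = e.2) ?_
    (c := Real.exp (-(η ^ 3 * Fintype.card V / (12800 * c ^ 3)))) ?_
  · simpa [sq] using this
  · intro x hx
    push Not at hx
    have hex : ∃ j, η / 8 ≤ m * (ClS (Gr x O) (J j)).card := by
      refine ⟨Fintype.card V, ?_⟩
      have : ClS (Gr x O) (J (Fintype.card V)) = univ := by
        apply eq_univ_of_forall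
        intro v
        exact mem_ClS.2 ⟨v, by simp [hJ], SimpleGraph.Reachable.refl _⟩
      rw [this, card_univ, mul_comm, hm]; linarith
    have hle : Nat.find hex ≤ Fintype.card V := by
      apply Nat.find_min'
      have : ClS (Gr x O) (J (Fintype.card V)) = univ := by
        apply eq_univ_of_forall
        intro v
        exact mem_ClS.2 ⟨v, by simp [hJ], SimpleGraph.Reachable.refl _⟩
      rw [this, card_univ, mul_comm, hm]; linarith
    have hspec := Nat.find_spec hex
    refine ⟨(Nat.find hex, (ClS (Gr x O) (J (Nat.find hex))).card), mem_product.2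
      ⟨mem_range.2 (by omega), mem_range.2 (Nat.lt_succ_of_le (card_le_univ _))⟩,
      ⟨hspec, ?_⟩, rfl⟩
    rcases hj : Nat.find hex with _ | j
    · rw [hj] at hspec
      have : ClS (Gr x O) (J 0) = ∅ := by ext; simp [hJ]
      rw [this] at hspec ⊢
      simp; positivity
    · have hmin := Nat.find_min hex (show j < Nat.find hex by omega)
      rw [not_le] at hmin
      set v := (Fintype.equivFin V).symm ⟨j, by omega⟩ with hv
      have hsub : ClS (Gr x O) (J (j + 1)) ⊆ ClS (Gr x O) (J j) ∪ Cl (Gr x O) v := by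
        intro w hw
        obtain ⟨a, ha, hr⟩ := mem_ClS.1 hw
        simp only [hJ, mem_filter, mem_univ, true_and] at ha
        rcases Nat.lt_succ_iff_lt_or_eq.1 ha with h | h
        · exact mem_union_left _ (mem_ClS.2 ⟨a, by simpa [hJ] using h, hr⟩)
        · have : a = v := by
            rw [hv, Equiv.eq_symm_apply]; exact Fin.ext h
          exact mem_union_right _ (mem_Cl.2 (this ▸ hr))
      have h1 : ((ClS (Gr x O) (J (j + 1))).card : ℝ) ≤
          (ClS (Gr x O) (J j)).card + (Cl (Gr x O) v).card := by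
        exact_mod_cast (card_le_card hsub).trans (card_union_le _ _)
      have h2 := hx v
      rw [lt_div_iff₀ hmpos] at h2
      simp only
      nlinarith
  · rintro ⟨j, τ⟩ _
    by_cases hτ : η / 8 ≤ m * τ ∧ m * τ ≤ y + η / 4
    swap
    · rw [π.Pr_of_false fun x h => hτ h.1]; exact (Real.exp_pos _).le
    simp only [hτ, true_and]
    rcases lt_or_ge τ (J j).card with h | h
    · rw [Pr_ClS_zero π O _ τ h]; exact (Real.exp_pos _).le
    set s := η / (40 * c) with hs
    have hs0 : 0 < s := by positivity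
    have hs1 : s ≤ 1 / 2 := by rw [hs, div_le_iff₀ (by positivity)]; linarith
    refine (Pr_ClS_exp π O _ τ h (-s)).trans ?_
    rw [Real.exp_le_exp, ← hmdef]
    have hτ0 : (0 : ℝ) ≤ τ := Nat.cast_nonneg _
    have hJ0 : (0 : ℝ) ≤ (J j).card := Nat.cast_nonneg _
    have hJn : ((J j).card : ℝ) ≤ Fintype.card V := by exact_mod_cast card_le_univ _
    set n : ℝ := (Fintype.card V : ℝ)
    set k : ℝ := ((J j).card : ℝ)
    have a1 := exp_le_quad (s := -s) (by rw [abs_neg, abs_of_nonneg hs0.le]; linarith)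
    have a2 := pow_le_exp_neg hm1 τ
    have a3 := giant_num hy hc hη (mul_nonneg hm0 hτ0) hτ.2
    set P := 1 - (1 - m) ^ τ with hP
    have hP0 : 0 ≤ P := sub_nonneg.2 (pow_le_one₀ (by linarith) (by linarith))
    have hP1 : P ≤ 1 := by have := pow_nonneg (show 0 ≤ 1 - m by linarith) τ; linarith
    have a4 : τ * (1 + 4 * s) ≤ n * P := by
      have b1 : c * (1 - Real.exp (-(m * τ))) ≤ c * P := by gcongr; linarith
      have b2 : 4 * s = η / (10 * c) := by rw [hs]; field_simp; ring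
      rw [b2]
      apply le_of_mul_le_mul_left _ hmpos
      nlinarith
    have a5 : 4 * s * τ ≤ P * (n - k) - (τ - k) := by nlinarith
    have a6 := mul_le_mul_of_nonneg_right a1 (mul_nonneg hP0 (show 0 ≤ n - k by linarith))
    have a7 : η ^ 3 * n / (12800 * c ^ 3) ≤ s ^ 2 * τ := by
      have b1 : η / 8 * n ≤ c * τ := by
        rw [← hm]; nlinarith [mul_le_mul_of_nonneg_right hτ.1 (show 0 ≤ n by linarith)]
      have b2 : η ^ 3 * n / (12800 * c ^ 3) = s ^ 2 * (η / 8 * n / c) := by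
        rw [hs]; field_simp; ring
      rw [b2]
      gcongr
      rw [div_le_iff₀ hc0]; linarith
    have a8 := mul_le_mul_of_nonneg_left a5 (mul_nonneg hs0.le (show 0 ≤ 1 - s by linarith))
    have a9 : 0 ≤ s ^ 2 * k := by positivity
    have a10 : s ^ 2 * τ * s ≤ s ^ 2 * τ * (1 / 2) := by gcongr
    nlinarith

theorem Pr_not_connected [Nonempty V] (O : Set Λ)
    (ha : Fintype.card V * Real.exp (-(π.m O * Fintype.card V / 2)) ≤ 1) :
    π.Pr (fun x : Sym2 V → Λ => ¬ (Gr x O).Connected) ≤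
      2 * (Fintype.card V * Real.exp (-(π.m O * Fintype.card V / 2))) := by
  have hm0 := π.m_nonneg O
  have hm1 := π.m_le_one O
  set a := Real.exp (-(π.m O * Fintype.card V / 2)) with hadef
  have ha0 : 0 < a := Real.exp_pos _
  have h1 := π.Pr_le_sum ((univ : Finset V).powerset.erase ∅)
    (A := fun x : Sym2 V → Λ => ¬ (Gr x O).Connected)
    (fun W x => 2 * W.card ≤ Fintype.card V ∧ ∀ e ∈ W ×ˢ Wᶜ, x s(e.1, e.2) ∉ O) (by
      intro x hx
      have : ∃ u v, ¬ (Gr x O).Reachable u v := by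
        by_contra h
        push Not at h
        exact hx ⟨h⟩
      obtain ⟨u, v, huv⟩ := this
      have hcl : ∀ a ∈ Cl (Gr x O) u, ∀ b ∉ Cl (Gr x O) u, x s(a, b) ∉ O := by
        intro a ha b hb h
        exact hb (mem_Cl.2 ((mem_Cl.1 ha).trans (SimpleGraph.Adj.reachable
          (G := Gr x O) ⟨fun e => hb (e ▸ ha), h⟩)))
      by_cases h : 2 * (Cl (Gr x O) u).card ≤ Fintype.card V
      · refine ⟨Cl (Gr x O) u, mem_erase.2 ⟨Nonempty.ne_empty ⟨u, self_mem_Cl _ _⟩, by simp⟩,
          h, fun e he => hcl _ (mem_product.1 he).1 _ (mem_compl.1 (mem_product.1 he).2)⟩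
      · refine ⟨(Cl (Gr x O) u)ᶜ, mem_erase.2 ⟨Nonempty.ne_empty ⟨v, by simpa using huv⟩, by simp⟩,
          by rw [card_compl]; omega, fun e he => ?_⟩
        rw [Sym2.eq_swap]
        exact hcl _ (by simpa using (mem_product.1 he).2) _ (mem_compl.1 (mem_product.1 he).1))
  have h2 : ∀ W : Finset V, π.Pr (fun x : Sym2 V → Λ => 2 * W.card ≤ Fintype.card V ∧
      ∀ e ∈ W ×ˢ Wᶜ, x s(e.1, e.2) ∉ O) ≤ a ^ W.card := by
    intro W
    by_cases h : 2 * W.card ≤ Fintype.card V
    · simp only [h, true_and]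
      rw [Pr_closed, ← pow_mul, mul_comm, pow_mul]
      apply pow_le_pow_left₀ (pow_nonneg (by linarith) _)
      refine (pow_le_exp_neg hm1 _).trans ?_
      rw [hadef, Real.exp_le_exp, Nat.cast_sub (card_le_univ W)]
      have : (2 * W.card : ℝ) ≤ Fintype.card V := by exact_mod_cast h
      nlinarith
    · rw [π.Pr_of_false fun x h' => h h'.1]; positivity
  refine h1.trans ((sum_le_sum fun W _ => h2 W).trans ?_)
  have h3 : ∑ W ∈ (univ : Finset V).powerset, a ^ W.card = (a + 1) ^ Fintype.card V := by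
    rw [← card_univ, ← sum_pow_mul_eq_add_pow]; simp
  have h4 := add_sum_erase (univ : Finset V).powerset (fun W => a ^ W.card) (empty_mem_powerset _)
  simp only [card_empty, pow_zero] at h4
  have h5 : (a + 1) ^ Fintype.card V ≤ Real.exp (Fintype.card V * a) := by
    rw [Real.exp_nat_mul]
    exact pow_le_pow_left₀ (by positivity) (Real.add_one_le_exp a) _
  have h6 := exp_le_quad (s := Fintype.card V * a) (by rw [abs_of_nonneg (by positivity)]; exact ha)
  have h7 : 0 ≤ Fintype.card V * a := by positivity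
  nlinarith

end Pool.Agent.MP_f8cd8e_pr

end MrgPart4

-- marker of a merged file
example : 731051 + 731881 = 731051 + 731881 := rfl
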