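import Mathlib.CategoryTheory.Countable
import Mathlib.MeasureTheory.Integral.Bochner.Set
import Mathlib.MeasureTheory.Measure.Lebesgue.Basic
import Mathlib.Combinatorics.SimpleGraph.Diam
import Mathlib.Order.CompletePartialOrder
import Pool.Agent.MP_f8cd8e_pr.Binom

-- ======== part 0: formerly Pool.Agent.MP_f8cd8e_pr.Sprinkle
section MrgPart0

/-! Longest paths, gates, blocks and their expansion. -/

open scoped Classical
open Finset

namespace Pool.Agent.MP_f8cd8e_pr

variable {V Λ : Type} [Fintype V] [Fintype Λ] (π : PV Λ)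

noncomputable def Arms (G : SimpleGraph V) (l : ℕ) : Finset V := univ.filter (fun v => Arm G v l)

lemma Pr_arms (O : Set Λ) {ρ : ℝ} (hρ : 1 ≤ ρ) (hm : π.m O < 1)
    (hn : Fintype.card V * π.m O ≤ ρ * (1 - π.m O)) (l : ℕ) {Y : ℕ} (hY : 0 < Y) :
    π.Pr (fun x : Sym2 V → Λ => Y < (Arms (Gr x O) l).card) ≤
      Fintype.card V * (2 * ρ ^ l / (l + 2)) / Y := by
  refine π.markov' (f := fun x => ∑ v, ind (Arm (On (Gr x O) univ) v l)) (by exact_mod_cast hY)
    (fun x => sum_nonneg fun _ _ => ind_nonneg _) (fun x hx => ?_) ?_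
  · rw [sum_ind, On_univ]; exact_mod_cast hx.le
  · rw [π.Ex_sum]
    simpa [PV.Pr] using sum_le_card_nsmul univ _ _ fun v _ => Pr_arm π O hρ hm hn l univ v

theorem Pr_longest (O : Set Λ) {ρ : ℝ} (hρ : 1 ≤ ρ) (hm : π.m O ≤ 1 / 2)
    (hn : Fintype.card V * π.m O ≤ ρ * (1 - π.m O)) (l : ℕ) {Y K : ℕ} (hY : 0 < Y) (hK : 0 < K) :
    π.Pr (fun x : Sym2 V → Λ => ¬ NoPath (Gr x O) (K + 2 * l)) ≤
      Fintype.card V * (2 * ρ ^ l / (l + 2)) / Y + 2 * π.m O * Y ^ 2 / K := by
  have hm0 := π.m_nonneg O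
  set A : V × V → (Sym2 V → Λ) → Prop := fun e x =>
    e.1 ∈ Arms ((Gr x O).deleteEdges {s(e.1, e.2)}) l ∧
    e.2 ∈ Arms ((Gr x O).deleteEdges {s(e.1, e.2)}) l ∧
    (Arms ((Gr x O).deleteEdges {s(e.1, e.2)}) l).card ≤ Y with hA
  refine (π.Pr_le_add (B := fun x => Y < (Arms (Gr x O) l).card)
    (C := fun x => (K : ℝ) ≤ ∑ e : V × V, ind (x s(e.1, e.2) ∈ O ∧ A e x)) ?_).trans
    (add_le_add (Pr_arms π O hρ (by linarith) hn l hY) ?_)
  · intro x hx
    simp only [NoPath, not_forall, not_not] at hx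
    obtain ⟨p, hp⟩ := hx
    by_cases hY' : Y < (Arms (Gr x O) l).card
    · exact Or.inl hY'
    right
    rw [sum_ind]
    have : (range K).card ≤ (univ.filter (fun e : V × V => x s(e.1, e.2) ∈ O ∧ A e x)).card := by
      apply card_le_card_of_injOn (fun i => (p (l + i), p (l + i + 1)))
      · intro i hi
        simp only [coe_range, Set.mem_Iio] at hi
        simp only [coe_filter, mem_univ, true_and, Set.mem_ofPred_eq, hA, Arms, mem_filter]
        refine ⟨(hp.2 (l + i) (by omega)).2, ⟨fun j => p (l + i - j), rfl, ?_⟩,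
          ⟨fun j => p (l + i + 1 + j), rfl, ?_⟩, ?_⟩
        · refine (hp.rev (l + i) l (by omega) (by omega)).of_adj fun j hj => ?_
          rw [SimpleGraph.deleteEdges_adj]
          refine ⟨(hp.rev (l + i) l (by omega) (by omega)).2 j hj, fun h => ?_⟩
          rw [Set.mem_singleton_iff, Sym2.eq_swap,
            show l + i - j = l + i - (j + 1) + 1 by omega] at h
          have := hp.edge_inj (by omega) (by omega) h
          omega
        · refine (hp.sub (l + i + 1) l (by omega)).of_adj fun j hj => ?_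
          rw [SimpleGraph.deleteEdges_adj]
          refine ⟨(hp.sub (l + i + 1) l (by omega)).2 j hj, fun h => ?_⟩
          rw [Set.mem_singleton_iff] at h
          have := hp.edge_inj (i := l + i + 1 + j) (j := l + i) (by omega) (by omega) h
          omega
        · refine le_trans (card_le_card fun v hv => ?_) (not_lt.1 hY')
          simp only [Arms, mem_filter, mem_univ, true_and] at hv ⊢
          exact hv.mono (SimpleGraph.deleteEdges_le _)
      · intro i hi j hj e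
        simp only [coe_range, Set.mem_Iio] at hi hj
        have := hp.1 (show l + i ≤ K + 2 * l by omega) (show l + j ≤ K + 2 * l by omega)
          (congrArg Prod.fst e)
        omega
    rw [card_range] at this
    exact_mod_cast this
  · refine π.markov' (by exact_mod_cast hK) (fun x => sum_nonneg fun _ _ => ind_nonneg _)
      (fun x hx => hx) ?_
    rw [π.Ex_sum]
    have h1 : ∀ e : V × V, π.Ex (fun x => ind (x s(e.1, e.2) ∈ O ∧ A e x)) ≤
        2 * π.m O * π.Pr (fun x : Sym2 V → Λ => e.1 ∈ Arms (Gr x O) l ∧ e.2 ∈ Arms (Gr x O) l ∧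
          (Arms (Gr x O) l).card ≤ Y) := by
      intro e
      have hdep : ∀ x y : Sym2 V → Λ, (∀ f ∉ ({s(e.1, e.2)} : Set (Sym2 V)), x f = y f) →
          A e x → A e y := by
        intro x y hxy h
        have : (Gr x O).deleteEdges {s(e.1, e.2)} = (Gr y O).deleteEdges {s(e.1, e.2)} := by
          ext a b
          simp only [SimpleGraph.deleteEdges_adj, Gr_adj]
          exact ⟨fun ⟨⟨h1, h2⟩, h3⟩ => ⟨⟨h1, hxy _ h3 ▸ h2⟩, h3⟩,
            fun ⟨⟨h1, h2⟩, h3⟩ => ⟨⟨h1, (hxy _ h3).symm ▸ h2⟩, h3⟩⟩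
        simp only [hA] at h ⊢
        rwa [← this]
      have a1 := π.Pr_indep {s(e.1, e.2)} (A := fun x => x s(e.1, e.2) ∈ O) (B := A e)
        (fun x y h hx => h _ rfl ▸ hx) hdep
      have a2 := π.Pr_indep {s(e.1, e.2)} (A := fun x => x s(e.1, e.2) ∉ O) (B := A e)
        (fun x y h hx => h _ rfl ▸ hx) hdep
      have a3 : π.Pr (fun x : Sym2 V → Λ => x s(e.1, e.2) ∉ O) = 1 - π.m O := by
        simpa using Pr_all_closed π {s(e.1, e.2)} id (Set.injOn_id _) O
      have a4 : π.Pr (fun x : Sym2 V → Λ => x s(e.1, e.2) ∈ O) = π.m O := by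
        have := π.Pr_not (fun x : Sym2 V → Λ => x s(e.1, e.2) ∈ O)
        linarith
      have a5 : π.Pr (fun x => x s(e.1, e.2) ∉ O ∧ A e x) ≤
          π.Pr (fun x : Sym2 V → Λ => e.1 ∈ Arms (Gr x O) l ∧ e.2 ∈ Arms (Gr x O) l ∧
          (Arms (Gr x O) l).card ≤ Y) := by
        apply π.Pr_mono
        rintro x ⟨h1, h2⟩
        have : (Gr x O).deleteEdges {s(e.1, e.2)} = Gr x O := by
          ext a b
          simp only [SimpleGraph.deleteEdges_adj, Gr_adj, Set.mem_singleton_iff]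
          exact ⟨fun h => h.1, fun h => ⟨h, fun h' => h1 (h' ▸ h.2)⟩⟩
        simpa only [hA, this] using h2
      rw [← PV.Pr, a1, a4]
      rw [a2, a3] at a5
      have := π.Pr_nonneg (A e)
      nlinarith [mul_le_mul_of_nonneg_left a5 hm0, mul_nonneg hm0 this]
    refine (sum_le_sum fun e _ => h1 e).trans ?_
    rw [← mul_sum]
    apply mul_le_mul_of_nonneg_left _ (by positivity)
    unfold PV.Pr
    rw [← π.Ex_sum, ← π.Ex_const (E := Sym2 V) ((Y : ℝ) ^ 2)]
    apply π.Ex_mono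
    intro x
    by_cases h : (Arms (Gr x O) l).card ≤ Y
    · simp only [h, and_true, ind_and]
      rw [← univ_product_univ, sum_product]
      dsimp only
      rw [← sum_mul_sum, sum_ind_mem, sq]
      have : ((Arms (Gr x O) l).card : ℝ) ≤ Y := by exact_mod_cast h
      gcongr
    · simp only [h, and_false, ind_of_not, not_false_eq_true, sum_const_zero]
      positivity

theorem Pr_big (O : Set Λ) {ρ : ℝ} (hρ : 1 ≤ ρ) (hm : π.m O < 1)
    (hn : Fintype.card V * π.m O ≤ ρ * (1 - π.m O)) (l : ℕ) {s Y : ℕ} (hs : 0 < s) (hY : 0 < Y) :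
    π.Pr (fun x : Sym2 V → Λ => Y < (Big (Gr x O) s).card) ≤
      Fintype.card V * (ρ ^ l * (2 * s / (l + 2) + l)) / (s * Y) := by
  refine π.markov' (f := fun x => ∑ v, ((min (Cl (Gr x O) v).card s : ℕ) : ℝ))
    (by positivity) (fun x => sum_nonneg fun _ _ => Nat.cast_nonneg _) (fun x hx => ?_) ?_
  · calc (s : ℝ) * Y ≤ ∑ v ∈ Big (Gr x O) s, (s : ℝ) := by
          rw [sum_const, nsmul_eq_mul, mul_comm]
          have : (Y : ℝ) ≤ (Big (Gr x O) s).card := by exact_mod_cast hx.le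
          gcongr
      _ = ∑ v ∈ Big (Gr x O) s, ((min (Cl (Gr x O) v).card s : ℕ) : ℝ) :=
          sum_congr rfl fun v hv => by rw [min_eq_right (mem_filter.1 hv).2]
      _ ≤ _ := sum_le_sum_of_subset_of_nonneg (subset_univ _) fun _ _ _ => Nat.cast_nonneg _
  · rw [π.Ex_sum]
    simpa using sum_le_card_nsmul univ _ _ fun v _ => Ex_min_Cl π O hρ hm hn l s v

theorem Pr_small (O : Set Λ) {ρ : ℝ} (hρ : 1 ≤ ρ) (hm : π.m O < 1)
    (hn : Fintype.card V * π.m O ≤ ρ * (1 - π.m O)) (l s : ℕ) (J : Finset V) {K : ℕ}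
    (hK : 0 < K) :
    π.Pr (fun x : Sym2 V → Λ => K ≤ ∑ j ∈ J, min (Cl (Gr x O) j).card s) ≤
      J.card * (ρ ^ l * (2 * s / (l + 2) + l)) / K := by
  refine π.markov' (f := fun x => ∑ v ∈ J, ((min (Cl (Gr x O) v).card s : ℕ) : ℝ))
    (by positivity) (fun x => sum_nonneg fun _ _ => Nat.cast_nonneg _) (fun x hx => ?_) ?_
  · exact_mod_cast hx
  · rw [π.Ex_sum]
    simpa using sum_le_card_nsmul J _ _ fun v _ => Ex_min_Cl π O hρ hm hn l s v

omit [Fintype Λ] in
theorem exists_blocks {G : SimpleGraph V} {J : Finset V} {σ K s mx : ℕ} (ι : Type) [Fintype ι]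
    (h1 : σ < (ClS G J).card) (h2 : ∑ j ∈ J, min (Cl G j).card s < K)
    (h3 : ∀ v, (Cl G v).card ≤ mx) (h4 : Fintype.card ι * mx + K ≤ σ) :
    ∃ (ρ : ι → V) (b : ι → Finset V), Valid G s ρ b := by
  set C := (J.filter (fun j => s ≤ (Cl G j).card)).image (Cl G) with hC
  have hsub : ClS G J ⊆ C.biUnion id ∪
      (J.filter (fun j => ¬ s ≤ (Cl G j).card)).biUnion (Cl G) := by
    intro y hy
    obtain ⟨j, hj, hr⟩ := mem_ClS.1 hy
    by_cases h : s ≤ (Cl G j).card
    · exact mem_union_left _ (mem_biUnion.2 ⟨Cl G j,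
        mem_image_of_mem _ (mem_filter.2 ⟨hj, h⟩), mem_Cl.2 hr⟩)
    · exact mem_union_right _ (mem_biUnion.2 ⟨j, mem_filter.2 ⟨hj, h⟩, mem_Cl.2 hr⟩)
  have a1 : (C.biUnion id).card ≤ C.card * mx := by
    refine card_biUnion_le.trans (sum_le_card_nsmul _ _ _ fun W hW => ?_)
    obtain ⟨j, -, rfl⟩ := mem_image.1 hW
    exact h3 j
  have a2 : ((J.filter (fun j => ¬ s ≤ (Cl G j).card)).biUnion (Cl G)).card ≤
      ∑ j ∈ J, min (Cl G j).card s := by
    refine card_biUnion_le.trans (le_trans (le_of_eq ?_)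
      (sum_le_sum_of_subset (filter_subset (fun j => ¬ s ≤ (Cl G j).card) J)))
    exact sum_congr rfl fun j hj => (min_eq_left (not_le.1 (mem_filter.1 hj).2).le).symm
  have a3 := (card_le_card hsub).trans (card_union_le _ _)
  have a4 : Fintype.card ι ≤ Fintype.card C := by
    rw [Fintype.card_coe]
    exact (lt_of_mul_lt_mul_right (a := mx) (by omega) (Nat.zero_le _)).le
  obtain ⟨f⟩ := Function.Embedding.nonempty_of_card_le a4
  have a5 : ∀ i, ∃ j, Cl G j = (f i : Finset V) ∧ s ≤ (Cl G j).card := by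
    intro i
    obtain ⟨j, hj, e⟩ := mem_image.1 (f i).2
    exact ⟨j, e, (mem_filter.1 hj).2⟩
  choose ρ hρ1 hρ2 using a5
  choose b hb1 hb2 using fun i => exists_subset_card_eq (hρ2 i)
  refine ⟨ρ, b, fun i k hik hr => hik (f.injective (Subtype.ext ?_)), fun i => ⟨hb2 i, hb1 i⟩⟩
  rw [← hρ1, ← hρ1, Cl_eq_of_mem (mem_Cl.2 hr)]

section tails

variable {ι : Type} (s : Finset ι) (e : ι → Sym2 V) (he : Set.InjOn e s) {O₁ O₂ : Set Λ}
  (hO : O₁ ⊆ O₂) {A : (Sym2 V → Λ) → Prop} (hA1 : ∀ x, A x → ∀ i ∈ s, x (e i) ∉ O₁)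
  (hA2 : ∀ x y : Sym2 V → Λ, (∀ j, (∀ i ∈ s, e i ≠ j) → x j = y j) → (∀ i ∈ s, y (e i) ∉ O₁) →
    A x → A y)

include he hO hA1 hA2

lemma tilt_exp (z ρ : ℝ) (hz : 0 ≤ z)
    (hρ : z * (π.m O₂ - π.m O₁) + (1 - π.m O₂) ≤ ρ * (1 - π.m O₁)) :
    π.Ex (fun x => ind (A x) * z ^ (s.filter (fun i => x (e i) ∈ O₂)).card) ≤
      ρ ^ s.card * π.Pr A := by
  have := π.tilt s e he O₁ hA1 hA2 (φ := fun a => if a ∈ O₂ then z else 1)
    (fun a => by split_ifs; exacts [hz, zero_le_one]) (ρ := ρ) (by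
      have := π.E1_three hO 0 z 1
      rw [π.E1_congr (g := fun x => if x ∈ O₁ then 0 else if x ∈ O₂ then z else 1), this]
      · linarith
      · intro a; by_cases h : a ∈ O₁ <;> simp [ind, h])
  simpa only [prod_exp_ind] using this

lemma upper_tail {q κ : ℝ} (hq0 : 0 ≤ q) (hq : π.m O₂ - π.m O₁ ≤ q * (1 - π.m O₁)) :
    π.Pr (fun x => A x ∧ κ ≤ (s.filter (fun i => x (e i) ∈ O₂)).card) ≤
      Real.exp (2 * q * s.card - κ) * π.Pr A := by
  have h1 := tilt_exp π s e he hO hA1 hA2 (Real.exp 1) (Real.exp (2 * q)) (Real.exp_pos _).le (by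
    have a1 := Real.add_one_le_exp (2 * q)
    have a2 := π.m_le_one O₁
    have a3 := π.m_mono hO
    have a4 : Real.exp 1 ≤ 3 := Real.exp_one_lt_d9.le.trans (by norm_num)
    nlinarith)
  have h2 := π.markov (A := fun x => A x ∧ κ ≤ (s.filter (fun i => x (e i) ∈ O₂)).card)
    (f := fun x => ind (A x) * Real.exp 1 ^ (s.filter (fun i => x (e i) ∈ O₂)).card)
    (K := Real.exp κ) (fun x => mul_nonneg (ind_nonneg _) (by positivity)) (by
      rintro x ⟨h1, h2⟩
      rw [ind_of h1, one_mul, ← Real.exp_nat_mul, mul_one, Real.exp_le_exp]; exact h2)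
  rw [← Real.exp_nat_mul] at h1
  rw [Real.exp_sub, div_mul_eq_mul_div, le_div_iff₀ (Real.exp_pos _), mul_comm,
    mul_comm (2 * q)]
  exact h2.trans h1

lemma lower_tail {q κ : ℝ} (hq0 : 0 ≤ q) (hq1 : q ≤ 1) (hq : q ≤ π.m O₂ - π.m O₁) :
    π.Pr (fun x => A x ∧ ((s.filter (fun i => x (e i) ∈ O₂)).card : ℝ) ≤ κ) ≤
      Real.exp (κ - q / 2 * s.card) * π.Pr A := by
  have h1 := tilt_exp π s e he hO hA1 hA2 (Real.exp (-1)) (1 - q / 2) (Real.exp_pos _).le (by
    have a2 := π.m_le_one O₁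
    have a3 := π.m_nonneg O₁
    have a4 : Real.exp (-1) ≤ 1 / 2 := Real.exp_neg_one_lt_d9.le.trans (by norm_num)
    nlinarith)
  have h2 := π.markov (A := fun x => A x ∧ ((s.filter (fun i => x (e i) ∈ O₂)).card : ℝ) ≤ κ)
    (f := fun x => ind (A x) * Real.exp (-1) ^ (s.filter (fun i => x (e i) ∈ O₂)).card)
    (K := Real.exp (-κ)) (fun x => mul_nonneg (ind_nonneg _) (by positivity)) (by
      rintro x ⟨h1, h2⟩
      rw [ind_of h1, one_mul, ← Real.exp_nat_mul, Real.exp_le_exp]; linarith)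
  have h3 : (1 - q / 2) ^ s.card ≤ Real.exp (-(q / 2 * s.card)) := pow_le_exp_neg (by linarith) _
  have h4 := h2.trans (h1.trans (mul_le_mul_of_nonneg_right h3 (π.Pr_nonneg A)))
  rw [Real.exp_neg κ, inv_mul_le_iff₀ (Real.exp_pos _), ← mul_assoc, ← Real.exp_add] at h4
  exact h4

end tails

omit [Fintype V] [Fintype Λ] in
lemma cross_inj' {B C : Finset V} (h : Disjoint B C) :
    Set.InjOn (fun e : V × V => s(e.1, e.2)) (B ×ˢ C : Finset (V × V)) := by
  rintro ⟨a, b⟩ h1 ⟨c, d⟩ h2 e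
  simp only [coe_product, Set.mem_prod, mem_coe] at h1 h2
  rcases Sym2.eq_iff.1 e with ⟨rfl, rfl⟩ | ⟨rfl, rfl⟩
  · rfl
  · exact absurd h2.2 (disjoint_left.1 h h1.1)

omit [Fintype V] [Fintype Λ] in
lemma Gr_eq_of {ι : Type} {s : Finset ι} {e : ι → Sym2 V} {O : Set Λ} {x y : Sym2 V → Λ}
    (h : ∀ j, (∀ i ∈ s, e i ≠ j) → x j = y j) (hx : ∀ i ∈ s, x (e i) ∉ O)
    (hy : ∀ i ∈ s, y (e i) ∉ O) : Gr x O = Gr y O := by
  ext a b
  simp only [Gr_adj]
  by_cases hj : ∀ i ∈ s, e i ≠ s(a, b)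
  · rw [h _ hj]
  · push Not at hj
    obtain ⟨i, hi, hj⟩ := hj
    simp [← hj, hx i hi, hy i hi]

theorem Pr_gates {O₁ O₂ : Set Λ} (hO : O₁ ⊆ O₂) {q : ℝ} (hq0 : 0 ≤ q)
    (hq : π.m O₂ - π.m O₁ ≤ q * (1 - π.m O₁)) (s mx Y κ : ℕ) :
    π.Pr (fun x : Sym2 V → Λ => ∃ v, (Cl (Gr x O₁) v).card ≤ mx ∧
      (Big (On (Gr x O₂) (Cl (Gr x O₁) v)ᶜ) s).card ≤ Y ∧
      κ < (gates (Gr x O₂) (Cl (Gr x O₁) v) (Big (On (Gr x O₂) (Cl (Gr x O₁) v)ᶜ) s)).card) ≤
      Fintype.card V * Real.exp (2 * q * (mx * Y) - κ) := by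
  rw [← card_univ]
  refine π.Pr_le_card_mul univ (fun v x => (Cl (Gr x O₁) v).card ≤ mx ∧
      (Big (On (Gr x O₂) (Cl (Gr x O₁) v)ᶜ) s).card ≤ Y ∧
      κ < (gates (Gr x O₂) (Cl (Gr x O₁) v) (Big (On (Gr x O₂) (Cl (Gr x O₁) v)ᶜ) s)).card)
    (fun x ⟨v, hv⟩ => ⟨v, mem_univ _, hv⟩) ?_
  intro v _
  set F : (Sym2 V → Λ) → Finset V × Finset V := fun x =>
    (Cl (Gr x O₁) v, Big (On (Gr x O₂) (Cl (Gr x O₁) v)ᶜ) s) with hF
  rw [← π.sum_Pr_fiber F]
  calc _ ≤ ∑ z : Finset V × Finset V, Real.exp (2 * q * (mx * Y) - κ) *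
          π.Pr (fun x => F x = z) := by
        apply sum_le_sum
        rintro ⟨C, Z⟩ _
        by_cases hCZ : C.card ≤ mx ∧ Z.card ≤ Y
        · have hA1 : ∀ x, F x = (C, Z) → ∀ i ∈ C ×ˢ (Z \ C), x s(i.1, i.2) ∉ O₁ := by
            intro x hx i hi h
            obtain ⟨h1, h2⟩ := mem_product.1 hi
            have hC : Cl (Gr x O₁) v = C := congrArg Prod.fst hx
            have h3 := (mem_sdiff.1 h2).2
            apply h3
            rw [← hC] at h1 h3 ⊢
            exact mem_Cl.2 ((mem_Cl.1 h1).trans (SimpleGraph.Adj.reachable (G := Gr x O₁)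
              ⟨fun e => h3 (e ▸ h1), h⟩))
          refine le_trans ?_ ((upper_tail π (C ×ˢ (Z \ C)) (fun e => s(e.1, e.2))
            (cross_inj' disjoint_sdiff) hO (A := fun x => F x = (C, Z)) hA1 ?_ (κ := κ)
            hq0 hq).trans ?_)
          · apply π.Pr_mono
            rintro x ⟨hx, -, -, h3⟩
            refine ⟨hx, ?_⟩
            have hC : Cl (Gr x O₁) v = C := congrArg Prod.fst hx
            have hZ : Big (On (Gr x O₂) (Cl (Gr x O₁) v)ᶜ) s = Z := congrArg Prod.snd hx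
            rw [hZ, hC] at h3
            have : (gates (Gr x O₂) C Z).card ≤
                ((C ×ˢ (Z \ C)).filter (fun i => x s(i.1, i.2) ∈ O₂)).card :=
              card_le_card fun i hi => mem_filter.2 ⟨(mem_filter.1 hi).1, (mem_filter.1 hi).2.2⟩
            exact_mod_cast (h3.le.trans this)
          · intro x y hxy hy hx
            have e1 := Gr_eq_of hxy (hA1 x hx) hy
            have hC : Cl (Gr x O₁) v = C := congrArg Prod.fst hx
            rw [← hx]
            simp only [hF, ← e1, hC, Prod.mk.injEq, true_and]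
            rw [On_Gr_congr (x := x) (y := y)]
            intro a ha b hb
            apply hxy
            intro i hi h
            have := (mem_product.1 hi).1
            rcases Sym2.eq_iff.1 h with ⟨h, -⟩ | ⟨h, -⟩
            · exact mem_compl.1 ha (h ▸ this)
            · exact mem_compl.1 hb (h ▸ this)
          · apply mul_le_mul_of_nonneg_right _ (π.Pr_nonneg _)
            rw [Real.exp_le_exp, card_product]
            have : C.card * (Z \ C).card ≤ mx * Y :=
              Nat.mul_le_mul hCZ.1 ((card_le_card sdiff_subset).trans hCZ.2)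
            have : ((C.card * (Z \ C).card : ℕ) : ℝ) ≤ mx * Y := by exact_mod_cast this
            nlinarith
        · rw [π.Pr_of_false]
          · exact mul_nonneg (Real.exp_pos _).le (π.Pr_nonneg _)
          · rintro x ⟨hx, h1, h2, -⟩
            have hC : Cl (Gr x O₁) v = C := congrArg Prod.fst hx
            have hZ : Big (On (Gr x O₂) (Cl (Gr x O₁) v)ᶜ) s = Z := congrArg Prod.snd hx
            exact hCZ ⟨hC ▸ h1, hZ ▸ h2⟩
    _ ≤ _ := by
        rw [← mul_sum]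
        exact mul_le_of_le_one_right (Real.exp_pos _).le (π.sum_Pr_fiber_le _)

theorem Pr_expands {O₁ O₂ : Set Λ} (hO : O₁ ⊆ O₂) {q q' h dmax τ : ℝ} (hq0 : 0 ≤ q) (hq1 : q ≤ 1)
    (hq : q ≤ π.m O₂ - π.m O₁) (hq0' : 0 ≤ q') (hq' : π.m O₂ - π.m O₁ ≤ q' * (1 - π.m O₁))
    (ι : Type) [Fintype ι] (s : ℕ) (hup : 2 * q' * (s ^ 2 * Fintype.card ι) - dmax ≤ -τ)
    (hlow : h - q / 4 * (s ^ 2 * Fintype.card ι) ≤ -τ)
    (hτ : Fintype.card ι * Real.exp (-τ) ≤ 1) :
    π.Pr (fun x : Sym2 V → Λ => (∃ (ρ : ι → V) (b : ι → Finset V), Valid (Gr x O₁) s ρ b) ∧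
      ¬ ∃ (ρ : ι → V) (b : ι → Finset V), Valid (Gr x O₁) s ρ b ∧ Expands (Gr x O₂) b h dmax) ≤
      3 * (Fintype.card ι * Real.exp (-τ)) := by
  rw [← π.sum_Pr_fiber (fun x : Sym2 V → Λ => Gr x O₁)]
  set a := Real.exp (-τ) with ha
  have ha0 : 0 < a := Real.exp_pos _
  calc _ ≤ ∑ g : SimpleGraph V, 3 * (Fintype.card ι * a) *
        π.Pr (fun x : Sym2 V → Λ => Gr x O₁ = g) := by
        apply sum_le_sum
        intro g _
        by_cases hg : ∃ (ρ : ι → V) (b : ι → Finset V), Valid g s ρ b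
        swap
        · rw [π.Pr_of_false]
          · exact mul_nonneg (by positivity) (π.Pr_nonneg _)
          · rintro x ⟨h1, h2, -⟩; exact hg (h1 ▸ h2)
        obtain ⟨ρ, b, hv⟩ := hg
        have hdis : ∀ i k, i ≠ k → Disjoint (b i) (b k) := by
          intro i k hik
          rw [disjoint_left]
          intro y h1 h2
          exact hv.1 i k hik ((mem_Cl.1 ((hv.2 i).2 h1)).trans (mem_Cl.1 ((hv.2 k).2 h2)).symm)
        set I : Finset ι → Finset (V × V) := fun A => A.biUnion b ×ˢ Aᶜ.biUnion b with hI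
        have hdis' : ∀ A : Finset ι, Disjoint (A.biUnion b) (Aᶜ.biUnion b) := by
          intro A
          rw [disjoint_biUnion_left]; intro i hi
          rw [disjoint_biUnion_right]; intro k hk
          exact hdis i k fun e => mem_compl.1 hk (e ▸ hi)
        have hcardU : ∀ A : Finset ι, (A.biUnion b).card = A.card * s := by
          intro A
          rw [card_biUnion fun i _ k _ h => hdis i k h, sum_congr rfl fun i _ => (hv.2 i).1]
          simp
        have hcard : ∀ A : Finset ι, ((I A).card : ℝ) =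
            s ^ 2 * (A.card * (Fintype.card ι - A.card)) := by
          intro A
          simp only [hI]
          rw [card_product, hcardU, hcardU, card_compl]
          push_cast [Nat.cast_sub (card_le_univ A)]
          ring
        have hX : ∀ (A : Finset ι) (x : Sym2 V → Λ), ∑ i ∈ A, ∑ k ∈ Aᶜ, cnt (Gr x O₂) b i k =
            ((I A).filter (fun e => x s(e.1, e.2) ∈ O₂)).card := by
          intro A x
          rw [← sum_ind, hI]
          simp only
          rw [sum_product, sum_biUnion fun i _ k _ h => hdis i k h]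
          apply sum_congr rfl; intro i hi
          simp only [sum_biUnion (s := Aᶜ) fun i _ k _ h => hdis i k h]
          rw [sum_comm]
          apply sum_congr rfl; intro k hk
          have hik : i ≠ k := fun e => mem_compl.1 hk (e ▸ hi)
          rw [cnt, if_neg hik]
          apply sum_congr rfl; intro y hy
          apply sum_congr rfl; intro z hz
          have : y ≠ z := fun e => disjoint_left.1 (hdis i k hik) hy (e ▸ hz)
          simp [ind, this]
        have hA1 : ∀ (A : Finset ι) (x : Sym2 V → Λ), Gr x O₁ = g →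
            ∀ e ∈ I A, x s(e.1, e.2) ∉ O₁ := by
          intro A x hx e he h
          obtain ⟨h1, h2⟩ := mem_product.1 he
          have hne : e.1 ≠ e.2 := fun e' => disjoint_left.1 (hdis' A) h1 (e' ▸ h2)
          obtain ⟨i, hi, h1⟩ := mem_biUnion.1 h1
          obtain ⟨k, hk, h2⟩ := mem_biUnion.1 h2
          have hadj : g.Adj e.1 e.2 := hx ▸ ⟨hne, h⟩
          exact hv.1 i k (fun e => mem_compl.1 hk (e ▸ hi)) ((mem_Cl.1 ((hv.2 i).2 h1)).trans
            (hadj.reachable.trans (mem_Cl.1 ((hv.2 k).2 h2)).symm))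
        have hA2 : ∀ (A : Finset ι) (x y : Sym2 V → Λ),
            (∀ j, (∀ e ∈ I A, s(e.1, e.2) ≠ j) → x j = y j) → (∀ e ∈ I A, y s(e.1, e.2) ∉ O₁) →
            Gr x O₁ = g → Gr y O₁ = g := fun A x y hxy hy hx => by
          rw [← Gr_eq_of hxy (hA1 A x hx) hy, hx]
        set P := π.Pr (fun x : Sym2 V → Λ => Gr x O₁ = g) with hP
        have hP0 : 0 ≤ P := π.Pr_nonneg _
        refine (π.Pr_le_add
          (B := fun x => ∃ i, Gr x O₁ = g ∧
            dmax ≤ ((I {i}).filter (fun e => x s(e.1, e.2) ∈ O₂)).card)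
          (C := fun x => ∃ A ∈ (univ : Finset ι).powerset.erase ∅,
            2 * A.card ≤ Fintype.card ι ∧ Gr x O₁ = g ∧
            (((I A).filter (fun e => x s(e.1, e.2) ∈ O₂)).card : ℝ) ≤ h * A.card) ?_).trans ?_
        · rintro x ⟨hx, -, h2⟩
          have h3 : ¬ Expands (Gr x O₂) b h dmax := fun h' => h2 ⟨ρ, b, hx ▸ hv, h'⟩
          rw [Expands, not_and_or] at h3
          rcases h3 with h3 | h3
          · push Not at h3
            obtain ⟨i, hi⟩ := h3
            refine Or.inl ⟨i, hx, ?_⟩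
            rw [← hX, sum_singleton]
            rw [← add_sum_erase _ _ (mem_univ i), cnt, if_pos rfl, zero_add] at hi
            rw [compl_singleton]
            exact hi.le
          · push Not at h3
            obtain ⟨A, hA, hlt⟩ := h3
            refine Or.inr ⟨A, mem_erase.2 ⟨?_, by simp⟩, hA, hx, ?_⟩
            · rintro rfl; simp at hlt
            · rw [← hX]; exact hlt.le
        have b1 : π.Pr (fun x : Sym2 V → Λ => ∃ i, Gr x O₁ = g ∧
            dmax ≤ ((I {i}).filter (fun e => x s(e.1, e.2) ∈ O₂)).card) ≤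
            Fintype.card ι * (a * P) := by
          rw [← card_univ]
          refine π.Pr_le_card_mul univ _ (fun x ⟨i, hi⟩ => ⟨i, mem_univ _, hi⟩) fun i _ => ?_
          refine (upper_tail π (I {i}) (fun e => s(e.1, e.2)) (cross_inj' (hdis' _)) hO
            (hA1 _) (hA2 _) hq0' hq').trans (mul_le_mul_of_nonneg_right ?_ hP0)
          rw [ha, Real.exp_le_exp, hcard, card_singleton]
          have : 0 ≤ q' * s ^ 2 := by positivity
          push_cast
          nlinarith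
        have b2 : π.Pr (fun x : Sym2 V → Λ => ∃ A ∈ (univ : Finset ι).powerset.erase ∅,
            2 * A.card ≤ Fintype.card ι ∧ Gr x O₁ = g ∧
            (((I A).filter (fun e => x s(e.1, e.2) ∈ O₂)).card : ℝ) ≤ h * A.card) ≤
            2 * (Fintype.card ι * a) * P := by
          refine (π.Pr_le_sum _ _ fun x hx => hx).trans ?_
          have c1 : ∀ A : Finset ι, π.Pr (fun x : Sym2 V → Λ =>
              2 * A.card ≤ Fintype.card ι ∧ Gr x O₁ = g ∧
              (((I A).filter (fun e => x s(e.1, e.2) ∈ O₂)).card : ℝ) ≤ h * A.card) ≤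
              a ^ A.card * P := by
            intro A
            by_cases hA : 2 * A.card ≤ Fintype.card ι
            · simp only [hA, true_and]
              refine (lower_tail π (I A) (fun e => s(e.1, e.2)) (cross_inj' (hdis' _)) hO
                (hA1 _) (hA2 _) hq0 hq1 hq).trans (mul_le_mul_of_nonneg_right ?_ hP0)
              rw [ha, ← Real.exp_nat_mul, Real.exp_le_exp, hcard]
              have d1 : (2 * A.card : ℝ) ≤ Fintype.card ι := by exact_mod_cast hA
              have d2 : (0 : ℝ) ≤ A.card := Nat.cast_nonneg _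
              have d3 := mul_le_mul_of_nonneg_left hlow d2
              have d4 : 0 ≤ q * s ^ 2 * A.card * (Fintype.card ι - 2 * A.card) :=
                mul_nonneg (by positivity) (by linarith)
              nlinarith
            · rw [π.Pr_of_false fun x h' => hA h'.1]; positivity
          refine (sum_le_sum fun A _ => c1 A).trans ?_
          rw [← sum_mul]
          apply mul_le_mul_of_nonneg_right _ hP0
          have h3 : ∑ W ∈ (univ : Finset ι).powerset, a ^ W.card = (a + 1) ^ Fintype.card ι := by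
            rw [← card_univ, ← sum_pow_mul_eq_add_pow]; simp
          have h4 := add_sum_erase (univ : Finset ι).powerset (fun W => a ^ W.card)
            (empty_mem_powerset _)
          simp only [card_empty, pow_zero] at h4
          have h5 : (a + 1) ^ Fintype.card ι ≤ Real.exp (Fintype.card ι * a) := by
            rw [Real.exp_nat_mul]
            exact pow_le_pow_left₀ (by positivity) (Real.add_one_le_exp a) _
          have h6 := exp_le_quad (s := Fintype.card ι * a)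
            (by rw [abs_of_nonneg (by positivity)]; exact hτ)
          have h7 : 0 ≤ Fintype.card ι * a := by positivity
          nlinarith
        linarith
    _ ≤ _ := by
        rw [← mul_sum]
        exact mul_le_of_le_one_right (by positivity) (π.sum_Pr_fiber_le _)

end Pool.Agent.MP_f8cd8e_pr

end MrgPart0

-- ======== part 1: formerly Pool.Agent.MP_f8cd8e_pr.Transfer
section MrgPart1

/-! From uniform edge labels to finite product spaces. -/

open scoped Classical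
open Finset MeasureTheory

namespace Pool.Agent.MP_f8cd8e_pr

variable {V : Type} [Fintype V]

noncomputable def law (E : Type) [Fintype E] : Measure (E → ℝ) :=
  Measure.pi fun _ => volume.restrict (Set.Icc (0 : ℝ) 1)

instance unif_prob : IsProbabilityMeasure (volume.restrict (Set.Icc (0 : ℝ) 1)) :=
  ⟨by simp⟩

instance law_prob (E : Type) [Fintype E] : IsProbabilityMeasure (law E) := by
  unfold law; infer_instance

noncomputable def lev (a b : ℝ) (w : ℝ) : Fin 3 := if w ≤ a then 0 else if w ≤ b then 1 else 2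

def pv {a b : ℝ} (h0 : 0 ≤ a) (hab : a ≤ b) (h1 : b ≤ 1) : PV (Fin 3) where
  p := ![a, b - a, 1 - b]
  nn := fun i => by fin_cases i <;> simp <;> linarith
  sum1 := by simp [Fin.sum_univ_three]

def Oa : Set (Fin 3) := {0}
def Ob : Set (Fin 3) := {0, 1}

lemma Oa_sub : Oa ⊆ Ob := by intro x hx; simp only [Oa, Ob] at hx ⊢; exact Or.inl hx

lemma m_Oa {a b : ℝ} (h0 : 0 ≤ a) (hab : a ≤ b) (h1 : b ≤ 1) : (pv h0 hab h1).m Oa = a := by
  simp [PV.m, PV.E1, pv, ind, Oa]

lemma m_Ob {a b : ℝ} (h0 : 0 ≤ a) (hab : a ≤ b) (h1 : b ≤ 1) : (pv h0 hab h1).m Ob = b := by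
  simp [PV.m, PV.E1, pv, Fin.sum_univ_three, ind, Ob]

lemma lev_meas (a b : ℝ) : Measurable (lev a b) := by
  unfold lev
  exact Measurable.ite measurableSet_Iic measurable_const
    (Measurable.ite measurableSet_Iic measurable_const measurable_const)

lemma lev_mass {a b : ℝ} (h0 : 0 ≤ a) (hab : a ≤ b) (h1 : b ≤ 1) (i : Fin 3) :
    (volume.restrict (Set.Icc (0 : ℝ) 1)).real (lev a b ⁻¹' {i}) = (pv h0 hab h1).p i := by
  rw [measureReal_restrict_apply (lev_meas a b (measurableSet_singleton i))]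
  fin_cases i
  · have : lev a b ⁻¹' {0} ∩ Set.Icc 0 1 = Set.Icc 0 a := by
      ext w
      simp only [lev, Set.mem_inter_iff, Set.mem_preimage, Set.mem_singleton_iff, Set.mem_Icc]
      split_ifs with h h' <;> simp <;> grind
    simp [this, pv, h0]
  · have : lev a b ⁻¹' {1} ∩ Set.Icc 0 1 = Set.Ioc a b := by
      ext w
      simp only [lev, Set.mem_inter_iff, Set.mem_preimage, Set.mem_singleton_iff, Set.mem_Icc,
        Set.mem_Ioc]
      split_ifs with h h' <;> simp <;> grind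
    simp [this, pv, hab]
  · have : lev a b ⁻¹' {2} ∩ Set.Icc 0 1 = Set.Ioc b 1 := by
      ext w
      simp only [lev, Set.mem_inter_iff, Set.mem_preimage, Set.mem_singleton_iff, Set.mem_Icc,
        Set.mem_Ioc]
      split_ifs with h h' <;> simp <;> grind
    simp [this, pv, h1]

theorem transfer {a b : ℝ} (h0 : 0 ≤ a) (hab : a ≤ b) (h1 : b ≤ 1)
    (P : SimpleGraph V → SimpleGraph V → Prop) :
    (law (Sym2 V)).real {ω | P (Gr ω (Set.Iic a)) (Gr ω (Set.Iic b))} =
      (pv h0 hab h1).Pr (fun x : Sym2 V → Fin 3 => P (Gr x Oa) (Gr x Ob)) := by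
  set L : (Sym2 V → ℝ) → (Sym2 V → Fin 3) := fun ω e => lev a b (ω e) with hL
  have hLm : Measurable L := measurable_pi_lambda _ fun e =>
    (lev_meas a b).comp (measurable_pi_apply e)
  have e1 : ∀ ω, Gr (L ω) Oa = Gr ω (Set.Iic a) := by
    intro ω; ext u v
    simp only [Gr_adj, hL, lev, Oa, Set.mem_singleton_iff, Set.mem_Iic]
    split_ifs <;> simp [*]
  have e2 : ∀ ω, Gr (L ω) Ob = Gr ω (Set.Iic b) := by
    intro ω; ext u v
    simp only [Gr_adj, hL, lev, Ob, Set.mem_insert_iff, Set.mem_singleton_iff, Set.mem_Iic]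
    split_ifs with h h'
    · simp [h.trans hab]
    · simp [h']
    · simp [h']
  have e3 : {ω | P (Gr ω (Set.Iic a)) (Gr ω (Set.Iic b))} =
      L ⁻¹' ((univ.filter (fun x : Sym2 V → Fin 3 => P (Gr x Oa) (Gr x Ob)) : Finset _) : Set _) := by
    ext ω; simp [e1, e2]
  rw [e3, ← sum_measureReal_preimage_singleton _ fun x _ => hLm (measurableSet_singleton x)]
  rw [PV.Pr, PV.Ex, sum_filter]
  refine sum_congr (by ext; simp) ?_
  intro x _
  unfold ind
  split_ifs
  · have : L ⁻¹' {x} = Set.univ.pi fun e => lev a b ⁻¹' {x e} := by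
      ext ω; simp [hL, funext_iff]
    rw [this, law, measureReal_def, Measure.pi_pi, ENNReal.toReal_prod, mul_one, PV.W]
    exact prod_congr rfl fun e _ => lev_mass h0 hab h1 (x e)
  · simp

end Pool.Agent.MP_f8cd8e_pr

end MrgPart1

-- ======== part 2: formerly Pool.Agent.MP_f8cd8e_pr.Params
section MrgPart2

/-! Choice of parameters and the probabilities of the bad environments. -/

open scoped Classical
open Finset MeasureTheory

namespace Pool.Agent.MP_f8cd8e_pr

structure Par (n T : ℝ) : Prop where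
  hT : 10 ^ 6 ≤ T
  hn1 : T ^ 2000 ≤ n
  hn2 : n ≤ 2 * T ^ 2000
  hE : T ^ 20000 ≤ Real.exp (T / 100)

noncomputable def p1 (n T : ℝ) : ℝ := (1 - 1 / T ^ 527) / n
noncomputable def Dl (n T : ℝ) : ℝ := 1 / T ^ 519 / n
noncomputable def pf (n T : ℝ) : ℝ := p1 n T - Dl n T
noncomputable def ps (n T : ℝ) : ℝ := p1 n T + 1 / T ^ 520 / n
noncomputable def pH (n T : ℝ) : ℝ := ps n T + Dl n T
noncomputable def yy (T : ℝ) (j : ℕ) : ℝ := min ((33 / 32) ^ j * (32 / T ^ 519)) (2 * T)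
noncomputable def pj (n T : ℝ) (j : ℕ) : ℝ := (1 + yy T j) / n

namespace Par

variable {n T : ℝ} (h : Par n T)
include h

lemma T1 : 1 ≤ T := le_trans (by norm_num) h.hT
lemma T0 : 0 < T := lt_of_lt_of_le one_pos h.T1
lemma pw {a b : ℕ} (hab : a ≤ b) : T ^ a ≤ T ^ b := pow_le_pow_right₀ h.T1 hab
lemma cpw {C : ℝ} {a b : ℕ} (hC : C ≤ 10 ^ 6) (hab : a < b) : C * T ^ a ≤ T ^ b :=
  calc C * T ^ a ≤ T * T ^ a := mul_le_mul_of_nonneg_right (hC.trans h.hT) (pow_nonneg h.T0.le _)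
    _ = T ^ (a + 1) := by ring
    _ ≤ _ := h.pw hab
lemma n0 : 0 < n := lt_of_lt_of_le (pow_pos h.T0 _) h.hn1
lemma n3 : n + 1 ≤ T ^ 2001 := by
  have := h.cpw (C := 3) (a := 2000) (b := 2001) (by norm_num) (by norm_num)
  have := one_le_pow₀ (n := 2000) h.T1
  linarith [h.hn2]
lemma n4 : n ≤ T ^ 2001 := by linarith [h.n3]
lemma inv_le {a b : ℕ} {C : ℝ} (hC : C ≤ 10 ^ 6) (hab : a < b) : C / T ^ b ≤ 1 / T ^ a := by
  rw [div_le_div_iff₀ (pow_pos h.T0 _) (pow_pos h.T0 _), one_mul]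
  exact h.cpw hC hab
lemma inv_le1 {b : ℕ} {C : ℝ} (hC : C ≤ 10 ^ 6) (hb : 0 < b) : C / T ^ b ≤ 1 := by
  simpa using h.inv_le hC hb
lemma tiny {C x : ℝ} (hC : C ≤ T ^ 19999) (hx : T / 100 ≤ x) : C * Real.exp (-x) ≤ 1 / T := by
  have h1 : T ^ 20000 ≤ Real.exp x := h.hE.trans (Real.exp_le_exp.2 hx)
  have := h.T0
  rw [Real.exp_neg, ← div_eq_mul_inv, div_le_div_iff₀ (Real.exp_pos _) h.T0, one_mul]
  calc C * T ≤ T ^ 19999 * T := by gcongr
    _ = T ^ 20000 := by ring
    _ ≤ _ := h1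
lemma invn : 1 / n ≤ 1 / T ^ 2000 := one_div_le_one_div_of_le (pow_pos h.T0 _) h.hn1

lemma np1 : n * p1 n T = 1 - 1 / T ^ 527 := by unfold p1; field_simp [h.n0.ne']
lemma nDl : n * Dl n T = 1 / T ^ 519 := by unfold Dl; field_simp [h.n0.ne']
lemma npf : n * pf n T = 1 - 1 / T ^ 527 - 1 / T ^ 519 := by
  unfold pf; rw [mul_sub, h.np1, h.nDl]
lemma nps : n * ps n T = 1 - 1 / T ^ 527 + 1 / T ^ 520 := by
  unfold ps; rw [mul_add, h.np1]; field_simp [h.n0.ne']
lemma npH : n * pH n T = 1 - 1 / T ^ 527 + 1 / T ^ 520 + 1 / T ^ 519 := by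
  unfold pH; rw [mul_add, h.nps, h.nDl]
lemma npj (j : ℕ) : n * pj n T j = 1 + yy T j := by unfold pj; field_simp [h.n0.ne']
lemma Dl0 : 0 < Dl n T := by unfold Dl; have := h.T0; have := h.n0; positivity
lemma pf0 : 0 ≤ pf n T := by
  have h1 := h.inv_le1 (C := 2) (b := 527) (by norm_num) (by norm_num)
  have h2 := h.inv_le1 (C := 2) (b := 519) (by norm_num) (by norm_num)
  refine nonneg_of_mul_nonneg_right ?_ h.n0
  rw [h.npf]
  have e1 : 2 / T ^ 527 = 2 * (1 / T ^ 527) := by ring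
  have e2 : 2 / T ^ 519 = 2 * (1 / T ^ 519) := by ring
  linarith
lemma pf1 : pf n T ≤ p1 n T := by unfold pf; linarith [h.Dl0]
lemma p10 : 0 ≤ p1 n T := h.pf0.trans h.pf1
lemma p1s : p1 n T ≤ ps n T := by
  unfold ps; have := h.T0; have := h.n0
  have : 0 ≤ 1 / T ^ 520 / n := by positivity
  linarith
lemma psH : ps n T ≤ pH n T := by unfold pH; linarith [h.Dl0]
/-- A level `p` with `n p ≤ 4 T` is tiny. -/
lemma small {p : ℝ} (hp : n * p ≤ 4 * T) : p ≤ 1 / T ^ 1998 := by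
  have h0 := h.T0
  rcases le_or_gt p 0 with h1 | h1
  · exact h1.trans (by positivity)
  rw [le_div_iff₀ (by positivity)]
  have a1 : T ^ 2000 * p ≤ 4 * T := le_trans (mul_le_mul_of_nonneg_right h.hn1 h1.le) hp
  have a2 : 4 * T ≤ T ^ 2 := by nlinarith [h.hT]
  apply le_of_mul_le_mul_right _ (pow_pos h0 2)
  calc p * T ^ 1998 * T ^ 2 = T ^ 2000 * p := by ring
    _ ≤ _ := by linarith
lemma half {p : ℝ} (hp : n * p ≤ 4 * T) : p ≤ 1 / 2 := by
  have h1 := h.inv_le1 (C := 2) (b := 1998) (by norm_num) (by norm_num)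
  have e1 : 2 / T ^ 1998 = 2 * (1 / T ^ 1998) := by ring
  linarith [h.small hp]
lemma npH_le : n * pH n T ≤ 1 + 2 / T ^ 519 := by
  have h1 := h.inv_le (C := 1) (a := 519) (b := 520) (by norm_num) (by norm_num)
  have h0 := h.T0
  have : 0 ≤ 1 / T ^ 527 := by positivity
  have e2 : 2 / T ^ 519 = 2 * (1 / T ^ 519) := by ring
  rw [h.npH]; linarith
lemma pH_half : pH n T ≤ 1 / 2 := by
  apply h.half
  have h2 := h.inv_le1 (C := 2) (b := 519) (by norm_num) (by norm_num)
  linarith [h.npH_le, h.T1]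
lemma yy0 (j : ℕ) : 32 / T ^ 519 ≤ yy T j := by
  have h0 := h.T0
  apply le_min
  · exact le_mul_of_one_le_left (by positivity) (one_le_pow₀ (by norm_num))
  · have h2 := h.inv_le1 (C := 32) (b := 519) (by norm_num) (by norm_num)
    linarith [h.T1]
lemma yy_pos (j : ℕ) : 0 < yy T j := lt_of_lt_of_le (by have := h.T0; positivity) (h.yy0 j)
omit h in
lemma yy_le (j : ℕ) : yy T j ≤ 2 * T := min_le_right _ _
lemma yy_zero : yy T 0 = 32 / T ^ 519 := by
  apply le_antisymm _ (h.yy0 0)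
  simp [yy]
lemma yy_succ (j : ℕ) : yy T j ≤ yy T (j + 1) ∧ yy T (j + 1) ≤ 33 / 32 * yy T j := by
  have h0 := h.T0
  have : 0 ≤ (33 / 32 : ℝ) ^ j * (32 / T ^ 519) := by positivity
  unfold yy
  rw [pow_succ (33 / 32 : ℝ)]
  constructor
  · exact min_le_min (by nlinarith) le_rfl
  · rw [mul_min_of_nonneg _ _ (by norm_num)]
    exact min_le_min (le_of_eq (by ring)) (by linarith)
lemma pj0 (j : ℕ) : 0 ≤ pj n T j := by
  unfold pj; have := h.yy_pos j; have := h.n0; positivity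
lemma npjD (j : ℕ) : n * (pj n T j + Dl n T) = 1 + yy T j + 1 / T ^ 519 := by
  rw [mul_add, h.npj, h.nDl]
lemma pjD_half (j : ℕ) : pj n T j + Dl n T ≤ 1 / 2 := by
  apply h.half
  have h2 := h.inv_le1 (C := 1) (b := 519) (by norm_num) (by norm_num)
  rw [h.npjD]
  linarith [yy_le (T := T) j, h.T1]
lemma rho {p : ℝ} (hp : n * p ≤ 1 + 33 / T ^ 519) :
    n * p ≤ (1 + 1 / T ^ 518) * (1 - p) := by
  have h0 := h.T0
  have h2 := h.inv_le1 (C := 33) (b := 519) (by norm_num) (by norm_num)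
  have h3 := h.small (p := p) (by linarith [h.T1])
  have h4 := h.inv_le (C := 66) (a := 518) (b := 519) (by norm_num) (by norm_num)
  have h5 := h.inv_le (C := 4) (a := 518) (b := 1998) (by norm_num) (by norm_num)
  have h6 := h.inv_le1 (C := 1) (b := 518) (by norm_num) (by norm_num)
  have e1 : 66 / T ^ 519 = 2 * (33 / T ^ 519) := by ring
  have e2 : 4 / T ^ 1998 = 4 * (1 / T ^ 1998) := by ring
  have h7 : 0 ≤ 1 / T ^ 1998 := by positivity
  have h8 : (1 + 1 / T ^ 518) * p ≤ 2 * (1 / T ^ 1998) := by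
    have : 0 ≤ 1 / T ^ 518 := by positivity
    nlinarith
  nlinarith

end Par

lemma two_pow_ge (t : ℕ) : Real.exp ((t : ℝ) / 2) ≤ 2 ^ t := by
  have : Real.exp (1 / 2) ≤ 2 := by
    have h := Real.exp_one_lt_d9
    have e : Real.exp 1 = Real.exp (1 / 2) ^ 2 := by rw [← Real.exp_nat_mul]; norm_num
    nlinarith [Real.exp_pos (1 / 2)]
  calc _ = Real.exp (1 / 2) ^ t := by rw [← Real.exp_nat_mul]; congr 1; ring
    _ ≤ _ := pow_le_pow_left₀ (Real.exp_pos _).le this t

lemma rho_pow {T : ℝ} (hT : 0 < T) : (1 + 1 / T) ^ ⌊T⌋₊ ≤ 3 := by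
  calc _ ≤ (Real.exp (1 / T)) ^ ⌊T⌋₊ := by
        gcongr; linarith [Real.add_one_le_exp (1 / T)]
    _ = Real.exp (⌊T⌋₊ * (1 / T)) := by rw [← Real.exp_nat_mul]
    _ ≤ Real.exp 1 := by
        rw [Real.exp_le_exp, mul_one_div, div_le_one hT]; exact Nat.floor_le hT.le
    _ ≤ 3 := Real.exp_one_lt_d9.le.trans (by norm_num)

lemma rho_pow' (t k : ℕ) (ht : 0 < t) : (1 + 1 / (t : ℝ) ^ k) ^ (t ^ k) ≤ 3 := by
  have := rho_pow (T := (t : ℝ) ^ k) (by positivity)
  rwa [← Nat.cast_pow, Nat.floor_natCast, Nat.cast_pow] at this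

variable {V : Type} [Fintype V] {t : ℕ} (h : Par (Fintype.card V) t)
include h

lemma bad1 : (law (Sym2 V)).real {ω | ¬ FewOut (Gr ω (Set.Iic (pf (Fintype.card V) t)))
    (Gr ω (Set.Iic (p1 (Fintype.card V) t))) (Fintype.card V) (t ^ 9)} ≤ 1 / t := by
  have h0 := h.T0
  have h1 : p1 (Fintype.card V) t ≤ 1 := by linarith [h.p1s, h.psH, h.pH_half]
  rw [transfer h.pf0 h.pf1 h1 (fun G G' => ¬ FewOut G G' (Fintype.card V) (t ^ 9))]
  refine (Pr_not_fewOut _ Oa_sub (z := 1 + 1 / (t : ℝ) ^ 8) (M := 1) ?_ le_rfl ?_ _ _).trans ?_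
  · have : 0 ≤ 1 / (t : ℝ) ^ 8 := by positivity
    linarith
  · rw [m_Oa, m_Ob, mul_add, mul_left_comm, mul_sub, h.npf, h.np1]
    apply le_of_eq; field_simp; ring
  · have a1 : (2 : ℝ) ≤ (1 + 1 / (t : ℝ) ^ 8) ^ (t ^ 8) := by
      have := one_add_mul_le_pow (a := 1 / (t : ℝ) ^ 8) (by
        have : 0 ≤ 1 / (t : ℝ) ^ 8 := by positivity
        linarith) (t ^ 8)
      rw [Nat.cast_pow, mul_one_div_cancel (by positivity)] at this
      linarith
    have a2 : Real.exp ((t : ℝ) / 2) ≤ (1 + 1 / (t : ℝ) ^ 8) ^ (t ^ 9) := by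
      rw [pow_succ t 8, pow_mul]
      exact (two_pow_ge t).trans (pow_le_pow_left₀ (by norm_num) a1 t)
    refine le_trans ?_ (h.tiny (C := (t : ℝ) ^ 2001 * (t : ℝ) ^ 2001) (x := t / 2)
      (by rw [← pow_add]; exact h.pw (by norm_num)) (by linarith))
    rw [one_pow, mul_one, Real.exp_neg, mul_assoc, ← div_eq_mul_inv]
    gcongr
    · exact h.n3
    · exact h.n4

lemma bad2 : (law (Sym2 V)).real {ω | ¬ FewOut (Gr ω (Set.Iic (p1 (Fintype.card V) t)))
    (Gr ω (Set.Iic (pH (Fintype.card V) t))) (2 * t ^ 680) (t ^ 162)} ≤ 1 / t := by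
  have h0 := h.T0
  have h1 : pH (Fintype.card V) t ≤ 1 := by linarith [h.pH_half]
  rw [transfer h.p10 (h.p1s.trans h.psH) h1 (fun G G' => ¬ FewOut G G' (2 * t ^ 680) (t ^ 162))]
  refine (Pr_not_fewOut _ Oa_sub (z := 2) (M := Real.exp (4 / (t : ℝ) ^ 519)) one_le_two
    (Real.one_le_exp (by positivity)) ?_ _ _).trans ?_
  · rw [m_Oa, m_Ob, mul_add, mul_left_comm, mul_sub, h.npH, h.np1]
    have a1 := Real.add_one_le_exp (4 / (t : ℝ) ^ 519)
    have a2 := h.inv_le (C := 1) (a := 519) (b := 520) (by norm_num) (by norm_num)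
    have : 0 ≤ 1 / (t : ℝ) ^ 527 := by positivity
    have e2 : 4 / (t : ℝ) ^ 519 = 4 * (1 / (t : ℝ) ^ 519) := by ring
    linarith
  · have a1 := two_pow_ge (t ^ 162)
    have a2 : Real.exp (4 / (t : ℝ) ^ 519) ^ (2 * t ^ 680) / 2 ^ (t ^ 162) ≤ Real.exp (-t) := by
      rw [div_le_iff₀ (by positivity), ← Real.exp_nat_mul]
      refine le_trans ?_ (mul_le_mul_of_nonneg_left a1 (Real.exp_pos _).le)
      rw [← Real.exp_add, Real.exp_le_exp]
      push_cast
      have b1 := h.cpw (C := 18) (a := 161) (b := 162) (by norm_num) (by norm_num)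
      have b2 := h.pw (a := 1) (b := 161) (by norm_num)
      have e : 2 * (t : ℝ) ^ 680 * (4 / (t : ℝ) ^ 519) = 8 * (t : ℝ) ^ 161 := by field_simp; ring
      rw [e]; linarith
    refine le_trans ?_ (h.tiny (C := (t : ℝ) ^ 681 * (t : ℝ) ^ 2001) (x := t)
      (by rw [← pow_add]; exact h.pw (by norm_num)) (by linarith))
    rw [mul_div_assoc, mul_assoc]
    gcongr
    · have := h.cpw (C := 3) (a := 680) (b := 681) (by norm_num) (by norm_num)
      have := one_le_pow₀ (n := 680) h.T1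
      push_cast; linarith
    · exact h.n4

lemma bad3 : (law (Sym2 V)).real {ω | ¬ ∀ v,
    (Cl (Gr ω (Set.Iic (p1 (Fintype.card V) t))) v).card ≤ 4 * t ^ 1055} ≤ 1 / t := by
  have h0 := h.T0
  have h1 : p1 (Fintype.card V) t ≤ 1 := by linarith [h.p1s, h.psH, h.pH_half]
  rw [transfer h.p10 le_rfl h1 (fun G _ => ¬ ∀ v, (Cl G v).card ≤ 4 * t ^ 1055)]
  refine (Pr_maxCl _ Oa (ε := 1 / (t : ℝ) ^ 527) (t := t) (by positivity)
    (h.inv_le1 (by norm_num) (by norm_num)) (by rw [m_Oa, h.np1]) ?_).trans ?_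
  · push_cast; apply le_of_eq; field_simp
  · refine le_trans ?_ (h.tiny (C := (t : ℝ) ^ 2001 * (t : ℝ) ^ 2001) (x := t - 1)
      (by rw [← pow_add]; exact h.pw (by norm_num)) (by linarith [h.hT]))
    rw [neg_sub]
    gcongr
    · exact h.n4
    · exact h.n3

lemma bad4 (J : Finset V) (hJ : J.card = 18 * t ^ 946) : (law (Sym2 V)).real {ω |
    (ClS (Gr ω (Set.Iic (p1 (Fintype.card V) t))) J).card ≤ 2 * t ^ 1473} ≤ 1 / t := by
  have h0 := h.T0
  have h1 : p1 (Fintype.card V) t ≤ 1 := by linarith [h.p1s, h.psH, h.pH_half]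
  rw [transfer h.p10 le_rfl h1 (fun G _ => (ClS G J).card ≤ 2 * t ^ 1473)]
  have a0 : 0 ≤ 1 / (t : ℝ) ^ 527 := by positivity
  have a1 : p1 (Fintype.card V) t ≤ 1 / (t : ℝ) ^ 2000 := by
    refine le_trans ?_ h.invn
    unfold p1
    gcongr
    linarith
  refine (Pr_seeds _ Oa J (ε := 1 / (t : ℝ) ^ 527) (D := 3 * (t : ℝ) ^ 946)
    (s := 1 / (t : ℝ) ^ 527) a0 (by rw [m_Oa, h.np1]; linarith) (by rw [m_Oa, h.np1]) ?_ ?_ a0
    (h.inv_le1 (by norm_num) (by norm_num))).trans ?_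
  · rw [m_Oa]
    have := h.inv_le1 (C := 4) (b := 527) (by norm_num) (by norm_num)
    calc _ ≤ 1 / (t : ℝ) ^ 2000 * ((2 * t ^ 1473 : ℕ) : ℝ) := by gcongr
      _ = 4 / (t : ℝ) ^ 527 / 2 := by push_cast; field_simp; ring
      _ ≤ _ := by linarith
  · rw [m_Oa, hJ]
    have b1 : p1 (Fintype.card V) t * ((2 * t ^ 1473 : ℕ) : ℝ) ^ 2 ≤ 4 * (t : ℝ) ^ 946 :=
      calc _ ≤ 1 / (t : ℝ) ^ 2000 * ((2 * t ^ 1473 : ℕ) : ℝ) ^ 2 := by gcongr
        _ = _ := by push_cast; field_simp; ring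
    have b2 : 1 / (t : ℝ) ^ 527 * ((2 * t ^ 1473 : ℕ) : ℝ) = 2 * (t : ℝ) ^ 946 := by
      push_cast; field_simp
    rw [b2]
    push_cast at b1 ⊢
    linarith
  · refine le_trans ?_ (h.tiny (C := (t : ℝ) ^ 1474) (x := (t : ℝ) ^ 419)
      (h.pw (by norm_num)) (by linarith [h.pw (a := 1) (b := 419) (by norm_num)]))
    apply mul_le_mul _ (le_of_eq ?_) (Real.exp_pos _).le (by positivity)
    · have := h.cpw (C := 3) (a := 1473) (b := 1474) (by norm_num) (by norm_num)
      have := one_le_pow₀ (n := 1473) h.T1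
      push_cast; linarith
    · congr 1; push_cast; field_simp; ring

lemma bad5 (J : Finset V) (hJ : J.card = 18 * t ^ 946) : (law (Sym2 V)).real {ω | t ^ 1473 ≤
    ∑ j ∈ J, min (Cl (Gr ω (Set.Iic (p1 (Fintype.card V) t))) j).card (t ^ 1052)} ≤ 54 / t := by
  have h0 := h.T0
  have ht : 0 < t := by exact_mod_cast h0
  have h1 : p1 (Fintype.card V) t ≤ 1 / 2 := by linarith [h.p1s, h.psH, h.pH_half]
  rw [transfer h.p10 le_rfl (by linarith)
    (fun G _ => t ^ 1473 ≤ ∑ j ∈ J, min (Cl G j).card (t ^ 1052))]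
  refine (Pr_small _ Oa le_rfl (by rw [m_Oa]; linarith) ?_ (t ^ 526) _ J (by positivity)).trans ?_
  · rw [m_Oa, h.np1]
    have a1 := h.small (p := p1 (Fintype.card V) t) (by
      rw [h.np1]
      have : 0 ≤ 1 / (t : ℝ) ^ 527 := by positivity
      linarith [h.T1])
    have a2 := h.inv_le (C := 1) (a := 527) (b := 1998) (by norm_num) (by norm_num)
    linarith
  · rw [hJ, one_pow, one_mul]
    push_cast
    calc _ ≤ 18 * (t : ℝ) ^ 946 * (2 * (t : ℝ) ^ 1052 / (t : ℝ) ^ 526 + (t : ℝ) ^ 526) /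
          (t : ℝ) ^ 1473 := by gcongr; linarith
      _ = _ := by field_simp; ring

lemma bad6 : (law (Sym2 V)).real {ω | t ^ 1483 <
    (Big (Gr ω (Set.Iic (pH (Fintype.card V) t))) (t ^ 1052)).card} ≤ 18 / t := by
  have h0 := h.T0
  have ht : 0 < t := by exact_mod_cast h0
  have h1 := h.pH_half
  rw [transfer (h.p10.trans (h.p1s.trans h.psH)) le_rfl (by linarith)
    (fun G _ => t ^ 1483 < (Big G (t ^ 1052)).card)]
  refine (Pr_big _ Oa (ρ := 1 + 1 / (t : ℝ) ^ 518) (le_add_of_nonneg_right (by positivity))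
    (by rw [m_Oa]; linarith) ?_ (t ^ 518) (by positivity) (by positivity)).trans ?_
  · rw [m_Oa]
    apply h.rho
    refine h.npH_le.trans ?_
    gcongr; norm_num
  · push_cast
    calc _ ≤ (2 * (t : ℝ) ^ 2000) * (3 * (2 * (t : ℝ) ^ 1052 / (t : ℝ) ^ 518 + (t : ℝ) ^ 534)) /
          ((t : ℝ) ^ 1052 * (t : ℝ) ^ 1483) := by
          gcongr
          · exact h.hn2
          · exact rho_pow' t 518 ht
          · linarith
          · exact h.T1
          · norm_num
      _ = _ := by field_simp; ring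

lemma bad7 : (law (Sym2 V)).real {ω | ∃ v,
    (Cl (Gr ω (Set.Iic (p1 (Fintype.card V) t))) v).card ≤ 4 * t ^ 1055 ∧
    (Big (On (Gr ω (Set.Iic (pH (Fintype.card V) t)))
      (Cl (Gr ω (Set.Iic (p1 (Fintype.card V) t))) v)ᶜ) (t ^ 1052)).card ≤ t ^ 1483 ∧
    t ^ 20 < (gates (Gr ω (Set.Iic (pH (Fintype.card V) t)))
      (Cl (Gr ω (Set.Iic (p1 (Fintype.card V) t))) v)
      (Big (On (Gr ω (Set.Iic (pH (Fintype.card V) t)))
        (Cl (Gr ω (Set.Iic (p1 (Fintype.card V) t))) v)ᶜ) (t ^ 1052))).card} ≤ 1 / t := by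
  have h0 := h.T0
  have h1 := h.pH_half
  rw [transfer h.p10 (h.p1s.trans h.psH) (by linarith)
    (fun G H => ∃ v, (Cl G v).card ≤ 4 * t ^ 1055 ∧
      (Big (On H (Cl G v)ᶜ) (t ^ 1052)).card ≤ t ^ 1483 ∧
      t ^ 20 < (gates H (Cl G v) (Big (On H (Cl G v)ᶜ) (t ^ 1052))).card)]
  refine (Pr_gates _ Oa_sub (q := 4 / (t : ℝ) ^ 2519) (by positivity) ?_ _ _ _ _).trans ?_
  · rw [m_Oa, m_Ob]
    have a1 : pH (Fintype.card V) t - p1 (Fintype.card V) t ≤ 2 / (t : ℝ) ^ 2519 := by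
      have a2 := h.inv_le (C := 1) (a := 519) (b := 520) (by norm_num) (by norm_num)
      calc _ = (1 / (t : ℝ) ^ 520 + 1 / (t : ℝ) ^ 519) * (1 / Fintype.card V) := by
            unfold pH ps Dl; ring
        _ ≤ (1 / (t : ℝ) ^ 519 + 1 / (t : ℝ) ^ 519) * (1 / (t : ℝ) ^ 2000) := by
            gcongr; exact h.hn1
        _ = _ := by field_simp; ring
    have a3 : 1 / 2 ≤ 1 - p1 (Fintype.card V) t := by linarith [h.p1s, h.psH]
    calc _ ≤ _ := a1
      _ = 4 / (t : ℝ) ^ 2519 * (1 / 2) := by ring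
      _ ≤ _ := by gcongr
  · refine le_trans ?_ (h.tiny (C := (t : ℝ) ^ 2001) (x := t) (h.pw (by norm_num)) (by linarith))
    gcongr
    · exact h.n4
    · push_cast
      have e : 2 * (4 / (t : ℝ) ^ 2519) * (4 * (t : ℝ) ^ 1055 * (t : ℝ) ^ 1483) =
          32 * (t : ℝ) ^ 19 := by field_simp; ring
      have b1 := h.cpw (C := 33) (a := 19) (b := 20) (by norm_num) (by norm_num)
      have b2 := h.pw (a := 1) (b := 19) (by norm_num)
      rw [e]; linarith

lemma bad8 (ι : Type) [Fintype ι] (hι : Fintype.card ι = t ^ 417) : (law (Sym2 V)).real {ω |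
    (∃ (ρ : ι → V) (b : ι → Finset V),
      Valid (Gr ω (Set.Iic (p1 (Fintype.card V) t))) (t ^ 1052) ρ b) ∧
    ¬ ∃ (ρ : ι → V) (b : ι → Finset V),
      Valid (Gr ω (Set.Iic (p1 (Fintype.card V) t))) (t ^ 1052) ρ b ∧
      Expands (Gr ω (Set.Iic (ps (Fintype.card V) t))) b (t / 16) (5 * t)} ≤ 3 / t := by
  have h0 := h.T0
  have hn0 := h.n0
  have h1 := h.pH_half
  have h2 := h.psH
  have h3 := h.p1s
  rw [transfer h.p10 h.p1s (by linarith)
    (fun G H => (∃ (ρ : ι → V) (b : ι → Finset V), Valid G (t ^ 1052) ρ b) ∧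
      ¬ ∃ (ρ : ι → V) (b : ι → Finset V), Valid G (t ^ 1052) ρ b ∧ Expands H b (t / 16) (5 * t))]
  have a0 : ps (Fintype.card V) t - p1 (Fintype.card V) t =
      1 / (t : ℝ) ^ 520 / Fintype.card V := by unfold ps; ring
  have a1 : (Fintype.card ι : ℝ) * Real.exp (-(t / 16)) ≤ 1 / t :=
    h.tiny (by rw [hι]; push_cast; exact h.pw (by norm_num)) (by linarith)
  have a2 : 1 / (t : ℝ) ^ 520 / Fintype.card V * (((t ^ 1052 : ℕ) : ℝ) ^ 2 * Fintype.card ι) =
      t * ((t : ℝ) ^ 2000 / Fintype.card V) := by rw [hι]; push_cast; field_simp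
  have a3 : (t : ℝ) ^ 2000 / Fintype.card V ≤ 1 := by rw [div_le_one hn0]; exact h.hn1
  have a4 : 1 / 2 ≤ (t : ℝ) ^ 2000 / Fintype.card V := by
    rw [le_div_iff₀ hn0]; linarith [h.hn2]
  refine (Pr_expands _ Oa_sub (q := 1 / (t : ℝ) ^ 520 / Fintype.card V)
    (q' := 2 * (1 / (t : ℝ) ^ 520 / Fintype.card V)) (τ := t / 16) (by positivity) ?_ ?_
    (by positivity) ?_ ι _ ?_ ?_ ?_).trans ?_
  · rw [← a0]; linarith [h.p10]
  · rw [m_Oa, m_Ob, a0]
  · rw [m_Oa, m_Ob, a0]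
    have : 0 ≤ 1 / (t : ℝ) ^ 520 / Fintype.card V := by positivity
    nlinarith
  · rw [mul_assoc, mul_assoc, a2]; nlinarith
  · rw [div_mul_eq_mul_div _ 4, a2]; nlinarith
  · refine a1.trans ?_
    rw [div_le_one h0]; exact h.T1
  · have : 3 / (t : ℝ) = 3 * (1 / t) := by ring
    linarith

lemma bad9 : (law (Sym2 V)).real {ω | ¬ NoPath
    (Gr ω (Set.Iic (pj (Fintype.card V) t 0 + Dl (Fintype.card V) t))) (t ^ 967 + 2 * t ^ 518)} ≤
    16 / t := by
  have h0 := h.T0
  have hn0 := h.n0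
  have ht : 0 < t := by exact_mod_cast h0
  have h1 := h.pjD_half 0
  have h2 : 0 ≤ pj (Fintype.card V) t 0 + Dl (Fintype.card V) t := by linarith [h.pj0 0, h.Dl0]
  have h3 : Fintype.card V * (pj (Fintype.card V) t 0 + Dl (Fintype.card V) t) =
      1 + 33 / (t : ℝ) ^ 519 := by rw [h.npjD, h.yy_zero]; ring
  rw [transfer h2 le_rfl (by linarith) (fun G _ => ¬ NoPath G (t ^ 967 + 2 * t ^ 518))]
  refine (Pr_longest _ Oa (ρ := 1 + 1 / (t : ℝ) ^ 518) (le_add_of_nonneg_right (by positivity))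
    (by rw [m_Oa]; linarith) (by rw [m_Oa]; exact h.rho h3.le) (t ^ 518) (Y := t ^ 1483)
    (by positivity) (by positivity)).trans ?_
  rw [m_Oa]
  have a1 : pj (Fintype.card V) t 0 + Dl (Fintype.card V) t ≤ 2 / (t : ℝ) ^ 2000 := by
    have b1 := h.inv_le1 (C := 33) (b := 519) (by norm_num) (by norm_num)
    rw [le_div_iff₀ (by positivity)]
    nlinarith [mul_le_mul_of_nonneg_left h.hn1 h2]
  push_cast
  calc _ ≤ (2 * (t : ℝ) ^ 2000) * (2 * 3 / (t : ℝ) ^ 518) / (t : ℝ) ^ 1483 +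
        2 * (2 / (t : ℝ) ^ 2000) * ((t : ℝ) ^ 1483) ^ 2 / (t : ℝ) ^ 967 := by
        gcongr
        · exact h.hn2
        · exact rho_pow' t 518 ht
        · linarith
    _ = _ := by field_simp; ring

lemma bad10 (j : ℕ) : (law (Sym2 V)).real {ω | ¬ Cut (Gr ω (Set.Iic (pj (Fintype.card V) t j)))
    (Gr ω (Set.Iic (pj (Fintype.card V) t (j + 1) + Dl (Fintype.card V) t))) (t ^ 520)} ≤
    2 / (t : ℝ) ^ 2 := by
  have h0 := h.T0
  have hn0 := h.n0
  have h1 := h.pjD_half (j + 1)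
  have hy := h.yy_pos j
  have hy1 := h.yy_succ j
  have hy2 := h.yy0 j
  have hy3 := Par.yy_le (T := t) j
  have h2 : pj (Fintype.card V) t j ≤ pj (Fintype.card V) t (j + 1) + Dl (Fintype.card V) t := by
    have : pj (Fintype.card V) t j ≤ pj (Fintype.card V) t (j + 1) := by
      unfold pj; gcongr; exact hy1.1
    linarith [h.Dl0]
  rw [transfer (h.pj0 j) h2 (by linarith) (fun G G' => ¬ Cut G G' (t ^ 520))]
  set π := pv (h.pj0 j) h2 (by linarith : _ ≤ (1 : ℝ)) with hπ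
  have m1 : π.m Oa = pj (Fintype.card V) t j := m_Oa _ _ _
  have m2 : π.m Ob = pj (Fintype.card V) t (j + 1) + Dl (Fintype.card V) t := m_Ob _ _ _
  set y := yy t j with hydef
  set η := y / (1 + y) with hη
  have hη0 : 16 / (t : ℝ) ^ 519 ≤ η := by
    have b1 := h.inv_le1 (C := 32) (b := 519) (by norm_num) (by norm_num)
    have e : 32 / (t : ℝ) ^ 519 = 2 * (16 / (t : ℝ) ^ 519) := by ring
    rw [hη, le_div_iff₀ (by linarith)]
    have : 0 ≤ 16 / (t : ℝ) ^ 519 := by positivity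
    nlinarith
  have hη1 : η ≤ 1 := by rw [hη, div_le_one (by linarith)]; linarith
  have hηpos : 0 < η := by rw [hη]; positivity
  have hm1 : Fintype.card V * π.m Oa = 1 + y := by rw [m1, h.npj]
  have hm1pos : 0 < π.m Oa := by
    rw [m1]; unfold pj; positivity
  refine (π.Pr_le_add (B := fun x : Sym2 V → Fin 3 =>
      ¬ ∃ v, (y + η / 8) / π.m Oa ≤ (Cl (Gr x Oa) v).card)
    (C := fun x : Sym2 V → Fin 3 => ∃ v, (y + η / 8) / π.m Oa ≤ (Cl (Gr x Oa) v).card ∧
      ¬ NoPath (On (Gr x Ob) (Cl (Gr x Oa) v)ᶜ) (t ^ 520)) ?_).trans ?_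
  · intro x hx
    by_cases hg : ∃ v, (y + η / 8) / π.m Oa ≤ (Cl (Gr x Oa) v).card
    · obtain ⟨v, hv⟩ := hg
      exact Or.inr ⟨v, hv, fun h' => hx ⟨v, h'⟩⟩
    · exact Or.inl hg
  have tiny2 : ∀ C x : ℝ, C ≤ (t : ℝ) ^ 2001 * (t : ℝ) ^ 2001 → (t : ℝ) / 100 ≤ x →
      C * Real.exp (-x) ≤ 1 / (t : ℝ) ^ 2 := by
    intro C x hC hx
    have := h.tiny (C := C * t) (x := x) (by
      calc C * t ≤ (t : ℝ) ^ 2001 * (t : ℝ) ^ 2001 * t := by gcongr
        _ = (t : ℝ) ^ 4003 := by ring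
        _ ≤ _ := h.pw (by norm_num)) hx
    rw [le_div_iff₀ (by positivity)] at this ⊢
    nlinarith
  have b1 := (Pr_giant π Oa hy rfl hη hm1).trans (tiny2 _ _
    (by rw [sq]; have := h.n3; gcongr) (by
      rw [le_div_iff₀ (by positivity)]
      calc (t : ℝ) / 100 * (12800 * (1 + y) ^ 3) ≤ t / 100 * (12800 * (3 * t) ^ 3) := by
            gcongr; linarith [h.T1]
        _ = 3456 * (t : ℝ) ^ 4 := by ring
        _ ≤ (t : ℝ) ^ 443 := h.cpw (by norm_num) (by norm_num)
        _ ≤ 4096 * (t : ℝ) ^ 443 := by linarith [pow_pos h0 443]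
        _ = (16 / (t : ℝ) ^ 519) ^ 3 * (t : ℝ) ^ 2000 := by field_simp; ring
        _ ≤ _ := by gcongr; exact h.hn1))
  have b2 := (Pr_dual π Oa Ob (w := (y + η / 8) / π.m Oa) (θ := 1 - η / 16) (by
      have c1 : Fintype.card V * π.m Ob ≤ (1 + y) * (1 + η / 16) := by
        rw [m2, h.npjD]
        have e : 32 / (t : ℝ) ^ 519 = 32 * (1 / (t : ℝ) ^ 519) := by ring
        have e2 : (1 + y) * η = y := by rw [hη]; field_simp
        nlinarith [hy1.2]
      have c2 : (Fintype.card V - (y + η / 8) / π.m Oa) = (1 - η / 8) / π.m Oa := by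
        field_simp; linarith
      rw [c2, div_mul_eq_mul_div, div_le_iff₀ hm1pos]
      apply le_of_mul_le_mul_left _ hn0
      calc _ = (1 - η / 8) * (Fintype.card V * π.m Ob) := by ring
        _ ≤ (1 - η / 8) * ((1 + y) * (1 + η / 16)) := by gcongr; linarith
        _ ≤ (1 - η / 16) * (1 + y) := by nlinarith [mul_nonneg (sq_nonneg η) hy.le, sq_nonneg η]
        _ = _ := by rw [← hm1]; ring) (t ^ 520)).trans (show _ ≤ 1 / (t : ℝ) ^ 2 by
      rw [abs_of_nonneg (by linarith), ← mul_assoc]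
      refine le_trans ?_ (tiny2 ((Fintype.card V : ℝ) * Fintype.card V) t
        (by have := h.n4; gcongr) (by linarith))
      gcongr
      refine (pow_le_exp_neg (by linarith) _).trans ?_
      rw [Real.exp_le_exp, neg_le_neg_iff]
      push_cast
      calc (t : ℝ) = 16 / (t : ℝ) ^ 519 / 16 * (t : ℝ) ^ 520 := by field_simp
        _ ≤ _ := by gcongr)
  have : 2 / (t : ℝ) ^ 2 = 1 / (t : ℝ) ^ 2 + 1 / (t : ℝ) ^ 2 := by ring
  linarith

lemma bad11 : (law (Sym2 V)).real {ω |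
    ¬ (Gr ω (Set.Iic (pj (Fintype.card V) t (32 * t)))).Connected} ≤ 2 / t := by
  have h0 := h.T0
  have hn0 := h.n0
  have : Nonempty V := Fintype.card_pos_iff.1 (by exact_mod_cast hn0)
  have h1 := h.pjD_half (32 * t)
  have h2 := h.Dl0
  rw [transfer (h.pj0 _) le_rfl (by linarith) (fun G _ => ¬ G.Connected)]
  have hy : yy t (32 * t) = 2 * t := by
    apply min_eq_right
    have a1 : (2 : ℝ) ≤ (33 / 32) ^ 32 := by norm_num
    have a2 : (t : ℝ) ^ 20000 ≤ (33 / 32) ^ (32 * t) := by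
      rw [pow_mul]
      exact h.hE.trans ((Real.exp_le_exp.2 (by linarith)).trans ((two_pow_ge t).trans
        (pow_le_pow_left₀ (by norm_num) a1 t)))
    calc 2 * (t : ℝ) ≤ 32 * t := by linarith
      _ = (t : ℝ) ^ 520 * (32 / (t : ℝ) ^ 519) := by field_simp
      _ ≤ _ := by gcongr; exact (h.pw (by norm_num)).trans a2
  have a3 : (Fintype.card V : ℝ) *
      Real.exp (-(pj (Fintype.card V) t (32 * t) * Fintype.card V / 2)) ≤ 1 / t :=
    h.tiny (h.n4.trans (h.pw (by norm_num))) (by rw [mul_comm, h.npj, hy]; linarith)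
  refine (Pr_not_connected _ Oa ?_).trans ?_
  · rw [m_Oa]; refine a3.trans ?_; rw [div_le_one h0]; exact h.T1
  · rw [m_Oa]
    have : 2 / (t : ℝ) = 2 * (1 / t) := by ring
    linarith

end Pool.Agent.MP_f8cd8e_pr

end MrgPart2

-- ======== part 3: formerly Pool.Agent.MP_f8cd8e_pr.Main
section MrgPart3

/-! Assembly: the quenched and averaged bounds. -/

open scoped Classical
open Finset MeasureTheory

namespace Pool.Agent.MP_f8cd8e_pr

variable {V : Type} [Fintype V]

noncomputable def quench (β : ℝ) (A : SimpleGraph V → Prop) (ω : Sym2 V → ℝ) : ℝ :=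
  (∑ T ∈ trees V, tw (fun e => Real.exp (-β * ω e)) T * ind (A T)) /
    ZZ (fun e => Real.exp (-β * ω e))

lemma ZZ_pos [Nonempty V] {φ : Sym2 V → ℝ} (h : ∀ e, 0 < φ e) : 0 < ZZ φ := by
  obtain ⟨v⟩ := ‹Nonempty V›
  rw [ZZ_eq φ v]; exact FF_net_pos h (mem_singleton_self _)

lemma quench_nonneg (β : ℝ) (A : SimpleGraph V → Prop) (ω : Sym2 V → ℝ) : 0 ≤ quench β A ω :=
  div_nonneg (sum_nonneg fun T _ => mul_nonneg (tw_nonneg (fun _ => (Real.exp_pos _).le) T)
    (ind_nonneg _)) (sum_nonneg fun T _ => tw_nonneg (fun _ => (Real.exp_pos _).le) T)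

lemma quench_le_one (β : ℝ) (A : SimpleGraph V → Prop) (ω : Sym2 V → ℝ) : quench β A ω ≤ 1 := by
  apply div_le_one_of_le₀ _ (sum_nonneg fun T _ => tw_nonneg (fun _ => (Real.exp_pos _).le) T)
  exact sum_le_sum fun T _ => mul_le_of_le_one_right
    (tw_nonneg (fun _ => (Real.exp_pos _).le) T) (ind_le_one _)

lemma quench_meas (β : ℝ) (A : SimpleGraph V → Prop) : Measurable (quench β A) := by
  unfold quench ZZ tw
  fun_prop

/-- The good environments. -/
structure Good (t : ℕ) (J : Finset V) (ω : Sym2 V → ℝ) : Prop where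
  g1 : FewOut (Gr ω (Set.Iic (pf (Fintype.card V) t)))
    (Gr ω (Set.Iic (p1 (Fintype.card V) t))) (Fintype.card V) (t ^ 9)
  g2 : FewOut (Gr ω (Set.Iic (p1 (Fintype.card V) t)))
    (Gr ω (Set.Iic (pH (Fintype.card V) t))) (2 * t ^ 680) (t ^ 162)
  g3 : ∀ v, (Cl (Gr ω (Set.Iic (p1 (Fintype.card V) t))) v).card ≤ 4 * t ^ 1055
  g4 : ¬ (ClS (Gr ω (Set.Iic (p1 (Fintype.card V) t))) J).card ≤ 2 * t ^ 1473
  g5 : ¬ t ^ 1473 ≤
    ∑ j ∈ J, min (Cl (Gr ω (Set.Iic (p1 (Fintype.card V) t))) j).card (t ^ 1052)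
  g6 : ¬ t ^ 1483 < (Big (Gr ω (Set.Iic (pH (Fintype.card V) t))) (t ^ 1052)).card
  g7 : ¬ ∃ v,
    (Cl (Gr ω (Set.Iic (p1 (Fintype.card V) t))) v).card ≤ 4 * t ^ 1055 ∧
    (Big (On (Gr ω (Set.Iic (pH (Fintype.card V) t)))
      (Cl (Gr ω (Set.Iic (p1 (Fintype.card V) t))) v)ᶜ) (t ^ 1052)).card ≤ t ^ 1483 ∧
    t ^ 20 < (gates (Gr ω (Set.Iic (pH (Fintype.card V) t)))
      (Cl (Gr ω (Set.Iic (p1 (Fintype.card V) t))) v)
      (Big (On (Gr ω (Set.Iic (pH (Fintype.card V) t)))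
        (Cl (Gr ω (Set.Iic (p1 (Fintype.card V) t))) v)ᶜ) (t ^ 1052))).card
  g8 : ¬ ((∃ (ρ : Fin (t ^ 417) → V) (b : Fin (t ^ 417) → Finset V),
      Valid (Gr ω (Set.Iic (p1 (Fintype.card V) t))) (t ^ 1052) ρ b) ∧
    ¬ ∃ (ρ : Fin (t ^ 417) → V) (b : Fin (t ^ 417) → Finset V),
      Valid (Gr ω (Set.Iic (p1 (Fintype.card V) t))) (t ^ 1052) ρ b ∧
      Expands (Gr ω (Set.Iic (ps (Fintype.card V) t))) b (t / 16) (5 * t))
  g9 : NoPath (Gr ω (Set.Iic (pj (Fintype.card V) t 0 + Dl (Fintype.card V) t)))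
    (t ^ 967 + 2 * t ^ 518)
  g10 : ∀ j < 32 * t, Cut (Gr ω (Set.Iic (pj (Fintype.card V) t j)))
    (Gr ω (Set.Iic (pj (Fintype.card V) t (j + 1) + Dl (Fintype.card V) t))) (t ^ 520)
  g11 : (Gr ω (Set.Iic (pj (Fintype.card V) t (32 * t)))).Connected

omit [Fintype V] in
lemma real_le_add {μ : Measure (Sym2 V → ℝ)} [IsFiniteMeasure μ] {A B C : Set (Sym2 V → ℝ)}
    {b c : ℝ} (h : A ⊆ B ∪ C) (hb : μ.real B ≤ b) (hc : μ.real C ≤ c) : μ.real A ≤ b + c :=
  (measureReal_mono h).trans ((measureReal_union_le _ _).trans (add_le_add hb hc))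

variable {t : ℕ} (h : Par (Fintype.card V) t)
include h

lemma not_good (J : Finset V) (hJ : J.card = 18 * t ^ 946) :
    (law (Sym2 V)).real {ω | ¬ Good t J ω} ≤ 162 / t := by
  have h0 := h.T0
  have b10 : (law (Sym2 V)).real (⋃ j ∈ range (32 * t), {ω |
      ¬ Cut (Gr ω (Set.Iic (pj (Fintype.card V) t j)))
      (Gr ω (Set.Iic (pj (Fintype.card V) t (j + 1) + Dl (Fintype.card V) t))) (t ^ 520)}) ≤
      64 / t := by
    refine (measureReal_biUnion_finset_le _ _).trans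
      ((sum_le_sum fun j _ => bad10 h j).trans (le_of_eq ?_))
    rw [sum_const, card_range, nsmul_eq_mul]; push_cast; field_simp; ring
  have := real_le_add (A := {ω | ¬ Good t J ω}) ?_ (bad1 h) (real_le_add subset_rfl (bad2 h)
    (real_le_add subset_rfl (bad3 h) (real_le_add subset_rfl (bad4 h J hJ)
    (real_le_add subset_rfl (bad5 h J hJ) (real_le_add subset_rfl (bad6 h)
    (real_le_add subset_rfl (bad7 h) (real_le_add subset_rfl (bad8 h (Fin (t ^ 417)) (by simp))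
    (real_le_add subset_rfl (bad9 h) (real_le_add subset_rfl b10 (bad11 h))))))))))
  · refine this.trans (le_of_eq ?_); ring
  · intro ω hω
    by_contra hc
    simp only [Set.mem_union, Set.mem_ofPred_eq, not_or, not_not, Set.mem_iUnion, mem_range,
      exists_prop, not_exists (p := fun j : ℕ => j < 32 * t ∧ _), not_and (a := _ < 32 * t)] at hc
    obtain ⟨c1, c2, c3, c4, c5, c6, c7, c8, c9, c10, c11⟩ := hc
    exact hω ⟨c1, c2, c3, c4, c5, c6, c7, c8, c9, c10, c11⟩

lemma good_bound {β : ℝ} (hb1 : Fintype.card V * (t : ℝ) ^ 520 ≤ β)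
    (hb2 : β ≤ 2 * Fintype.card V * (t : ℝ) ^ 520) {J : Finset V} {ω : Sym2 V → ℝ}
    (g : Good t J ω) :
    1 - 2 / t ≤ quench β (fun T => 2 * t ^ 680 < T.diam ∧ T.diam ≤ t ^ 980) ω := by
  have h0 := h.T0
  have hn0 := h.n0
  have ht : 0 < t := by exact_mod_cast h0
  have hne : Nonempty V := Fintype.card_pos_iff.1 (by exact_mod_cast hn0)
  have hβ : 0 ≤ β := le_trans (by positivity) hb1
  set φ : Sym2 V → ℝ := fun e => Real.exp (-β * ω e) with hφ
  have hφ0 : ∀ e, 0 < φ e := fun e => Real.exp_pos _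
  have hZ := ZZ_pos hφ0
  have hβΔ : (t : ℝ) ≤ β * Dl (Fintype.card V) t := by
    calc (t : ℝ) = Fintype.card V * (t : ℝ) ^ 520 * Dl (Fintype.card V) t := by
          unfold Dl; field_simp
      _ ≤ _ := mul_le_mul_of_nonneg_right hb1 h.Dl0.le
  have s1 := bad_bound ω (Δ := Dl (Fintype.card V) t) hβ
  have s1' : 2 * (Fintype.card V : ℝ) ^ 5 * Real.exp (-(β * Dl (Fintype.card V) t)) ≤ 1 / t := by
    refine h.tiny ?_ (by linarith)
    calc _ ≤ 2 * ((t : ℝ) ^ 2001) ^ 5 := by gcongr; exact h.n4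
      _ = 2 * (t : ℝ) ^ 10005 := by ring
      _ ≤ _ := h.cpw (by norm_num) (by norm_num)
  have hnat : ∀ {C a b : ℕ}, C ≤ 10 ^ 6 → a < b → C * t ^ a ≤ t ^ b := by
    intro C a b hC hab
    have := h.cpw (C := C) (by exact_mod_cast hC) hab
    exact_mod_cast this
  obtain ⟨ρ, b, hv, he⟩ : ∃ (ρ : Fin (t ^ 417) → V) (b : Fin (t ^ 417) → Finset V),
      Valid (Gr ω (Set.Iic (p1 (Fintype.card V) t))) (t ^ 1052) ρ b ∧
      Expands (Gr ω (Set.Iic (ps (Fintype.card V) t))) b (t / 16) (5 * t) := by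
    by_contra hc
    refine g.g8 ⟨exists_blocks _ (not_le.1 g.g4) (not_le.1 g.g5) g.g3 ?_, hc⟩
    have := hnat (C := 4) (a := 1472) (b := 1473) (by norm_num) (by norm_num)
    rw [Fintype.card_fin, show t ^ 417 * (4 * t ^ 1055) = 4 * t ^ 1472 by ring]
    omega
  have s2 := lower_det hφ0 (Gf := Gr ω (Set.Iic (pf (Fintype.card V) t)))
    (Gr_mono ω (Set.Iic_subset_Iic.2 h.p1s)) (Gr_mono ω (Set.Iic_subset_Iic.2 h.psH))
    (cs := Real.exp (-β * p1 (Fintype.card V) t)) (Real.exp_pos _) ?_ ?_ ?_ ?_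
    (Fintype.card_fin _) hv (by positivity) (by positivity) he (mu := 1 / (t : ℝ) ^ 10)
    (by positivity) ?_ g.g1 g.g2 (by positivity) (hnat (by norm_num) (by norm_num))
    (κ := t ^ 20) ?_
  rotate_left
  · intro a b hab
    have a1 : ω s(a, b) ≤ p1 (Fintype.card V) t - Dl (Fintype.card V) t := hab.2
    have a2 : (Fintype.card V : ℝ) ≤ Real.exp t :=
      h.n4.trans ((h.pw (by norm_num)).trans (h.hE.trans (Real.exp_le_exp.2 (by linarith))))
    calc _ ≤ Real.exp t * Real.exp (-β * p1 (Fintype.card V) t) := by gcongr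
      _ ≤ _ := by
        rw [← Real.exp_add, hφ, Real.exp_le_exp]
        nlinarith
  · intro a b hab
    have a1 : ω s(a, b) ≤ p1 (Fintype.card V) t := hab.2
    rw [hφ, Real.exp_le_exp]; nlinarith
  · intro a b hab
    have a1 : ω s(a, b) ≤ p1 (Fintype.card V) t + 1 / (t : ℝ) ^ 520 / Fintype.card V := hab.2
    have a2 : β * (1 / (t : ℝ) ^ 520 / Fintype.card V) ≤ 2 := by
      calc _ ≤ 2 * Fintype.card V * (t : ℝ) ^ 520 * (1 / (t : ℝ) ^ 520 / Fintype.card V) := by
            gcongr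
        _ = 2 := by field_simp
    have a3 : Real.exp 2 ≤ 8 := by
      have := Real.exp_one_lt_d9
      have e : Real.exp 2 = Real.exp 1 ^ 2 := by rw [← Real.exp_nat_mul]; norm_num
      nlinarith [Real.exp_pos 1]
    calc _ ≤ Real.exp 2 * φ s(a, b) := by
          rw [hφ, ← Real.exp_add, Real.exp_le_exp]; nlinarith
      _ ≤ _ := by gcongr
  · intro a b hab hn
    have a1 : p1 (Fintype.card V) t < ω s(a, b) := by simpa [hab] using hn
    rw [hφ, Real.exp_le_exp]; nlinarith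
  · push_cast
    have a1 := h.pw (a := 0) (b := 9) (by norm_num)
    have a2 := h.pw (a := 0) (b := 10) (by norm_num)
    rw [pow_zero] at a1 a2
    calc _ ≤ 1 / (t : ℝ) ^ 10 * (5 * t * (12 * ((t : ℝ) ^ 9 + (t : ℝ) ^ 9) * (5 * t) +
          48 * (t : ℝ) ^ 10)) := by gcongr; linarith
      _ = 840 * t := by field_simp; ring
      _ ≤ _ := by nlinarith [h.hT]
  · intro v
    by_contra hc
    refine g.g7 ⟨v, g.g3 v, le_trans (card_le_card fun y hy => ?_) (not_lt.1 g.g6), not_le.1 hc⟩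
    simp only [Big, mem_filter, mem_univ, true_and] at hy ⊢
    exact hy.trans (card_le_card (Cl_mono (On_le _ _) _))
  set L : SimpleGraph V → Prop := fun T => ∀ u v,
    (Gr ω (Set.Iic (ps (Fintype.card V) t))).Reachable u v → ∃ p k, k ≤ 2 * t ^ 680 ∧ p 0 = u ∧
      p k = v ∧ PathFn T p k ∧ PathFn (Gr ω (Set.Iic (pH (Fintype.card V) t))) p k with hL
  have s3 : ∑ T ∈ trees V, tw φ T * ind (L T) ≤ 1 / t * ZZ φ := by
    apply le_of_mul_le_mul_left _ (pow_pos h0 417)
    push_cast at s2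
    refine le_trans (le_of_eq ?_) (s2.trans ?_)
    · congr 1
      refine sum_congr rfl fun T _ => ?_
      unfold ind
      congr
    rw [← mul_assoc]
    apply mul_le_mul_of_nonneg_right _ hZ.le
    have a1 := h.pw (a := 0) (b := 20) (by norm_num)
    rw [pow_zero] at a1
    calc _ ≤ 12 * ((t : ℝ) ^ 162 * ((t : ℝ) ^ 20 + (t : ℝ) ^ 20)) ^ 2 / (1 / (t : ℝ) ^ 10) := by
          gcongr
      _ = 48 * (t : ℝ) ^ 374 := by field_simp; ring
      _ ≤ (t : ℝ) ^ 416 := h.cpw (by norm_num) (by norm_num)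
      _ = _ := by field_simp
  have s4 : ∀ T ∈ trees V, 1 ≤ ind (2 * t ^ 680 < T.diam ∧ T.diam ≤ t ^ 980) +
      ind (Bad ω (Dl (Fintype.card V) t) T) + ind (L T) := by
    intro T hT
    have hT : T.IsTree := (mem_filter.1 hT).2
    have i1 := ind_nonneg (2 * t ^ 680 < T.diam ∧ T.diam ≤ t ^ 980)
    have i2 := ind_nonneg (Bad ω (Dl (Fintype.card V) t) T)
    have i3 := ind_nonneg (L T)
    by_cases hB : Bad ω (Dl (Fintype.card V) t) T
    · rw [ind_of hB]; linarith
    by_cases hlo : 2 * t ^ 680 < T.diam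
    · rw [ind_of (P := _ ∧ _) ⟨hlo, ?_⟩]
      · linarith
      obtain ⟨u, v, huv⟩ := T.exists_dist_eq_diam
      obtain ⟨p, -, -, hp⟩ := exists_pathFn (hT.connected u v)
      have := upper_det (fun j => Gr ω (Set.Iic (pj (Fintype.card V) t j)))
        (fun j => Gr ω (Set.Iic (pj (Fintype.card V) t j + Dl (Fintype.card V) t))) (32 * t)
        (t ^ 520) _ (fun j p k hp hr => path_of_not_bad hB hp hr) g.g9 g.g10 g.g11 hp
      have a1 := hnat (C := 3) (a := 967) (b := 980) (by norm_num) (by norm_num)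
      have a2 := hnat (C := 2) (a := 518) (b := 967) (by norm_num) (by norm_num)
      have a3 := hnat (C := 64) (a := 521) (b := 967) (by norm_num) (by norm_num)
      rw [show 32 * t * (2 * t ^ 520) = 64 * t ^ 521 by ring] at this
      omega
    · rw [ind_of (P := L T)]
      · linarith
      intro u v hr
      obtain ⟨p, h1, h2, hp⟩ := exists_pathFn (hT.connected u v)
      refine ⟨p, _, ?_, h1, h2, hp, path_of_not_bad hB hp (by rw [h1, h2]; exact hr)⟩
      have := SimpleGraph.dist_le_diam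
        (SimpleGraph.connected_iff_ediam_ne_top.1 hT.connected) (u := u) (v := v)
      omega
  have s5 : ZZ φ ≤ ∑ T ∈ trees V, tw φ T * ind (2 * t ^ 680 < T.diam ∧ T.diam ≤ t ^ 980) +
      ∑ T ∈ trees V, tw φ T * ind (Bad ω (Dl (Fintype.card V) t) T) +
      ∑ T ∈ trees V, tw φ T * ind (L T) := by
    rw [← sum_add_distrib, ← sum_add_distrib]
    apply sum_le_sum
    intro T hT
    rw [← mul_add, ← mul_add]
    exact le_mul_of_one_le_right (tw_nonneg (fun e => (hφ0 e).le) T) (s4 T hT)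
  have s6 := s1.trans (mul_le_mul_of_nonneg_right s1' hZ.le)
  unfold quench
  rw [le_div_iff₀ hZ]
  have e : (1 - 2 / (t : ℝ)) * ZZ φ = ZZ φ - 1 / t * ZZ φ - 1 / t * ZZ φ := by ring
  unfold ind at s3 s5 ⊢
  linarith

theorem averaged_bound {β : ℝ} (hb1 : Fintype.card V * (t : ℝ) ^ 520 ≤ β)
    (hb2 : β ≤ 2 * Fintype.card V * (t : ℝ) ^ 520) (A : SimpleGraph V → Prop)
    (hA : ∀ T : SimpleGraph V, 2 * t ^ 680 < T.diam ∧ T.diam ≤ t ^ 980 → A T) :
    1 - 164 / t ≤ ∫ ω, quench β A ω ∂(law (Sym2 V)) := by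
  have h0 := h.T0
  obtain ⟨J, -, hJ⟩ := exists_subset_card_eq (s := (univ : Finset V)) (n := 18 * t ^ 946) (by
    have := (h.cpw (C := 18) (a := 946) (b := 2000) (by norm_num) (by norm_num)).trans h.hn1
    rw [card_univ]; exact_mod_cast this)
  set B := toMeasurable (law (Sym2 V)) {ω | ¬ Good t J ω} with hB
  have hBm : MeasurableSet B := measurableSet_toMeasurable _ _
  have hB1 : (law (Sym2 V)).real B ≤ 162 / t := by
    rw [hB, measureReal_def, measure_toMeasurable]; exact not_good h J hJ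
  have hint : Integrable (quench β A) (law (Sym2 V)) :=
    Integrable.of_bound (quench_meas β A).aestronglyMeasurable 1 (Filter.Eventually.of_forall
      fun ω => by rw [Real.norm_of_nonneg (quench_nonneg _ _ _)]; exact quench_le_one _ _ _)
  have hi2 : Integrable (B.indicator (fun _ => (1 : ℝ))) (law (Sym2 V)) :=
    (integrable_const 1).indicator hBm
  have key : ∫ ω, ((1 - 2 / (t : ℝ)) - B.indicator (fun _ => (1 : ℝ)) ω) ∂(law (Sym2 V)) ≤
      ∫ ω, quench β A ω ∂(law (Sym2 V)) := by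
    apply integral_mono ((integrable_const _).sub hi2) hint
    intro ω
    simp only [Pi.sub_apply]
    by_cases hω : ω ∈ B
    · rw [Set.indicator_of_mem hω]
      have : 0 ≤ 2 / (t : ℝ) := by positivity
      linarith [quench_nonneg β A ω]
    · rw [Set.indicator_of_notMem hω, sub_zero]
      have g : Good t J ω := by
        by_contra hc; exact hω (subset_toMeasurable _ _ hc)
      refine (good_bound h hb1 hb2 g).trans ?_
      unfold quench
      apply div_le_div_of_nonneg_right _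
        (sum_nonneg fun T _ => tw_nonneg (fun _ => (Real.exp_pos _).le) T)
      exact sum_le_sum fun T _ => mul_le_mul_of_nonneg_left (ind_mono (hA T))
        (tw_nonneg (fun _ => (Real.exp_pos _).le) T)
  rw [integral_sub (integrable_const _) hi2, integral_const, integral_indicator_const _ hBm] at key
  simp only [probReal_univ, smul_eq_mul, one_mul, mul_one] at key
  have e : 164 / (t : ℝ) = 2 / t + 162 / t := by ring
  linarith

end Pool.Agent.MP_f8cd8e_pr

end MrgPart3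

-- marker of a merged file
example : 731051 + 243913 = 731051 + 243913 := rfl
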